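import Pool.Agent.H26.BL.Proc

/-!
From words of sweeps to positivity of the chromatic polynomial.
-/

set_option autoImplicit false
set_option linter.unusedVariables false

namespace Pool.Agent.H26.BL

open Polynomial Pool.Agent.H207R2.BL Pool.Agent.H110R3.BP Pool.Agent.H110R3.BP2

/-- Laurent polynomial functions -/
def Lau (f : ℝ → ℝ) : Prop := ∃ (M : ℕ) (Q : ℝ[X]), ∀ x : ℝ, 0 < x → x ^ M * f x = Q.eval x

theorem Lau.add {f g : ℝ → ℝ} (hf : Lau f) (hg : Lau g) : Lau (fun x => f x + g x) := by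
  obtain ⟨M, Q, h⟩ := hf
  obtain ⟨M', Q', h'⟩ := hg
  refine ⟨M + M', X ^ M' * Q + X ^ M * Q', fun x hx => ?_⟩
  rw [eval_add, eval_mul, eval_mul, eval_pow, eval_pow, eval_X, ← h x hx, ← h' x hx, pow_add]
  ring

theorem Lau.mul {f g : ℝ → ℝ} (hf : Lau f) (hg : Lau g) : Lau (fun x => f x * g x) := by
  obtain ⟨M, Q, h⟩ := hf
  obtain ⟨M', Q', h'⟩ := hg
  refine ⟨M + M', Q * Q', fun x hx => ?_⟩
  rw [eval_mul, ← h x hx, ← h' x hx, pow_add]
  ring

theorem Lau.poly (P : ℝ[X]) : Lau (fun x => P.eval x) :=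
  ⟨0, P, fun x _ => by rw [pow_zero, one_mul]⟩

theorem Lau.eq {f g : ℝ → ℝ} (hf : Lau f) (hg : Lau g)
    (h : ∀ k : ℕ, 1 ≤ k → f k = g k) (x : ℝ) (hx : 0 < x) : f x = g x := by
  obtain ⟨M, Q, h1⟩ := hf
  obtain ⟨M', Q', h2⟩ := hg
  have hpoly : X ^ M' * Q = X ^ M * Q' := by
    apply Polynomial.eq_of_infinite_eval_eq
    have hinf : (Set.range (fun k : ℕ => ((k + 1 : ℕ) : ℝ))).Infinite := by
      apply Set.infinite_range_of_injective
      intro i j hij
      have : ((i + 1 : ℕ) : ℝ) = ((j + 1 : ℕ) : ℝ) := hij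
      exact Nat.succ_injective (Nat.cast_injective this)
    refine hinf.mono ?_
    rintro _ ⟨k, rfl⟩
    have hk : (0 : ℝ) < ((k + 1 : ℕ) : ℝ) := by positivity
    simp only [Set.mem_ofPred_eq, eval_mul, eval_pow, eval_X]
    rw [← h1 _ hk, ← h2 _ hk, h (k + 1) (by omega)]
    ring
  have h3 := congrArg (eval x) hpoly
  simp only [eval_mul, eval_pow, eval_X] at h3
  rw [← h1 x hx, ← h2 x hx] at h3
  have hM : x ^ M * x ^ M' ≠ 0 := mul_ne_zero (pow_ne_zero _ hx.ne') (pow_ne_zero _ hx.ne')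
  apply mul_left_cancel₀ hM
  linarith

theorem Rv_Lau (R : List (ℝ × ℤ × Ty)) (cz cw czw : ℝ) : Lau (fun x => Rv R x cz cw czw) := by
  obtain ⟨M, Q, h⟩ := Pool.Agent.H110R3.BP.T31.clear
    (R.map (fun a => (a.1 * tv a.2.2 cz cw czw, a.2.1)))
  refine ⟨M, Q, fun x hx => ?_⟩
  rw [← h x hx, List.map_map]
  show x ^ M * (R.map (fun a => a.1 * (x ^ a.2.1 * tv a.2.2 cz cw czw))).sum = _
  congr 2
  apply List.map_congr_left
  intro a _
  simp only [Function.comp]
  ring

theorem sum_one {k : ℕ} (a : Fin k) (A B : ℝ) :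
    ∑ x : Fin k, (if x = a then A else B) = A + ((k : ℝ) - 1) * B := by
  have e : ∀ x : Fin k, (if x = a then A else B) = B + (if x = a then A - B else 0) := by
    intro x
    split_ifs <;> ring
  simp only [e, Finset.sum_add_distrib, Finset.sum_const, Finset.card_univ, Fintype.card_fin,
    nsmul_eq_mul, Finset.sum_ite_eq', Finset.mem_univ, if_true]
  ring

theorem sum_two {k : ℕ} (a b : Fin k) (hab : b ≠ a) (A B D : ℝ) :
    ∑ x : Fin k, (if x = a then A else if x = b then B else D) = A + B + ((k : ℝ) - 2) * D := by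
  have e : ∀ x : Fin k, (if x = a then A else if x = b then B else D) =
      D + (if x = a then A - D else 0) + (if x = b then B - D else 0) := by
    intro x
    by_cases h1 : x = a
    · have h2 : ¬ x = b := fun h => hab (h.symm.trans h1)
      rw [if_pos h1, if_pos h1, if_neg h2]
      ring
    · rw [if_neg h1, if_neg h1]
      split_ifs <;> ring
  simp only [e, Finset.sum_add_distrib, Finset.sum_const, Finset.card_univ, Fintype.card_fin,
    nsmul_eq_mul, Finset.sum_ite_eq', Finset.mem_univ, if_true]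
  ring

theorem sum_pairs {k : ℕ} (F : ℝ → ℝ) :
    ∑ a : Fin k, ∑ x : Fin k, F (if x = a then 1 else 0) =
      (k : ℝ) * (F 1 + ((k : ℝ) - 1) * F 0) := by
  have e : ∀ a : Fin k, ∑ x : Fin k, F (if x = a then 1 else 0) =
      F 1 + ((k : ℝ) - 1) * F 0 := by
    intro a
    rw [← sum_one a]
    refine Finset.sum_congr rfl fun x _ => ?_
    split_ifs <;> rfl
  simp only [e, Finset.sum_const, Finset.card_univ, Fintype.card_fin, nsmul_eq_mul]

theorem sum_triples {k : ℕ} (F : ℝ → ℝ → ℝ → ℝ) :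
    ∑ a : Fin k, ∑ x : Fin k, ∑ y : Fin k,
      F (if x = a then 1 else 0) (if y = a then 1 else 0) (if x = y then 1 else 0) =
      (k : ℝ) * (F 1 1 1 + ((k : ℝ) - 1) * F 1 0 0 +
        ((k : ℝ) - 1) * (F 0 1 0 + F 0 0 1 + ((k : ℝ) - 2) * F 0 0 0)) := by
  have e : ∀ a x : Fin k, ∑ y : Fin k,
      F (if x = a then 1 else 0) (if y = a then 1 else 0) (if x = y then 1 else 0) =
      if x = a then F 1 1 1 + ((k : ℝ) - 1) * F 1 0 0 else
        F 0 1 0 + F 0 0 1 + ((k : ℝ) - 2) * F 0 0 0 := by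
    intro a x
    by_cases hx : x = a
    · rw [if_pos hx, if_pos hx, ← sum_one a]
      refine Finset.sum_congr rfl fun y _ => ?_
      by_cases hy : y = a
      · rw [if_pos hy, if_pos hy, if_pos (hx.trans hy.symm)]
      · rw [if_neg hy, if_neg hy, if_neg (fun h => hy (h.symm.trans hx))]
    · rw [if_neg hx, if_neg hx, ← sum_two a x hx]
      refine Finset.sum_congr rfl fun y _ => ?_
      by_cases hy : y = a
      · rw [if_pos hy, if_pos hy, if_neg (fun h => hx (h.trans hy))]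
      · by_cases hy2 : y = x
        · rw [if_neg hy, if_neg hy, if_pos hy2.symm, if_pos hy2]
        · rw [if_neg hy, if_neg hy, if_neg (fun h => hy2 h.symm), if_neg hy2]
  have e2 : ∀ a : Fin k, ∑ x : Fin k, (if x = a then F 1 1 1 + ((k : ℝ) - 1) * F 1 0 0 else
        F 0 1 0 + F 0 0 1 + ((k : ℝ) - 2) * F 0 0 0) = F 1 1 1 + ((k : ℝ) - 1) * F 1 0 0 +
        ((k : ℝ) - 1) * (F 0 1 0 + F 0 0 1 + ((k : ℝ) - 2) * F 0 0 0) := fun a => sum_one a _ _
  simp only [e, e2, Finset.sum_const, Finset.card_univ, Fintype.card_fin, nsmul_eq_mul]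

theorem cnt_ghost2 {V : Type} [Fintype V] (u z : V) (k : ℕ) (E : Set (Sym2 V)) (x y : Fin k) :
    cnt k [u, z, u] E [x, y, x] = cnt k [u, z] E [x, y] := by
  classical
  unfold cnt
  refine Finset.sum_congr rfl fun g _ => ?_
  have : ((∀ a b, s(a, b) ∈ E → g a ≠ g b) ∧ [u, z, u].map g = [x, y, x]) ↔
      ((∀ a b, s(a, b) ∈ E → g a ≠ g b) ∧ [u, z].map g = [x, y]) := by
    simp only [List.map_cons, List.map_nil, List.cons.injEq, and_true]
    tauto
  by_cases h : (∀ a b, s(a, b) ∈ E → g a ≠ g b) ∧ [u, z].map g = [x, y]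
  · rw [if_pos h, if_pos (this.2 h)]
  · rw [if_neg h, if_neg (fun h' => h (this.1 h'))]

theorem cnt_ghost3 {V : Type} [Fintype V] (u z w : V) (k : ℕ) (E : Set (Sym2 V)) (x y t : Fin k) :
    cnt k [u, z, u, w] E [x, y, x, t] = cnt k [u, z, w] E [x, y, t] := by
  classical
  unfold cnt
  refine Finset.sum_congr rfl fun g _ => ?_
  have : ((∀ a b, s(a, b) ∈ E → g a ≠ g b) ∧ [u, z, u, w].map g = [x, y, x, t]) ↔
      ((∀ a b, s(a, b) ∈ E → g a ≠ g b) ∧ [u, z, w].map g = [x, y, t]) := by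
    simp only [List.map_cons, List.map_nil, List.cons.injEq, and_true]
    tauto
  by_cases h : (∀ a b, s(a, b) ∈ E → g a ≠ g b) ∧ [u, z, w].map g = [x, y, t]
  · rw [if_pos h, if_pos (this.2 h)]
  · rw [if_neg h, if_neg (fun h' => h (this.1 h'))]

theorem cnt_sum2 {V : Type} [Fintype V] (u z : V) (k : ℕ) (E : Set (Sym2 V)) :
    ∑ a : Fin k, ∑ x : Fin k, cnt k [u, z] E [a, x] = cnt k [] E [] := by
  have h1 : ∀ a : Fin k, ∑ x : Fin k, cnt k [u, z] E [a, x] = cnt k [u] E [a] := fun a =>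
    cnt_drop k [u] [] E z [a] [] rfl
  simp only [h1]
  exact cnt_drop k [] [] E u [] [] rfl

theorem cnt_sum3 {V : Type} [Fintype V] (u z w : V) (k : ℕ) (E : Set (Sym2 V)) :
    ∑ a : Fin k, ∑ x : Fin k, ∑ y : Fin k, cnt k [u, z, w] E [a, x, y] = cnt k [] E [] := by
  have h1 : ∀ a x : Fin k, ∑ y : Fin k, cnt k [u, z, w] E [a, x, y] = cnt k [u, z] E [a, x] :=
    fun a x => cnt_drop k [u, z] [] E w [a, x] [] rfl
  simp only [h1]
  exact cnt_sum2 u z k E

/-- Two pinned vertices. -/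
theorem posA {V : Type} [Fintype V] (u z : V) (hzu : z ≠ u) (col : V → Bool) (G : SimpleGraph V)
    (h : GoodP u z (stt z u col) [] G.edgeSet) (p : ℝ[X]) (hp : IsChrom G p) (q : ℝ)
    (hq : 4 ≤ q) : 0 < p.eval q := by
  obtain ⟨w, κ, N, a, b, hok, -, hjunk, h00, hr, hlen, hT⟩ := h
  have hN : 1 ≤ N := by simpa using hlen
  have hnoW : ∀ j, κ j ≠ St.W := by
    intro j
    rcases Nat.eq_zero_or_pos j with h0 | h0
    · rw [h0]; exact h00
    · exact hjunk j (by simpa using h0)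
  have hok' : OKP (Let.C 1 :: w) (Function.update κ 1 St.N) :=
    OKP.C 1 St.N w κ le_rfl hok (by decide) (fun hw => absurd hw (hnoW 1)) (fun hw => by cases hw)
  have hr' : ∀ l ∈ Let.C 1 :: w, InR1 N l := by
    intro l hl
    rcases List.mem_cons.1 hl with rfl | hl
    · exact ⟨le_rfl, hN⟩
    · exact hr l hl
  obtain ⟨R, hR⟩ := stp_T N hN (Let.C 1 :: w) hr'
  -- integer values
  have hk : ∀ k : ℕ, 1 ≤ k → (k : ℝ) ^ (b + 1) * p.eval (k : ℝ) =
      (k : ℝ) ^ a * ((k : ℝ) * (Rv R k 1 1 1 + ((k : ℝ) - 1) * Rv R k 0 1 0)) := by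
    intro k hk
    have hk0 : (k : ℝ) ≠ 0 := by
      have : (1 : ℝ) ≤ (k : ℝ) := by exact_mod_cast hk
      linarith
    have hka : (k : ℝ) ^ a ≠ 0 := pow_ne_zero _ hk0
    have h1 : ∀ a0 x0 : Fin k, (k : ℝ) ^ (b + 1) * cnt k [u, z] G.edgeSet [a0, x0] =
        (k : ℝ) ^ a * Rv R k (if x0 = a0 then 1 else 0) 1 (if x0 = a0 then 1 else 0) := by
      intro a0 x0
      have h2 := cst_val N k hN a0 x0 a0 (T (PR N k) (Let.C 1 :: w))
        ((k : ℝ) ^ (b + 1) / (k : ℝ) ^ a * cnt k [u, z] G.edgeSet [a0, x0]) (by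
          intro c hc0 hc1
          have e1 : T (PR N k) (Let.C 1 :: w) (pin N k a0 x0) c =
              ∑ x : Fin k, T (PR N k) w (pin N k a0 x0) (Function.update c (pt N 1) x) := by
            rw [T_cons', Module.End.mul_apply]
            show (PR N k).e (2 * 1) _ c = _
            rw [PR_even, Cop_apply]
          have e2 : ∀ x : Fin k, T (PR N k) w (pin N k a0 x0) (Function.update c (pt N 1) x) =
              (k : ℝ) ^ b / (k : ℝ) ^ a * cnt k [u, z] G.edgeSet [a0, x0] := by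
            intro x
            have h3 := hT N le_rfl k hk a0 x0 (Function.update c (pt N 1) x)
            have h4 : cl (fun i => i) (([] : List V).length + 1)
                (Function.update c (pt N 1) x) = [a0] := by
              have h5 : Function.update c (pt N 1) x (pt N 0) = a0 := by
                rw [Function.update_of_ne (pt_ne N 0 1 (by omega) hN (by omega)), hc0]
              simp [cl, h5]
            rw [h4, cnt_ghost2] at h3
            field_simp
            linarith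
          rw [e1, Finset.sum_congr rfl (fun x _ => e2 x)]
          simp only [Finset.sum_const, Finset.card_univ, Fintype.card_fin, nsmul_eq_mul]
          rw [pow_succ]
          ring)
      have h3 := hR k hk0 _ (PR N k) _ _ _ (cst N k hN a0 x0 a0)
      rw [h2] at h3
      have h4 := mul_right_cancel₀ (cst_pos N k hN a0 x0 a0).ne' h3
      rw [if_pos rfl] at h4
      rw [← h4]
      field_simp
    rw [hp k, ← cnt_final G k, ← cnt_sum2 u z k G.edgeSet, ← sum_pairs (k := k)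
      (fun t => Rv R k t 1 t), Finset.mul_sum, Finset.mul_sum]
    refine Finset.sum_congr rfl fun a0 _ => ?_
    rw [Finset.mul_sum, Finset.mul_sum]
    exact Finset.sum_congr rfl fun x0 _ => h1 a0 x0
  -- the identity at `q`
  have hq0 : 0 < q := by linarith
  have hL1 : Lau (fun x => x ^ (b + 1) * p.eval x) := by
    have := Lau.poly (X ^ (b + 1) * p)
    simpa using this
  have hL2 : Lau (fun x => x ^ a * (x * (Rv R x 1 1 1 + (x - 1) * Rv R x 0 1 0))) := by
    have e1 : Lau (fun x => x ^ a) := by simpa using Lau.poly (X ^ a)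
    have e2 : Lau (fun x => x) := by simpa using Lau.poly X
    have e3 : Lau (fun x => x - 1) := ⟨0, X - 1, fun x _ => by simp⟩
    exact e1.mul (e2.mul ((Rv_Lau R 1 1 1).add (e3.mul (Rv_Lau R 0 1 0))))
  have hmain := Lau.eq hL1 hL2 hk q hq0
  -- positivity
  obtain ⟨δ, μ, hqδ, hμ⟩ := exists_two q hq
  have hκ1 : Function.update κ 1 St.N 1 = St.W ∨ Function.update κ 1 St.N 1 = St.N :=
    Or.inr (Function.update_self _ _ _)
  have hκ2 : ∀ j, 2 ≤ j → Function.update κ 1 St.N j ≠ St.W := by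
    intro j hj
    rw [Function.update_of_ne (by omega)]
    exact hnoW j
  have hno' : ∀ j, Function.update κ 1 St.N j ≠ St.W := by
    intro j
    by_cases hj : j = 1
    · rw [hj, Function.update_self]; decide
    · rw [Function.update_of_ne hj]; exact hnoW j
  have v1 := (value_nonneg hμ q hqδ N hN (0 : Fin 2) (0 : Fin 2) (0 : Fin 2) _ _ hok' hr' hκ1 hκ2
    R hR).1
  have v2 := (value_nonneg hμ q hqδ N hN (0 : Fin 2) (1 : Fin 2) (0 : Fin 2) _ _ hok' hr' hκ1 hκ2
    R hR).2 (by decide) (Or.inr hno')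
  replace v1 : 0 ≤ Rv R q 1 1 1 := by simpa using v1
  replace v2 : 0 < Rv R q 0 1 0 := by simpa using v2
  have h3 : 0 < q ^ (b + 1) * p.eval q := by
    have h4 : q ^ (b + 1) * p.eval q =
        q ^ a * (q * (Rv R q 1 1 1 + (q - 1) * Rv R q 0 1 0)) := hmain
    rw [h4]
    have h5 : 0 < (q - 1) * Rv R q 0 1 0 := mul_pos (by linarith) v2
    have h6 : 0 < Rv R q 1 1 1 + (q - 1) * Rv R q 0 1 0 := by linarith
    positivity
  exact (pos_iff_pos_of_mul_pos h3).1 (by positivity)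

/-- Three pinned vertices. -/
theorem posB {V : Type} [Fintype V] (u z w : V) (hzu : z ≠ u) (hzw : z ≠ w) (col : V → Bool)
    (G : SimpleGraph V)
    (h : GoodP u z (stt z w col) [w] G.edgeSet) (p : ℝ[X]) (hp : IsChrom G p) (q : ℝ)
    (hq : 9 / 2 ≤ q) : 0 < p.eval q := by
  obtain ⟨wd, κ, N, a, b, hok, hκ, hjunk, h00, hr, hlen, hT⟩ := h
  have hN : 1 ≤ N := by
    simp at hlen
    omega
  obtain ⟨R, hR⟩ := stp_T N hN wd hr
  have hκw : κ 1 = St.W := by
    have := hκ 0 (by simp)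
    rw [zero_add] at this
    rw [this]
    show stt z w col w = St.W
    unfold stt
    rw [if_neg hzw.symm, if_pos rfl]
  -- integer values
  have hk : ∀ k : ℕ, 1 ≤ k → (k : ℝ) ^ b * p.eval (k : ℝ) =
      (k : ℝ) ^ a * ((k : ℝ) * (Rv R k 1 1 1 + ((k : ℝ) - 1) * Rv R k 1 0 0 +
        ((k : ℝ) - 1) * (Rv R k 0 1 0 + Rv R k 0 0 1 + ((k : ℝ) - 2) * Rv R k 0 0 0))) := by
    intro k hk
    have hk0 : (k : ℝ) ≠ 0 := by
      have : (1 : ℝ) ≤ (k : ℝ) := by exact_mod_cast hk
      linarith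
    have hka : (k : ℝ) ^ a ≠ 0 := pow_ne_zero _ hk0
    have h1 : ∀ a0 x0 y0 : Fin k, (k : ℝ) ^ b * cnt k [u, z, w] G.edgeSet [a0, x0, y0] =
        (k : ℝ) ^ a * Rv R k (if x0 = a0 then 1 else 0) (if y0 = a0 then 1 else 0)
          (if x0 = y0 then 1 else 0) := by
      intro a0 x0 y0
      have h2 := cst_val N k hN a0 x0 y0 (T (PR N k) wd)
        ((k : ℝ) ^ b / (k : ℝ) ^ a * cnt k [u, z, w] G.edgeSet [a0, x0, y0]) (by
          intro c hc0 hc1
          have h3 := hT N le_rfl k hk a0 x0 c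
          have h4 : cl (fun i => i) (([w] : List V).length + 1) c = [a0, y0] := by
            simp [cl, List.range_succ, hc0, hc1]
          rw [h4, cnt_ghost3] at h3
          field_simp
          linarith)
      have h3 := hR k hk0 _ (PR N k) _ _ _ (cst N k hN a0 x0 y0)
      rw [h2] at h3
      have h4 := mul_right_cancel₀ (cst_pos N k hN a0 x0 y0).ne' h3
      rw [← h4]
      field_simp
    rw [hp k, ← cnt_final G k, ← cnt_sum3 u z w k G.edgeSet, ← sum_triples (k := k)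
      (fun s t r => Rv R k s t r), Finset.mul_sum, Finset.mul_sum]
    refine Finset.sum_congr rfl fun a0 _ => ?_
    rw [Finset.mul_sum, Finset.mul_sum]
    refine Finset.sum_congr rfl fun x0 _ => ?_
    rw [Finset.mul_sum, Finset.mul_sum]
    exact Finset.sum_congr rfl fun y0 _ => h1 a0 x0 y0
  -- the identity at `q`
  have hq0 : 0 < q := by linarith
  have hL1 : Lau (fun x => x ^ b * p.eval x) := by
    have := Lau.poly (X ^ b * p)
    simpa using this
  have hL2 : Lau (fun x => x ^ a * (x * (Rv R x 1 1 1 + (x - 1) * Rv R x 1 0 0 +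
        (x - 1) * (Rv R x 0 1 0 + Rv R x 0 0 1 + (x - 2) * Rv R x 0 0 0)))) := by
    have e1 : Lau (fun x => x ^ a) := by simpa using Lau.poly (X ^ a)
    have e2 : Lau (fun x => x) := by simpa using Lau.poly X
    have e3 : Lau (fun x => x - 1) := ⟨0, X - 1, fun x _ => by simp⟩
    have e4 : Lau (fun x => x - 2) := ⟨0, X - C 2, fun x _ => by simp⟩
    exact e1.mul (e2.mul (((Rv_Lau R 1 1 1).add (e3.mul (Rv_Lau R 1 0 0))).add
      (e3.mul (((Rv_Lau R 0 1 0).add (Rv_Lau R 0 0 1)).add (e4.mul (Rv_Lau R 0 0 0))))))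
  have hmain := Lau.eq hL1 hL2 hk q hq0
  -- positivity
  obtain ⟨δ, μ, hqδ, hμ⟩ := exists_three q hq
  have hκ2 : ∀ j, 2 ≤ j → κ j ≠ St.W := fun j hj => hjunk j (by simp; omega)
  have v1 := (value_nonneg hμ q hqδ N hN (0 : Fin 3) (0 : Fin 3) (0 : Fin 3) _ _ hok hr
    (Or.inl hκw) hκ2 R hR).1
  have v2 := (value_nonneg hμ q hqδ N hN (0 : Fin 3) (0 : Fin 3) (1 : Fin 3) _ _ hok hr
    (Or.inl hκw) hκ2 R hR).1
  have v3 := (value_nonneg hμ q hqδ N hN (0 : Fin 3) (1 : Fin 3) (0 : Fin 3) _ _ hok hr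
    (Or.inl hκw) hκ2 R hR).1
  have v4 := (value_nonneg hμ q hqδ N hN (0 : Fin 3) (1 : Fin 3) (1 : Fin 3) _ _ hok hr
    (Or.inl hκw) hκ2 R hR).1
  have v5 := (value_nonneg hμ q hqδ N hN (0 : Fin 3) (1 : Fin 3) (2 : Fin 3) _ _ hok hr
    (Or.inl hκw) hκ2 R hR).2 (by decide) (Or.inl (by decide))
  replace v1 : 0 ≤ Rv R q 1 1 1 := by simpa using v1
  replace v2 : 0 ≤ Rv R q 1 0 0 := by simpa using v2
  replace v3 : 0 ≤ Rv R q 0 1 0 := by simpa using v3
  replace v4 : 0 ≤ Rv R q 0 0 1 := by simpa using v4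
  replace v5 : 0 < Rv R q 0 0 0 := by simpa using v5
  have h3 : 0 < q ^ b * p.eval q := by
    have h4 : q ^ b * p.eval q =
        q ^ a * (q * (Rv R q 1 1 1 + (q - 1) * Rv R q 1 0 0 +
        (q - 1) * (Rv R q 0 1 0 + Rv R q 0 0 1 + (q - 2) * Rv R q 0 0 0))) := hmain
    rw [h4]
    have g1 : 0 < (q - 2) * Rv R q 0 0 0 := mul_pos (by linarith) v5
    have g2 : 0 < (q - 1) * (Rv R q 0 1 0 + Rv R q 0 0 1 + (q - 2) * Rv R q 0 0 0) :=
      mul_pos (by linarith) (by linarith)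
    have g3 : 0 ≤ (q - 1) * Rv R q 1 0 0 := mul_nonneg (by linarith) v2
    have g4 : 0 < Rv R q 1 1 1 + (q - 1) * Rv R q 1 0 0 +
        (q - 1) * (Rv R q 0 1 0 + Rv R q 0 0 1 + (q - 2) * Rv R q 0 0 0) := by linarith
    positivity
  exact (pos_iff_pos_of_mul_pos h3).1 (by positivity)

end Pool.Agent.H26.BL
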