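import Pool.Agent.H26.BL.Rep

/-!
Positive eigenvectors of the graph consisting of a ray and `l` leaves.
-/

set_option autoImplicit false
set_option linter.unusedVariables false

namespace Pool.Agent.H26.BL

/-- the values on the ray -/
noncomputable def rseq (l : ℕ) (δ : ℝ) : ℕ → ℝ
  | 0 => δ
  | 1 => δ ^ 2 - l
  | m + 2 => δ * rseq l δ (m + 1) - rseq l δ m

/-- the eigenvector -/
noncomputable def mu (l : ℕ) (δ : ℝ) : Nd l → ℝ
  | Nd.leaf _ => 1
  | Nd.ray m => rseq l δ m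

theorem rseq_pos (l : ℕ) (δ t : ℝ) (hδ : 0 < δ) (ht : 0 < t) (h1 : t ^ 2 - δ * t + 1 = 0)
    (h2 : δ * t ≤ δ ^ 2 - l) (m : ℕ) :
    0 < rseq l δ m ∧ t * rseq l δ m ≤ rseq l δ (m + 1) := by
  induction m with
  | zero =>
    refine ⟨hδ, ?_⟩
    show t * δ ≤ δ ^ 2 - l
    linarith
  | succ m ih =>
    obtain ⟨i1, i2⟩ := ih
    have p1 : 0 < rseq l δ (m + 1) := lt_of_lt_of_le (mul_pos ht i1) i2
    refine ⟨p1, ?_⟩
    show t * rseq l δ (m + 1) ≤ δ * rseq l δ (m + 1) - rseq l δ m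
    have h3 : t * (t * rseq l δ (m + 1)) ≤ t * (δ * rseq l δ (m + 1) - rseq l δ m) := by
      have e : δ * t = t ^ 2 + 1 := by linarith
      have : t * (δ * rseq l δ (m + 1) - rseq l δ m) =
          (δ * t) * rseq l δ (m + 1) - t * rseq l δ m := by ring
      rw [this, e]
      nlinarith
    exact le_of_mul_le_mul_left h3 ht

theorem mu_eig (l : ℕ) (δ : ℝ) (x : Nd l) : ∑ y ∈ nb x, mu l δ y = δ * mu l δ x := by
  rcases x with j | (_ | m)
  · simp [nb, mu, rseq]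
  · have h1 : (Nd.ray 1 : Nd l) ∉ ((Finset.univ : Finset (Fin l)).image Nd.leaf) := by
      simp
    have h2 : ∑ y ∈ ((Finset.univ : Finset (Fin l)).image Nd.leaf), mu l δ y = (l : ℝ) := by
      rw [Finset.sum_image (fun a _ b _ h => by injection h)]
      simp [mu]
    show ∑ y ∈ insert (Nd.ray 1) ((Finset.univ : Finset (Fin l)).image Nd.leaf), mu l δ y = _
    rw [Finset.sum_insert h1, h2]
    simp only [mu, rseq]
    ring
  · have h1 : (Nd.ray m : Nd l) ≠ Nd.ray (m + 2) := by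
      intro h
      injection h with h
      omega
    show ∑ y ∈ {Nd.ray m, Nd.ray (m + 2)}, mu l δ y = _
    rw [Finset.sum_pair h1]
    simp only [mu]
    rw [rseq]
    ring

theorem exists_Eg (l : ℕ) (q : ℝ) (hq : 4 ≤ q) (hl : 2 * l - q ≤ Real.sqrt (q ^ 2 - 4 * q)) :
    ∃ (δ : ℝ) (μ : Nd l → ℝ), q = δ ^ 2 ∧ Eg δ μ := by
  set δ := Real.sqrt q with hδ
  have hδ2 : δ ^ 2 = q := Real.sq_sqrt (by linarith)
  have hδp : 0 < δ := Real.sqrt_pos.2 (by linarith)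
  set r := Real.sqrt (q ^ 2 - 4 * q) with hr
  have hr0 : 0 ≤ r := Real.sqrt_nonneg _
  have hr2 : r ^ 2 = q ^ 2 - 4 * q := Real.sq_sqrt (by nlinarith)
  have hrq : r < q := by
    by_contra h
    push Not at h
    nlinarith
  set t := (q - r) / (2 * δ) with ht
  have htp : 0 < t := by
    rw [ht]
    apply div_pos <;> linarith
  have htδ : δ * t = (q - r) / 2 := by
    rw [ht]
    field_simp
  have h1 : t ^ 2 - δ * t + 1 = 0 := by
    have e : δ ^ 2 * (t ^ 2 - δ * t + 1) = 0 := by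
      have : δ ^ 2 * (t ^ 2 - δ * t + 1) = (δ * t) ^ 2 - δ ^ 2 * (δ * t) + δ ^ 2 := by ring
      rw [this, htδ, hδ2]
      linear_combination (1 / 4 : ℝ) * hr2
    rcases mul_eq_zero.1 e with e | e
    · exact absurd e (by positivity)
    · exact e
  have h2 : δ * t ≤ δ ^ 2 - l := by
    rw [htδ, hδ2]
    linarith
  refine ⟨δ, mu l δ, hδ2.symm, ⟨?_, mu_eig l δ⟩⟩
  rintro (j | m)
  · exact one_pos
  · exact (rseq_pos l δ t hδp htp h1 h2 m).1

theorem exists_two (q : ℝ) (hq : 4 ≤ q) : ∃ (δ : ℝ) (μ : Nd 2 → ℝ), q = δ ^ 2 ∧ Eg δ μ := by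
  apply exists_Eg 2 q hq
  have : 0 ≤ Real.sqrt (q ^ 2 - 4 * q) := Real.sqrt_nonneg _
  push_cast
  linarith

theorem exists_three (q : ℝ) (hq : 9 / 2 ≤ q) :
    ∃ (δ : ℝ) (μ : Nd 3 → ℝ), q = δ ^ 2 ∧ Eg δ μ := by
  apply exists_Eg 3 q (by linarith)
  push_cast
  rcases le_or_gt (2 * 3 - q) 0 with h | h
  · exact h.trans (Real.sqrt_nonneg _)
  · apply Real.le_sqrt_of_sq_le
    nlinarith

end Pool.Agent.H26.BL
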