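import Pool.Agent.H26.BL.Pos

/-!
Evaluation of words by functionals which are pinned at the first and at the last moment.
-/

set_option autoImplicit false
set_option linter.unusedVariables false

namespace Pool.Agent.H26.BL

open Pool.Agent.H207R2.BL Pool.Agent.H110R3.BP Pool.Agent.H110R3.BP2

/-- types of monomials in the pinning data -/
inductive Ty : Type
  | one | z | w | zw | all

/-- value of a monomial -/
def tv (t : Ty) (cz cw czw : ℝ) : ℝ :=
  match t with
  | Ty.one => 1
  | Ty.z => cz
  | Ty.w => cw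
  | Ty.zw => czw
  | Ty.all => cz * cw

/-- A pinned state. -/
structure StP {M : ℕ} {q : ℝ} {A : Type} [Ring A] [Algebra ℝ A] (S : TL M q A)
    (cz cw czw : ℝ) where
  φ : A →ₗ[ℝ] ℝ
  left : ∀ j, 4 ≤ j → j < M → Even j → ∀ x, φ (S.e j * x) = q * φ x
  right : ∀ j, 4 ≤ j → j < M → Even j → ∀ x, φ (x * S.e j) = q * φ x
  left1 : ∀ x, φ (S.e 1 * x) = cw * φ x
  right1 : ∀ x, φ (x * S.e 1) = cz * φ x
  one : φ 1 = czw * φ (S.e 2)
  rel : cw * czw = cz * cw

theorem ones (M : ℕ) (hM : 1 < M) (w : List ℕ) (hw : ∀ j ∈ w, 1 ≤ j ∧ j < 2) :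
    (∀ (q : ℝ) (A : Type) [Ring A] [Algebra ℝ A] (S : TL M q A), S.W w = 1) ∨
      (∀ (q : ℝ) (A : Type) [Ring A] [Algebra ℝ A] (S : TL M q A), S.W w = S.e 1) := by
  induction w with
  | nil => exact Or.inl fun q A _ _ S => by simp
  | cons j w ih =>
    have hj : j = 1 := by
      have := hw j List.mem_cons_self
      omega
    subst hj
    right
    rcases ih (fun i hi => hw i (List.mem_cons_of_mem _ hi)) with h | h
    · intro q A _ _ S
      rw [TL.W_cons, h q A S, mul_one]
    · intro q A _ _ S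
      rw [TL.W_cons, h q A S, S.sq 1 hM]
      simp

theorem stp_eval3 (n : ℕ) (hn : 1 ≤ n) (w : List ℕ) (hw : ∀ j ∈ w, 1 ≤ j ∧ j < 3) :
    ∃ (N : ℤ) (t : Ty), ∀ (q : ℝ), q ≠ 0 → ∀ (A : Type) [Ring A] [Algebra ℝ A]
      (S : TL (2 * n + 1) q A) (cz cw czw : ℝ) (F : StP S cz cw czw),
      F.φ (S.W w) = q ^ N * (tv t cz cw czw * F.φ (S.e 2)) := by
  obtain ⟨a, h | h⟩ := nf1 (2 * n + 1) 2 (by omega) w
    (fun j hj => ⟨(hw j hj).1, by have := (hw j hj).2; omega⟩)
  · obtain ⟨w', hw', h⟩ := h
    rcases ones (2 * n + 1) (by omega) w' hw' with h1 | h1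
    · refine ⟨a, Ty.zw, ?_⟩
      intro q hq A _ _ S cz cw czw F
      rw [h q A S, h1 q A S, map_smul, smul_eq_mul, F.one, zpow_natCast]
      rfl
    · refine ⟨a, Ty.all, ?_⟩
      intro q hq A _ _ S cz cw czw F
      have h2 := F.left1 1
      rw [mul_one, F.one] at h2
      rw [h q A S, h1 q A S, map_smul, smul_eq_mul, h2, zpow_natCast, ← mul_assoc cw, F.rel]
      rfl
  · obtain ⟨x, y, hx, hy, h⟩ := h
    rcases ones (2 * n + 1) (by omega) x hx with h1 | h1 <;>
      rcases ones (2 * n + 1) (by omega) y hy with h2 | h2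
    · refine ⟨a, Ty.one, ?_⟩
      intro q hq A _ _ S cz cw czw F
      rw [h q A S, h1 q A S, h2 q A S, map_smul, smul_eq_mul, zpow_natCast, one_mul, mul_one]
      simp [tv]
    · refine ⟨a, Ty.z, ?_⟩
      intro q hq A _ _ S cz cw czw F
      rw [h q A S, h1 q A S, h2 q A S, map_smul, smul_eq_mul, zpow_natCast, one_mul, F.right1]
      rfl
    · refine ⟨a, Ty.w, ?_⟩
      intro q hq A _ _ S cz cw czw F
      rw [h q A S, h1 q A S, h2 q A S, map_smul, smul_eq_mul, zpow_natCast, mul_one, F.left1]
      rfl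
    · refine ⟨a, Ty.all, ?_⟩
      intro q hq A _ _ S cz cw czw F
      have h3 := F.left1 1
      rw [mul_one, F.one] at h3
      have h4 : S.e 1 * S.e 2 * S.e 1 = S.e 1 := S.r1 1 (by omega)
      rw [h q A S, h1 q A S, h2 q A S, map_smul, smul_eq_mul, h4, h3, zpow_natCast,
        ← mul_assoc cw, F.rel]
      rfl

theorem stp_eval (n : ℕ) (hn : 1 ≤ n) (m : ℕ) (hm : m ≤ 2 * n + 1) (w : List ℕ)
    (hw : ∀ j ∈ w, 1 ≤ j ∧ j < m) :
    ∃ (N : ℤ) (t : Ty), ∀ (q : ℝ), q ≠ 0 → ∀ (A : Type) [Ring A] [Algebra ℝ A]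
      (S : TL (2 * n + 1) q A) (cz cw czw : ℝ) (F : StP S cz cw czw),
      F.φ (S.W w) = q ^ N * (tv t cz cw czw * F.φ (S.e 2)) := by
  induction m generalizing w with
  | zero =>
    exact stp_eval3 n hn w (fun j hj => by have := hw j hj; omega)
  | succ m ihm =>
    rcases Nat.lt_or_ge m 3 with hm3 | hm3
    · exact stp_eval3 n hn w (fun j hj => by have := hw j hj; omega)
    have ih := fun w hw => ihm (by omega) w hw
    obtain ⟨a, h | h⟩ := nf1 (2 * n + 1) m (by omega) w
      (fun j hj => ⟨(hw j hj).1, Nat.lt_succ_iff.1 (hw j hj).2⟩)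
    · obtain ⟨w', hw', h⟩ := h
      obtain ⟨N, t, hN⟩ := ih w' hw'
      refine ⟨a + N, t, ?_⟩
      intro q hq A _ _ S cz cw czw F
      rw [h q A S, map_smul, hN q hq A S cz cw czw F, smul_eq_mul, zpow_add₀ hq, zpow_natCast]
      ring
    · obtain ⟨x, y, hx, hy, h⟩ := h
      rcases Nat.even_or_odd m with he | ho
      · -- even top letter
        have hm4 : 4 ≤ m := by
          obtain ⟨r, hr⟩ := he
          omega
        obtain ⟨m', rfl⟩ : ∃ m', m = m' + 1 := ⟨m - 1, by omega⟩
        obtain ⟨b, h' | h'⟩ := nf1 (2 * n + 1) m' (by omega) y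
          (fun j hj => ⟨(hy j hj).1, Nat.lt_succ_iff.1 (hy j hj).2⟩)
        · obtain ⟨y', hy', h'⟩ := h'
          obtain ⟨N, t, hN⟩ := ih (x ++ y') (by
            intro j hj
            rcases List.mem_append.1 hj with hj | hj
            · exact hx j hj
            · exact ⟨(hy' j hj).1, (hy' j hj).2.trans (Nat.lt_succ_self m')⟩)
          refine ⟨a + (b + 1 + N), t, ?_⟩
          intro q hq A _ _ S cz cw czw F
          have hc := S.W_comm (m' + 1) (by omega) y' (fun i hi => by have := hy' i hi; omega)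
          have h1 := F.right (m' + 1) hm4 (by omega) he (S.W x * S.W y')
          have h2 := hN q hq A S cz cw czw F
          rw [TL.W_append] at h2
          rw [h q A S, h' q A S, map_smul, smul_eq_mul]
          have h3 : S.W x * S.e (m' + 1) * q ^ b • S.W y'
              = q ^ b • (S.W x * S.W y' * S.e (m' + 1)) := by
            rw [mul_smul_comm, mul_assoc, ← hc, mul_assoc]
          rw [h3, map_smul, h1, h2, smul_eq_mul, zpow_add₀ hq, zpow_add₀ hq, zpow_add₀ hq,
            zpow_natCast, zpow_natCast]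
          simp
          ring
        · obtain ⟨y1, y2, hy1, hy2, h'⟩ := h'
          obtain ⟨N, t, hN⟩ := ih (x ++ (y1 ++ y2)) (by
            intro j hj
            rcases List.mem_append.1 hj with hj | hj
            · exact hx j hj
            · rcases List.mem_append.1 hj with hj | hj
              · exact ⟨(hy1 j hj).1, (hy1 j hj).2.trans (Nat.lt_succ_self m')⟩
              · exact ⟨(hy2 j hj).1, (hy2 j hj).2.trans (Nat.lt_succ_self m')⟩)
          refine ⟨a + (b + N), t, ?_⟩
          intro q hq A _ _ S cz cw czw F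
          have hc1 := S.W_comm (m' + 1) (by omega) y1 (fun i hi => by have := hy1 i hi; omega)
          have hc2 := S.W_comm (m' + 1) (by omega) y2 (fun i hi => by have := hy2 i hi; omega)
          have hr := S.r2 m' (by omega)
          have hR := fun z => F.right (m' + 1) hm4 (by omega) he z
          have h2 := hN q hq A S cz cw czw F
          rw [TL.W_append, TL.W_append] at h2
          have key : q * F.φ (S.W x * S.e (m' + 1) * (S.W y1 * S.e m' * S.W y2))
              = q * F.φ (S.W x * (S.W y1 * S.W y2)) := by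
            rw [← hR, ← hR]
            congr 1
            calc S.W x * S.e (m' + 1) * (S.W y1 * S.e m' * S.W y2) * S.e (m' + 1)
                = S.W x * (S.e (m' + 1) * S.W y1) * S.e m' * (S.W y2 * S.e (m' + 1)) := by
                  simp only [mul_assoc]
              _ = S.W x * S.W y1 * (S.e (m' + 1) * S.e m' * S.e (m' + 1)) * S.W y2 := by
                  rw [← hc1, hc2]; simp only [mul_assoc]
              _ = S.W x * S.W y1 * (S.e (m' + 1) * S.W y2) := by
                  rw [hr]; simp only [mul_assoc]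
              _ = S.W x * (S.W y1 * S.W y2) * S.e (m' + 1) := by
                  rw [← hc2]; simp only [mul_assoc]
          have key2 := mul_left_cancel₀ hq key
          rw [h q A S, h' q A S, map_smul, smul_eq_mul, mul_smul_comm, map_smul, key2, h2,
            smul_eq_mul, zpow_add₀ hq, zpow_add₀ hq, zpow_natCast, zpow_natCast]
          ring
      · -- odd top letter
        have hm1 : m + 1 < 2 * n + 1 := by
          obtain ⟨t, ht⟩ := ho
          omega
        have he1 : Even (m + 1) := ho.add_one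
        obtain ⟨N, t, hN⟩ := ih (x ++ y) (by
          intro j hj
          rcases List.mem_append.1 hj with hj | hj
          · exact hx j hj
          · exact hy j hj)
        refine ⟨a + (-1 + N), t, ?_⟩
        intro q hq A _ _ S cz cw czw F
        have hc1 := S.W_comm (m + 1) hm1 x (fun i hi => by have := hx i hi; omega)
        have hc2 := S.W_comm (m + 1) hm1 y (fun i hi => by have := hy i hi; omega)
        have hr := S.r2 m hm1
        have hR := fun z => F.right (m + 1) (by omega) hm1 he1 z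
        have hL := fun z => F.left (m + 1) (by omega) hm1 he1 z
        have h2 := hN q hq A S cz cw czw F
        rw [TL.W_append] at h2
        have key : q * (q * F.φ (S.W x * S.e m * S.W y)) = q * F.φ (S.W x * S.W y) := by
          rw [← hR, ← hL, ← hR]
          congr 1
          calc S.e (m + 1) * (S.W x * S.e m * S.W y * S.e (m + 1))
              = (S.e (m + 1) * S.W x) * S.e m * (S.W y * S.e (m + 1)) := by
                simp only [mul_assoc]
            _ = S.W x * (S.e (m + 1) * S.e m * S.e (m + 1)) * S.W y := by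
                rw [← hc1, hc2]; simp only [mul_assoc]
            _ = S.W x * (S.e (m + 1) * S.W y) := by
                rw [hr]; simp only [mul_assoc]
            _ = S.W x * S.W y * S.e (m + 1) := by
                rw [← hc2]; simp only [mul_assoc]
        have key2 := mul_left_cancel₀ hq key
        have key3 : F.φ (S.W x * S.e m * S.W y) = q⁻¹ * F.φ (S.W x * S.W y) := by
          field_simp
          linarith
        rw [h q A S, map_smul, smul_eq_mul, key3, h2, zpow_add₀ hq, zpow_add₀ hq, zpow_natCast,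
          zpow_neg_one]
        ring

/-- value of a list of monomials -/
noncomputable def Rv (R : List (ℝ × ℤ × Ty)) (q cz cw czw : ℝ) : ℝ :=
  (R.map (fun a => a.1 * (q ^ a.2.1 * tv a.2.2 cz cw czw))).sum

theorem stp_T_aux (n : ℕ) (hn : 1 ≤ n) (L : List (ℝ × List ℕ))
    (hL : ∀ a ∈ L, ∀ j ∈ a.2, 1 ≤ j ∧ j < 2 * n + 1) :
    ∃ R : List (ℝ × ℤ × Ty), ∀ (q : ℝ), q ≠ 0 → ∀ (A : Type) [Ring A] [Algebra ℝ A]
      (S : TL (2 * n + 1) q A) (cz cw czw : ℝ) (F : StP S cz cw czw),
      F.φ ((L.map (fun a => a.1 • S.W a.2)).sum) = Rv R q cz cw czw * F.φ (S.e 2) := by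
  induction L with
  | nil =>
    refine ⟨[], ?_⟩
    intro q _ A _ _ S cz cw czw F
    simp [Rv]
  | cons a L ih =>
    obtain ⟨R, hR⟩ := ih (fun b hb => hL b (List.mem_cons_of_mem _ hb))
    obtain ⟨N, t, hN⟩ := stp_eval n hn (2 * n + 1) le_rfl a.2 (hL a List.mem_cons_self)
    refine ⟨(a.1, N, t) :: R, ?_⟩
    intro q hq A _ _ S cz cw czw F
    rw [List.map_cons, List.sum_cons, map_add, map_smul, hN q hq A S cz cw czw F,
      hR q hq A S cz cw czw F, smul_eq_mul]
    simp only [Rv, List.map_cons, List.sum_cons]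
    ring

theorem stp_T (n : ℕ) (hn : 1 ≤ n) (w : List Let) (hw : ∀ l ∈ w, InR1 n l) :
    ∃ R : List (ℝ × ℤ × Ty), ∀ (q : ℝ), q ≠ 0 → ∀ (A : Type) [Ring A] [Algebra ℝ A]
      (S : TL (2 * n + 1) q A) (cz cw czw : ℝ) (F : StP S cz cw czw),
      F.φ (T S w) = Rv R q cz cw czw * F.φ (S.e 2) := by
  obtain ⟨R, hR⟩ := stp_T_aux n hn (expd w) (expd_mem1 n w hw)
  refine ⟨R, ?_⟩
  intro q hq A _ _ S cz cw czw F
  rw [T_expd S w]
  exact hR q hq A S cz cw czw F

end Pool.Agent.H26.BL
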