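import Pool.Agent.H26.BL.Asm

/-!
Sweeps of straight line drawings with pinned vertices.
-/

set_option autoImplicit false
set_option linter.unusedVariables false

namespace Pool.Agent.H26.BL

open Pool.Agent.H207R2.BL Pool.Agent.H110R3.BP Pool.Agent.H110R3.BP2

theorem Ut_univ {V : Type} (u : V) (x : {v : V // v ≠ u} → ℝ) (t : ℝ) (ht : ∀ v, x v < t) :
    Ut u x t = Set.univ := by
  ext v
  simp only [Ut, Set.mem_union, Set.mem_singleton_iff, Set.mem_setOf_eq, Set.mem_univ, iff_true]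
  by_cases hv : v = u
  · exact Or.inl hv
  · exact Or.inr ⟨hv, ht _⟩

theorem Et_all {V : Type} (G : SimpleGraph V) (u : V) (x : {v : V // v ≠ u} → ℝ) (t : ℝ)
    (ht : ∀ v, x v < t) : Et G u x t = G.edgeSet := by
  ext e
  constructor
  · rintro (⟨a, c, rfl, h4, -, -⟩ | ⟨a, rfl, h4, -⟩)
    · exact h4
    · exact h4
  · intro h4
    induction e using Sym2.ind with
    | _ a c =>
      have h5 : G.Adj a c := h4
      by_cases ha : a = u
      · subst ha
        exact Or.inr ⟨⟨c, h5.ne'⟩, rfl, h5, ht _⟩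
      · by_cases hc : c = u
        · subst hc
          exact Or.inr ⟨⟨a, ha⟩, Sym2.eq_swap, h5.symm, ht _⟩
        · exact Or.inl ⟨⟨a, ha⟩, ⟨c, hc⟩, rfl, h5, ht _, ht _⟩

theorem procA {V : Type} [Finite V] {G : SimpleGraph V} (f : V → ℝ × ℝ)
    (h : IsStraight G f) (u z : V) (hzu : z ≠ u) (hu : ∀ v, v ≠ u → (f u).2 < (f v).2)
    (hx : Function.Injective (xs f u))
    (hleft : ∀ v : {v : V // v ≠ u}, v.1 ≠ z → xs f u ⟨z, hzu⟩ < xs f u v) :
    PrZ u z u [] Set.univ G.edgeSet := by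
  have h2 := mono_of_lowest f h u hu hx
  obtain ⟨t, ht⟩ := straight_proc_bound (xs f u)
  have h3 := prz_aux G u z u hzu (xs f u) (ys f u) (gs f u) h2
    (fun v hv a c hac h4 h5 => vis_of_lowest f h u hu v a c hv hac h4 h5) hleft _
    t (ht _) rfl (fun v => (ht v).ne) (fun v _ => v.2) [] ⟨fun e => by
      constructor
      · intro he
        simp at he
      · rintro ⟨-, -, h4⟩
        exact absurd (ht e.2) (not_lt.2 h4.le), List.Pairwise.nil⟩
  rw [Ut_univ u _ t ht, Et_all G u _ t ht] at h3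
  exact h3

theorem procB {V : Type} [Finite V] {G : SimpleGraph V} (f : V → ℝ × ℝ)
    (h : IsStraight G f) (u z w : V) (hzu : z ≠ u) (hwu : w ≠ u) (hzw : z ≠ w)
    (hu : ∀ v, v ≠ u → (f u).2 < (f v).2)
    (hx : Function.Injective (xs f u))
    (hleft : ∀ v : {v : V // v ≠ u}, v.1 ≠ z → xs f u ⟨z, hzu⟩ < xs f u v)
    (hright : ∀ v : {v : V // v ≠ u}, v.1 ≠ w → xs f u v < xs f u ⟨w, hwu⟩) :
    PrZ u z w [w] Set.univ G.edgeSet := by
  have h2 := mono_of_lowest f h u hu hx
  obtain ⟨t, ht⟩ := straight_proc_bound (xs f u)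
  have hnil : IsList (G.comap (fun v : {v : V // v ≠ u} => v.1)) (xs f u) (gs f u) t [] :=
    ⟨fun e => by
      constructor
      · intro he
        simp at he
      · rintro ⟨-, -, h4⟩
        exact absurd (ht e.2) (not_lt.2 h4.le), List.Pairwise.nil⟩
  set v : {v : V // v ≠ u} := ⟨w, hwu⟩ with hv
  obtain ⟨t0, ht0, hz⟩ := U39_t0 (xs f u) (xs f u v)
  have hvt : xs f u v < t := ht v
  have hno : ∀ a, a ≠ v → xs f u a < t0 ∨ t < xs f u a := by
    intro a hav
    exact Or.inl (hz a (hright a (fun e => hav (Subtype.ext e))))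
  obtain ⟨P, O, Q, I, hPOQ, hO, hI, hl', hP⟩ := event_list1 h2 v t0 t ht0 hvt hno [] hnil
  have hI2 : ∀ e, e ∈ I ↔ (G.Adj e.1.1 v.1 ∧ e.2 = v ∧ xs f u e.1 < xs f u v) := hI
  have hP0 : P = [] := by
    rcases List.append_eq_nil_iff.1 hPOQ.symm with ⟨h1, -⟩
    exact (List.append_eq_nil_iff.1 h1).1
  have hQ0 : Q = [] := (List.append_eq_nil_iff.1 hPOQ.symm).2
  rw [hP0, hQ0, List.nil_append, List.append_nil] at hl'
  have hzv : (⟨z, hzu⟩ : {v : V // v ≠ u}) ≠ v := fun e => hzw (congrArg Subtype.val e)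
  have hzt0 : xs f u ⟨z, hzu⟩ < t0 := hz _ (hright _ hzw)
  have ht0' : ∀ a, xs f u a ≠ t0 := by
    intro a ha
    by_cases hav : a = v
    · subst hav
      exact absurd ha ht0.ne'
    · exact absurd ha (hz a (hright a (fun e => hav (Subtype.ext e)))).ne
  have hp := prz_aux G u z w hzu (xs f u) (ys f u) (gs f u) h2
    (fun v hv a c hac h4 h5 => vis_of_lowest f h u hu v a c hv hac h4 h5) hleft _
    t0 hzt0 rfl ht0' (by
      intro a ha haw
      have : a = v := Subtype.ext haw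
      rw [this] at ha
      exact absurd ha (not_lt.2 ht0.le)) _ hl'
  have hwU : w ∉ Ut u (xs f u) t0 := by
    rintro (h1 | ⟨h1, h3⟩)
    · exact hwu h1
    · exact absurd h3 (not_lt.2 (le_of_lt ht0))
  have hI' : ∀ a ∈ I.map (fun e => e.1.1), a ≠ w := by
    intro a ha
    obtain ⟨e, he, rfl⟩ := List.mem_map.1 ha
    intro h3
    have h4 := ((hI2 e).1 he).2.2
    rw [show e.1 = v from Subtype.ext h3] at h4
    exact lt_irrefl _ h4
  have h1 := PrZ.new (I.map (fun e => e.1.1)) [] _ _ w (by rw [List.append_nil]; exact hp) hwU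
  have h3 := prz_in u z w [] [] w (I.map (fun e => e.1.1)) _ _ (by
    rw [List.nil_append]
    exact h1) hI' hI'
  have hU : insert w (Ut u (xs f u) t0) = Set.univ := by
    rw [← Ut_step u (xs f u) v t0 t ht0 hvt hno, Ut_univ u _ t ht]
  rw [hU, List.nil_append] at h3
  by_cases huv : G.Adj u v.1
  · have hE := Et_base G u (xs f u) v t0 t ht0 hvt hno huv I hI2
    rw [Et_all G u _ t ht] at hE
    have h4 := PrZ.base [] _ _ w h3 hwu.symm
    rw [hE]
    exact h4
  · have hE := Et_nobase G u (xs f u) v t0 t ht0 hvt hno huv I hI2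
    rw [Et_all G u _ t ht] at hE
    rw [hE]
    exact h3

end Pool.Agent.H26.BL
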