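import Pool.Agent.H26.BL.Geo
import Pool.Graph.R_seed8.TH592.BL.Lin

/-!
Perturbation and change of coordinates; the pinned theorems for straight line drawings.
-/

set_option autoImplicit false
set_option linter.unusedVariables false

namespace Pool.Agent.H26.BL

open Polynomial Pool.Agent.H207R2.BL Pool.Agent.H110R3.BP Pool.Agent.H110R3.BP2

theorem perturb2 {V : Type} [Finite V] {G : SimpleGraph V} (f : V → ℝ × ℝ)
    (h : IsStraight G f) (u : V) (hu : ∀ v, v ≠ u → (f u).2 < (f v).2) :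
    ∃ f' : V → ℝ × ℝ, IsStraight G f' ∧ (∀ v, v ≠ u → (f' u).2 < (f' v).2) ∧
      Function.Injective (xs f' u) ∧ ∀ a b, xs f u a < xs f u b → xs f' u a < xs f' u b := by
  obtain ⟨n, ⟨e⟩⟩ := Finite.exists_equiv_fin V
  obtain ⟨t0, ht0, hst⟩ := straight_open (G := G) f
    (fun v => (((e v : ℕ) : ℝ) * ((f v).2 - (f u).2), (0 : ℝ))) h
  have hev : ∀ᶠ t : ℝ in nhds 0, ∀ a b : {v : V // v ≠ u}, xs f u a < xs f u b →
      xs f u a + t * ((e a.1 : ℕ) : ℝ) < xs f u b + t * ((e b.1 : ℕ) : ℝ) := by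
    rw [Filter.eventually_all]
    intro a
    rw [Filter.eventually_all]
    intro b
    by_cases hab : xs f u a < xs f u b
    · have h1 : Continuous (fun t : ℝ => xs f u a + t * ((e a.1 : ℕ) : ℝ)) := by fun_prop
      have h2 : Continuous (fun t : ℝ => xs f u b + t * ((e b.1 : ℕ) : ℝ)) := by fun_prop
      have h3 := (isOpen_lt h1 h2).mem_nhds (show (0:ℝ) ∈ _ by simpa using hab)
      filter_upwards [h3] with t ht _
      exact ht
    · exact Filter.Eventually.of_forall fun t h => absurd h hab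
  rw [Metric.eventually_nhds_iff] at hev
  obtain ⟨t1, ht1, hev⟩ := hev
  have hB : (Set.range (fun a : {v : V // v ≠ u} × {v : V // v ≠ u} =>
      (xs f u a.2 - xs f u a.1) / (((e a.1.1 : ℕ) : ℝ) - ((e a.2.1 : ℕ) : ℝ)))).Finite :=
    Set.finite_range _
  obtain ⟨t, ⟨htI, htB⟩⟩ := ((Set.Ioo_infinite (lt_min ht0 ht1)).sdiff hB).nonempty
  have hx : ∀ v : {v : V // v ≠ u},
      xs (fun v => f v + t • (((e v : ℕ) : ℝ) * ((f v).2 - (f u).2), (0 : ℝ))) u v =
        xs f u v + t * ((e v.1 : ℕ) : ℝ) := by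
    intro v
    have hpos : (0 : ℝ) < (f v.1).2 - (f u).2 := by
      have := hu v.1 v.2
      linarith
    unfold xs
    simp only [Prod.fst_add, Prod.smul_mk, smul_eq_mul, Prod.snd_add, mul_zero, add_zero,
      sub_self]
    field_simp
    ring
  refine ⟨_, hst t htI.1 (htI.2.trans_le (min_le_left _ _)), ?_, ?_, ?_⟩
  · intro v hv
    simpa using hu v hv
  · intro a b hab
    by_contra hne
    have hne' : (((e a.1 : ℕ) : ℝ) - ((e b.1 : ℕ) : ℝ)) ≠ 0 := by
      intro h0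
      apply hne
      have h1 : ((e a.1 : ℕ) : ℝ) = ((e b.1 : ℕ) : ℝ) := sub_eq_zero.1 h0
      have h2 : (e a.1 : ℕ) = (e b.1 : ℕ) := by exact_mod_cast h1
      exact Subtype.ext (e.injective (Fin.ext h2))
    rw [hx a, hx b] at hab
    apply htB
    refine ⟨(a, b), ?_⟩
    simp only
    rw [div_eq_iff hne']
    linarith
  · intro a b hab
    rw [hx a, hx b]
    refine hev (y := t) ?_ a b hab
    rw [Real.dist_eq, sub_zero, abs_of_pos htI.1]
    exact htI.2.trans_le (min_le_right _ _)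

theorem baseA0 {V : Type} [Fintype V] (G : SimpleGraph V) (f : V → ℝ × ℝ)
    (h : IsStraight G f) (u z : V) (hzu : z ≠ u) (hu : ∀ v, v ≠ u → (f u).2 < (f v).2)
    (hleft : ∀ v : {v : V // v ≠ u}, v.1 ≠ z → xs f u ⟨z, hzu⟩ < xs f u v) (col : V → Bool)
    (hcol : BipZ u z u col G.edgeSet) (p : ℝ[X]) (hp : IsChrom G p) (q : ℝ) (hq : 4 ≤ q) :
    0 < p.eval q := by
  obtain ⟨f', h1, h2, h3, h4⟩ := perturb2 f h u hu
  exact posA u z hzu col G (goodP_of_prz u z u hzu col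
    (procA f' h1 u z hzu h2 h3 (fun v hv => h4 _ _ (hleft v hv))) hcol) p hp q hq

theorem baseB0 {V : Type} [Fintype V] (G : SimpleGraph V) (f : V → ℝ × ℝ)
    (h : IsStraight G f) (u z w : V) (hzu : z ≠ u) (hwu : w ≠ u) (hzw : z ≠ w)
    (hu : ∀ v, v ≠ u → (f u).2 < (f v).2)
    (hleft : ∀ v : {v : V // v ≠ u}, v.1 ≠ z → xs f u ⟨z, hzu⟩ < xs f u v)
    (hright : ∀ v : {v : V // v ≠ u}, v.1 ≠ w → xs f u v < xs f u ⟨w, hwu⟩) (col : V → Bool)
    (hcol : BipZ u z w col G.edgeSet) (p : ℝ[X]) (hp : IsChrom G p) (q : ℝ)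
    (hq : 9 / 2 ≤ q) : 0 < p.eval q := by
  obtain ⟨f', h1, h2, h3, h4⟩ := perturb2 f h u hu
  exact posB u z w hzu hzw col G (goodP_of_prz u z w hzu col
    (procB f' h1 u z w hzu hwu hzw h2 h3 (fun v hv => h4 _ _ (hleft v hv))
      (fun v hv => h4 _ _ (hright v hv))) hcol) p hp q hq

/-- cross product -/
def crs (a b : ℝ × ℝ) : ℝ := a.1 * b.2 - a.2 * b.1

/-- a linear map given by its coefficients -/
noncomputable def lin4 (p q r s : ℝ) : ℝ × ℝ →ₗ[ℝ] ℝ × ℝ :=
  (p • LinearMap.fst ℝ ℝ ℝ + q • LinearMap.snd ℝ ℝ ℝ).prod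
    (r • LinearMap.fst ℝ ℝ ℝ + s • LinearMap.snd ℝ ℝ ℝ)

theorem lin4_apply (p q r s : ℝ) (a : ℝ × ℝ) :
    lin4 p q r s a = (p * a.1 + q * a.2, r * a.1 + s * a.2) := rfl

theorem lin4_inj (p q r s : ℝ) (h : p * s - q * r ≠ 0) : Function.Injective (lin4 p q r s) := by
  rw [← LinearMap.ker_eq_bot, LinearMap.ker_eq_bot']
  intro a ha
  rw [lin4_apply] at ha
  have h1 : p * a.1 + q * a.2 = 0 := congrArg Prod.fst ha
  have h2 : r * a.1 + s * a.2 = 0 := congrArg Prod.snd ha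
  have e1 : (p * s - q * r) * a.1 = 0 := by linear_combination s * h1 - q * h2
  have e2 : (p * s - q * r) * a.2 = 0 := by linear_combination (-r) * h1 + p * h2
  rw [mul_eq_zero] at e1 e2
  rcases e1 with e1 | e1
  · exact absurd e1 h
  rcases e2 with e2 | e2
  · exact absurd e2 h
  exact Prod.ext e1 e2

theorem xs_lin4 {V : Type} (f : V → ℝ × ℝ) (u : V) (p q r s : ℝ) (v : {v : V // v ≠ u}) :
    xs (fun v => lin4 p q r s (f v)) u v =
      (p * ((f v.1).1 - (f u).1) + q * ((f v.1).2 - (f u).2)) /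
        (r * ((f v.1).1 - (f u).1) + s * ((f v.1).2 - (f u).2)) := by
  unfold xs
  simp only [lin4_apply]
  congr 1 <;> ring

theorem baseA {V : Type} [Fintype V] (G : SimpleGraph V) (f : V → ℝ × ℝ)
    (h : IsStraight G f) (u z : V) (hzu : z ≠ u)
    (hpos : ∀ v, v ≠ u → v ≠ z → 0 < crs (f z - f u) (f v - f u)) (col : V → Bool)
    (hcol : BipZ u z u col G.edgeSet) (p : ℝ[X]) (hp : IsChrom G p) (q : ℝ) (hq : 4 ≤ q) :
    0 < p.eval q := by
  have hinj := h.1
  set a1 := (f z).1 - (f u).1 with ha1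
  set a2 := (f z).2 - (f u).2 with ha2
  have hcr : ∀ v, crs (f z - f u) (f v - f u) =
      a1 * ((f v).2 - (f u).2) - a2 * ((f v).1 - (f u).1) := fun v => rfl
  have haa : 0 < a1 ^ 2 + a2 ^ 2 := by
    rcases lt_or_eq_of_le (show 0 ≤ a1 ^ 2 + a2 ^ 2 by positivity) with h1 | h1
    · exact h1
    · exfalso
      apply hzu
      apply hinj
      have e1 : a1 = 0 := by nlinarith [sq_nonneg a1, sq_nonneg a2]
      have e2 : a2 = 0 := by nlinarith [sq_nonneg a1, sq_nonneg a2]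
      exact Prod.ext (by linarith) (by linarith)
  obtain ⟨M, hM⟩ := straight_proc_bound (fun v : V =>
    -(a1 * ((f v).1 - (f u).1) + a2 * ((f v).2 - (f u).2)) /
      (a1 * ((f v).2 - (f u).2) - a2 * ((f v).1 - (f u).1)))
  have hY : ∀ v, v ≠ u → 0 < (-M * a2 + a1) * ((f v).1 - (f u).1) +
      (M * a1 + a2) * ((f v).2 - (f u).2) := by
    intro v hv
    by_cases hvz : v = z
    · subst hvz
      have : (-M * a2 + a1) * ((f v).1 - (f u).1) + (M * a1 + a2) * ((f v).2 - (f u).2) =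
          a1 ^ 2 + a2 ^ 2 := by
        rw [← ha1, ← ha2]
        ring
      rw [this]
      exact haa
    · have h1 := hpos v hv hvz
      rw [hcr] at h1
      have h2 := hM v
      rw [div_lt_iff₀ h1] at h2
      linarith
  have hs := Pool.Agent.TH592.BL.straight_linear h (lin4 (-a2) a1 (-M * a2 + a1) (M * a1 + a2))
    (lin4_inj _ _ _ _ (by
      have : -a2 * (M * a1 + a2) - a1 * (-M * a2 + a1) = -(a1 ^ 2 + a2 ^ 2) := by ring
      rw [this]
      exact (neg_lt_zero.2 haa).ne))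
  refine baseA0 G _ hs u z hzu ?_ ?_ col hcol p hp q hq
  · intro v hv
    have h1 := hY v hv
    rw [lin4_apply, lin4_apply]
    simp only
    linarith
  · intro v hv
    rw [xs_lin4, xs_lin4]
    have h1 := hpos v.1 v.2 hv
    rw [hcr] at h1
    have h2 : -a2 * ((f z).1 - (f u).1) + a1 * ((f z).2 - (f u).2) = 0 := by
      rw [← ha1, ← ha2]
      ring
    simp only
    rw [h2, zero_div]
    refine div_pos ?_ (hY v.1 v.2)
    linarith

theorem baseB {V : Type} [Fintype V] (G : SimpleGraph V) (f : V → ℝ × ℝ)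
    (h : IsStraight G f) (u z w : V) (hzu : z ≠ u) (hwu : w ≠ u) (hzw : z ≠ w)
    (hpos : ∀ v, v ≠ u → v ≠ z → 0 < crs (f z - f u) (f v - f u))
    (hneg : ∀ v, v ≠ u → v ≠ w → crs (f w - f u) (f v - f u) < 0) (col : V → Bool)
    (hcol : BipZ u z w col G.edgeSet) (p : ℝ[X]) (hp : IsChrom G p) (q : ℝ)
    (hq : 9 / 2 ≤ q) : 0 < p.eval q := by
  set a1 := (f z).1 - (f u).1 with ha1
  set a2 := (f z).2 - (f u).2 with ha2
  set b1 := (f w).1 - (f u).1 with hb1
  set b2 := (f w).2 - (f u).2 with hb2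
  have hcr : ∀ v, crs (f z - f u) (f v - f u) =
      a1 * ((f v).2 - (f u).2) - a2 * ((f v).1 - (f u).1) := fun v => rfl
  have hcr' : ∀ v, crs (f w - f u) (f v - f u) =
      b1 * ((f v).2 - (f u).2) - b2 * ((f v).1 - (f u).1) := fun v => rfl
  have hab : 0 < a1 * b2 - a2 * b1 := hpos w hwu hzw.symm
  have hz0 : a1 * ((f z).2 - (f u).2) - a2 * ((f z).1 - (f u).1) = 0 := by
    rw [← ha1, ← ha2]
    ring
  have hw0 : b1 * ((f w).2 - (f u).2) - b2 * ((f w).1 - (f u).1) = 0 := by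
    rw [← hb1, ← hb2]
    ring
  have hY : ∀ v, v ≠ u → 0 < (-a2 + b2) * ((f v).1 - (f u).1) +
      (a1 - b1) * ((f v).2 - (f u).2) := by
    intro v hv
    by_cases hvz : v = z
    · have h1 := hneg v hv (by rw [hvz]; exact hzw)
      rw [hcr'] at h1
      rw [hvz] at h1 ⊢
      linarith
    · by_cases hvw : v = w
      · have h1 := hpos v hv hvz
        rw [hcr] at h1
        rw [hvw] at h1 ⊢
        linarith
      · have h1 := hneg v hv hvw
        have h2 := hpos v hv hvz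
        rw [hcr] at h2
        rw [hcr'] at h1
        linarith
  have hs := Pool.Agent.TH592.BL.straight_linear h (lin4 (-a2) a1 (-a2 + b2) (a1 - b1))
    (lin4_inj _ _ _ _ (by
      have : -a2 * (a1 - b1) - a1 * (-a2 + b2) = -(a1 * b2 - a2 * b1) := by ring
      rw [this]
      exact (neg_lt_zero.2 hab).ne))
  refine baseB0 G _ hs u z w hzu hwu hzw ?_ ?_ ?_ col hcol p hp q hq
  · intro v hv
    have h1 := hY v hv
    rw [lin4_apply, lin4_apply]
    simp only
    linarith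
  · intro v hv
    rw [xs_lin4, xs_lin4]
    have h1 := hpos v.1 v.2 hv
    rw [hcr] at h1
    have h2 : -a2 * ((f z).1 - (f u).1) + a1 * ((f z).2 - (f u).2) = 0 := by
      linarith
    simp only
    rw [h2, zero_div]
    refine div_pos ?_ (hY v.1 v.2)
    linarith
  · intro v hv
    rw [xs_lin4, xs_lin4]
    have h1 := hneg v.1 v.2 hv
    rw [hcr'] at h1
    simp only
    rw [div_lt_div_iff₀ (hY v.1 v.2) (hY w hwu)]
    have h2 := hpos w hwu hzw.symm
    rw [hcr] at h2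
    set d1 := (f v.1).1 - (f u).1
    set d2 := (f v.1).2 - (f u).2
    rw [← hb1, ← hb2] at h2 ⊢
    have h3 := mul_pos h2 (neg_pos.2 h1)
    nlinarith [h3]

end Pool.Agent.H26.BL
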