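import Pool.Agent.H26.BL.Val

/-!
Words of sweeps with a base vertex `u` and a vertex `z` which is present from the beginning.
-/

set_option autoImplicit false
set_option linter.unusedVariables false

namespace Pool.Agent.H26.BL

open Pool.Agent.H207R2.BL Pool.Agent.H110R3.BP Pool.Agent.H110R3.BP2

/-! ### the pinned state in the colouring representation -/

/-- the pinned vector -/
def pin (n k : ℕ) (a y : Fin k) : Fn (Fin (n + 1)) (Fin k) := fun c =>
  if c (pt n 0) = a ∧ c (pt n 1) = y then 1 else 0

theorem pt_ne (n i j : ℕ) (hi : i ≤ n) (hj : j ≤ n) (h : i ≠ j) : pt n i ≠ pt n j :=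
  fun h' => h (pt_inj n i j hi hj h')

theorem pin_even (n k : ℕ) (a y : Fin k) (i : ℕ) (hi : 2 ≤ i) (hin : i ≤ n) :
    (PR n k).e (2 * i) (pin n k a y) = (k : ℝ) • pin n k a y := by
  rw [PR_even]
  funext c
  rw [Cop_apply, Pi.smul_apply, smul_eq_mul]
  have e : ∀ x, pin n k a y (Function.update c (pt n i) x) = pin n k a y c := by
    intro x
    unfold pin
    rw [Function.update_of_ne (pt_ne n 0 i (by omega) hin (by omega)),
      Function.update_of_ne (pt_ne n 1 i (by omega) hin (by omega))]
  simp [e]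

theorem pin_e1 (n k : ℕ) (a y : Fin k) :
    (PR n k).e 1 (pin n k a y) = (if y = a then (1 : ℝ) else 0) • pin n k a y := by
  have e0 : (PR n k).e 1 = Jop (pt n 0) (pt n 1) := PR_odd n k 0
  rw [e0]
  funext c
  rw [Jop_apply, Pi.smul_apply (ite _ _ _), smul_eq_mul]
  unfold pin
  by_cases h0 : c (pt n 0) = a
  · by_cases h1 : c (pt n 1) = y
    · by_cases h2 : y = a
      · rw [if_pos (by rw [h0, h1, h2]), if_pos h2, one_mul]
      · rw [if_neg (by rw [h0, h1]; exact fun h => h2 h.symm), if_neg h2, zero_mul]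
    · rw [if_neg (fun h => h1 h.2 : ¬ (c (pt n 0) = a ∧ c (pt n 1) = y)), mul_zero]
      split_ifs <;> rfl
  · rw [if_neg (fun h => h0 h.1 : ¬ (c (pt n 0) = a ∧ c (pt n 1) = y)), mul_zero]
    split_ifs <;> rfl

theorem pin_e2 (n k : ℕ) (hn : 1 ≤ n) (a y : Fin k) (c : Fin (n + 1) → Fin k)
    (h0 : c (pt n 0) = a) : (PR n k).e 2 (pin n k a y) c = 1 := by
  have e0 : (PR n k).e 2 = Cop (pt n 1) := PR_even n k 1
  rw [e0, Cop_apply, Finset.sum_eq_single y]
  · unfold pin
    rw [Function.update_self, Function.update_of_ne (pt_ne n 0 1 (by omega) hn (by omega)),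
      if_pos ⟨h0, rfl⟩]
  · intro x _ hx
    unfold pin
    rw [Function.update_self, if_neg]
    exact fun h => hx h.2
  · intro h
    exact absurd (Finset.mem_univ _) h

/-- the pinned state -/
noncomputable def cst (n k : ℕ) (hn : 1 ≤ n) (a x0 y : Fin k) :
    StP (PR n k) (if x0 = a then 1 else 0) (if y = a then 1 else 0)
      (if x0 = y then 1 else 0) where
  φ :=
    { toFun := fun x => ip (pin n k a y) (x (pin n k a x0))
      map_add' := by
        intro x y
        simp only [LinearMap.add_apply, ip, Pi.add_apply, mul_add, Finset.sum_add_distrib]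
      map_smul' := by
        intro r x
        simp only [LinearMap.smul_apply, ip_smul_right, RingHom.id_apply, smul_eq_mul] }
  left := by
    intro j h4 hj he x
    obtain ⟨i, rfl⟩ : ∃ i, j = 2 * i := by
      obtain ⟨r, hr⟩ := he
      exact ⟨r, by omega⟩
    show ip (pin n k a y) (((PR n k).e (2 * i) * x) (pin n k a x0)) =
      (k : ℝ) * ip (pin n k a y) (x (pin n k a x0))
    rw [Module.End.mul_apply, show ip (pin n k a y) ((PR n k).e (2 * i) (x (pin n k a x0))) =
      ip ((PR n k).e (2 * i) (pin n k a y)) (x (pin n k a x0)) from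
        potts_symm n (pt n) (pt_inj n) _ _ _ _ _, pin_even n k a y i (by omega) (by omega),
      ip_smul_left]
  right := by
    intro j h4 hj he x
    obtain ⟨i, rfl⟩ : ∃ i, j = 2 * i := by
      obtain ⟨r, hr⟩ := he
      exact ⟨r, by omega⟩
    show ip (pin n k a y) ((x * (PR n k).e (2 * i)) (pin n k a x0)) =
      (k : ℝ) * ip (pin n k a y) (x (pin n k a x0))
    rw [Module.End.mul_apply, pin_even n k a x0 i (by omega) (by omega), map_smul, ip_smul_right]
  left1 := by
    intro x
    show ip (pin n k a y) (((PR n k).e 1 * x) (pin n k a x0)) =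
      (if y = a then 1 else 0) * ip (pin n k a y) (x (pin n k a x0))
    rw [Module.End.mul_apply, show ip (pin n k a y) ((PR n k).e 1 (x (pin n k a x0))) =
      ip ((PR n k).e 1 (pin n k a y)) (x (pin n k a x0)) from
        potts_symm n (pt n) (pt_inj n) _ _ _ _ _, pin_e1, ip_smul_left]
  right1 := by
    intro x
    show ip (pin n k a y) ((x * (PR n k).e 1) (pin n k a x0)) =
      (if x0 = a then 1 else 0) * ip (pin n k a y) (x (pin n k a x0))
    rw [Module.End.mul_apply, pin_e1, map_smul, ip_smul_right]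
  one := by
    show ip (pin n k a y) ((1 : Module.End ℝ (Fn (Fin (n + 1)) (Fin k))) (pin n k a x0)) =
      (if x0 = y then 1 else 0) * ip (pin n k a y) ((PR n k).e 2 (pin n k a x0))
    rw [Module.End.one_apply]
    unfold ip
    rw [Finset.mul_sum]
    refine Finset.sum_congr rfl fun c _ => ?_
    by_cases hc : c (pt n 0) = a ∧ c (pt n 1) = y
    · rw [pin_e2 n k hn a x0 c hc.1]
      have h1 : pin n k a y c = 1 := by
        unfold pin
        rw [if_pos hc]
      have h2 : pin n k a x0 c = if x0 = y then 1 else 0 := by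
        unfold pin
        by_cases h : x0 = y
        · rw [if_pos h, if_pos ⟨hc.1, by rw [hc.2, h]⟩]
        · rw [if_neg h, if_neg]
          intro h3
          exact h (by rw [← h3.2, hc.2])
      rw [h1, h2]
      ring
    · have h1 : pin n k a y c = 0 := by
        unfold pin
        rw [if_neg hc]
      rw [h1]
      ring
  rel := by
    by_cases h1 : y = a
    · by_cases h2 : x0 = y
      · have h3 : x0 = a := h2.trans h1
        rw [if_pos h1, if_pos h2, if_pos h3]
      · have h3 : ¬ x0 = a := fun h => h2 (h.trans h1.symm)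
        rw [if_pos h1, if_neg h2, if_neg h3]
        norm_num
    · rw [if_neg h1, zero_mul, mul_zero]

theorem cst_pos (n k : ℕ) (hn : 1 ≤ n) (a x0 y : Fin k) :
    0 < (cst n k hn a x0 y).φ ((PR n k).e 2) := by
  show 0 < ip (pin n k a y) ((PR n k).e 2 (pin n k a x0))
  unfold ip
  have key : ∀ c, pin n k a y c * (PR n k).e 2 (pin n k a x0) c = pin n k a y c := by
    intro c
    by_cases hc : c (pt n 0) = a ∧ c (pt n 1) = y
    · rw [pin_e2 n k hn a x0 c hc.1, mul_one]
    · have h1 : pin n k a y c = 0 := by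
        unfold pin
        rw [if_neg hc]
      rw [h1, zero_mul]
  simp only [key]
  refine Finset.sum_pos' (fun c _ => ?_) ⟨fun i => if i = pt n 0 then a else y,
    Finset.mem_univ _, ?_⟩
  · unfold pin
    split_ifs <;> norm_num
  · unfold pin
    rw [if_pos]
    · exact one_pos
    · refine ⟨if_pos rfl, ?_⟩
      exact if_neg (pt_ne n 1 0 hn (by omega) (by omega))

/-- the value of the pinned state when the function depends only on the pinned columns -/
theorem cst_val (n k : ℕ) (hn : 1 ≤ n) (a x0 y : Fin k)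
    (x : Module.End ℝ (Fn (Fin (n + 1)) (Fin k))) (v : ℝ)
    (h : ∀ c, c (pt n 0) = a → c (pt n 1) = y → x (pin n k a x0) c = v) :
    (cst n k hn a x0 y).φ x = v * (cst n k hn a x0 y).φ ((PR n k).e 2) := by
  show ip (pin n k a y) (x (pin n k a x0)) =
    v * ip (pin n k a y) ((PR n k).e 2 (pin n k a x0))
  unfold ip
  rw [Finset.mul_sum]
  refine Finset.sum_congr rfl fun c _ => ?_
  by_cases hc : c (pt n 0) = a ∧ c (pt n 1) = y
  · rw [pin_e2 n k hn a x0 c hc.1, h c hc.1 hc.2]
    ring
  · have h1 : pin n k a y c = 0 := by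
      unfold pin
      rw [if_neg hc]
    rw [h1]
    ring

/-! ### moving strands -/

theorem ok_shr (d : ℕ) : ∀ (p : ℕ) (w : List Let) (κ : ℕ → St), 1 ≤ p → OKP w κ →
    (∀ i, p ≤ i → i < p + d → κ i ≠ St.N) → κ (p + d) ≠ St.W →
    ∃ κ' : ℕ → St, OKP (shrW p d ++ w) κ' ∧ (∀ i, i < p → κ' i = κ i) ∧
      κ' p ≠ St.W ∧
      (∀ i, p ≤ i → i < p + d → κ' (i + 1) = κ i) ∧ (∀ i, p + d < i → κ' i = κ i) := by
  induction d with
  | zero =>
    intro p w κ _ h _ hW
    exact ⟨κ, h, fun i _ => rfl, hW, fun i h1 h2 => absurd h2 (by omega), fun i _ => rfl⟩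
  | succ d ih =>
    intro p w κ hp h hN hW
    obtain ⟨κ1, h1, h2, h3, h4, h5⟩ := ih (p + 1) w κ (by omega) h
      (fun i hi1 hi2 => hN i (by omega) (by omega))
      (by rw [show p + 1 + d = p + (d + 1) by ring]; exact hW)
    have e1 := OKP.C (p + 1) St.N _ _ (by omega) h1 (by decide) (fun hw => absurd hw h3)
      (fun hw => by cases hw)
    have hb : κ p ≠ St.N := hN p le_rfl (by omega)
    have e2 := OKP.J p (κ p) _ _ hp e1 hb
      (Or.inl (by rw [Function.update_of_ne (by omega), h2 p (by omega)]))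
      (Or.inr (by rw [Function.update_self]))
      (Or.inl (by rw [Function.update_of_ne (by omega), h2 p (by omega)]))
    have e3 := OKP.C p St.N _ _ hp e2 (by decide) (fun hw => ⟨p + 1, by omega, by
      rw [Function.update_self]
      rw [Function.update_of_ne (by omega), Function.update_self] at hw
      exact hw⟩) (fun hw => by cases hw)
    refine ⟨_, e3, fun i hi => ?_, ?_, fun i hi hi' => ?_, fun i hi => ?_⟩
    · rw [Function.update_of_ne (by omega), Function.update_of_ne (by omega),
        Function.update_of_ne (by omega), Function.update_of_ne (by omega), h2 i (by omega)]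
    · rw [Function.update_self]; decide
    · rw [Function.update_of_ne (by omega)]
      by_cases hip : i = p
      · subst hip
        rw [Function.update_self]
      · rw [Function.update_of_ne (by omega), Function.update_of_ne (by omega),
          Function.update_of_ne (by omega), h4 i (by omega) (by omega)]
    · rw [Function.update_of_ne (by omega), Function.update_of_ne (by omega),
        Function.update_of_ne (by omega), Function.update_of_ne (by omega), h5 i (by omega)]

theorem ok_ins (w : List Let) (κ : ℕ → St) (h : OKP w κ) (p d : ℕ) (hp : 1 ≤ p) (b : St)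
    (hN : ∀ i, p ≤ i → i < p + d → κ i ≠ St.N) (hW : κ (p + d) ≠ St.W) (hb : b ≠ St.Z)
    (hbW : b = St.W → ∀ j, κ j ≠ St.W) :
    ∃ κ' : ℕ → St, OKP (insW p d ++ w) κ' ∧ κ' p = b ∧ (∀ i, i < p → κ' i = κ i) ∧
      (∀ i, p ≤ i → i < p + d → κ' (i + 1) = κ i) ∧ (∀ i, p + d < i → κ' i = κ i) := by
  obtain ⟨κ1, h1, h2, h3, h4, h5⟩ := ok_shr d p w κ hp h hN hW
  refine ⟨_, OKP.C p b _ _ hp h1 hb (fun hw => absurd hw h3) ?_, Function.update_self _ _ _,
    fun i hi => ?_, fun i hi hi' => ?_, fun i hi => ?_⟩
  · intro hbw j hj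
    rcases lt_trichotomy j p with h6 | h6 | h6
    · rw [h2 j h6]; exact hbW hbw j
    · exact absurd h6 hj
    · by_cases h7 : p + d < j
      · rw [h5 j h7]; exact hbW hbw j
      · obtain ⟨i, rfl⟩ : ∃ i, j = i + 1 := ⟨j - 1, by omega⟩
        rw [h4 i (by omega) (by omega)]
        exact hbW hbw i
  · rw [Function.update_of_ne (by omega), h2 i hi]
  · rw [Function.update_of_ne (by omega), h4 i hi hi']
  · rw [Function.update_of_ne (by omega), h5 i hi]

theorem ok_shl (d : ℕ) : ∀ (p : ℕ) (w : List Let) (κ : ℕ → St), 1 ≤ p → OKP w κ →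
    κ p = St.N → (∀ i, p < i → i ≤ p + d → κ i ≠ St.N) →
    ∃ κ' : ℕ → St, OKP (shlW p d ++ w) κ' ∧ (∀ i, i < p → κ' i = κ i) ∧
      (∀ i, p ≤ i → i < p + d → κ' i = κ (i + 1)) ∧ κ' (p + d) = St.N ∧
      (∀ i, p + d < i → κ' i = κ i) := by
  induction d with
  | zero =>
    intro p w κ _ h hN _
    exact ⟨κ, h, fun i _ => rfl, fun i h1 h2 => absurd h2 (by omega), hN, fun i _ => rfl⟩
  | succ d ih =>
    intro p w κ hp h hp0 hN
    obtain ⟨κ1, h1, h2, h3, h4, h5⟩ := ih p w κ hp h hp0 (fun i hi1 hi2 => hN i hi1 (by omega))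
    have e1 := OKP.C (p + d) St.N _ _ (by omega) h1 (by decide)
      (fun hw => by rw [h4] at hw; cases hw) (fun hw => by cases hw)
    have hb : κ (p + d + 1) ≠ St.N := hN (p + d + 1) (by omega) (by omega)
    have g1 : Function.update κ1 (p + d) St.N (p + d + 1) = κ (p + d + 1) := by
      rw [Function.update_of_ne (by omega), h5 _ (by omega)]
    have e2 := OKP.J (p + d) (κ (p + d + 1)) _ _ (by omega) e1 hb
      (Or.inr (by rw [Function.update_self])) (Or.inl g1) (Or.inr g1)
    have e3 := OKP.C (p + d + 1) St.N _ _ (by omega) e2 (by decide) (fun hw => ⟨p + d, by omega, by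
      rw [Function.update_of_ne (by omega), Function.update_self]
      rw [Function.update_self] at hw
      exact hw⟩) (fun hw => by cases hw)
    refine ⟨_, e3, fun i hi => ?_, fun i hi hi' => ?_, ?_, fun i hi => ?_⟩
    · rw [Function.update_of_ne (by omega), Function.update_of_ne (by omega),
        Function.update_of_ne (by omega), Function.update_of_ne (by omega), h2 i hi]
    · rw [Function.update_of_ne (by omega), Function.update_of_ne (by omega)]
      by_cases hip : i = p + d
      · subst hip
        rw [Function.update_self]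
      · rw [Function.update_of_ne hip, Function.update_of_ne (by omega), h3 i hi (by omega)]
    · exact Function.update_self _ _ _
    · rw [Function.update_of_ne (by omega), Function.update_of_ne (by omega),
        Function.update_of_ne (by omega), Function.update_of_ne (by omega), h5 i (by omega)]

theorem ok_del (w : List Let) (κ : ℕ → St) (h : OKP w κ) (p d : ℕ) (hp : 1 ≤ p)
    (hW : κ p ≠ St.W) (hN : ∀ i, p < i → i ≤ p + d → κ i ≠ St.N) :
    ∃ κ' : ℕ → St, OKP (delW p d ++ w) κ' ∧ (∀ i, i < p → κ' i = κ i) ∧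
      (∀ i, p ≤ i → i < p + d → κ' i = κ (i + 1)) ∧ κ' (p + d) = St.N ∧
      (∀ i, p + d < i → κ' i = κ i) := by
  have e := OKP.C p St.N w κ hp h (by decide) (fun hw => absurd hw hW) (fun hw => by cases hw)
  obtain ⟨κ1, h1, h2, h3, h4, h5⟩ := ok_shl d p (Let.C p :: w) _ hp e (Function.update_self _ _ _)
    (fun i hi1 hi2 => by rw [Function.update_of_ne (by omega)]; exact hN i hi1 hi2)
  refine ⟨κ1, ?_, fun i hi => ?_, fun i hi hi' => ?_, h4, fun i hi => ?_⟩
  · unfold delW
    rw [List.append_assoc]
    exact h1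
  · rw [h2 i hi, Function.update_of_ne (by omega)]
  · rw [h3 i hi hi', Function.update_of_ne (by omega)]
  · rw [h5 i hi, Function.update_of_ne (by omega)]

end Pool.Agent.H26.BL
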