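import Pool.Agent.H26.BL.Good

/-!
Words of sweeps with a base vertex `u` and a vertex `z` which is present from the beginning.
-/

set_option autoImplicit false
set_option linter.unusedVariables false

namespace Pool.Agent.H26.BL

open Pool.Agent.H207R2.BL Pool.Agent.H110R3.BP Pool.Agent.H110R3.BP2

/-- the word of a sweep -/
def GoodP {V : Type} [Fintype V] (u z : V) (stat : V → St) (L : List V) (E : Set (Sym2 V)) :
    Prop :=
  ∃ (w : List Let) (κ : ℕ → St) (N a b : ℕ), OKP w κ ∧
    (∀ i (hi : i < L.length), κ (i + 1) = stat L[i]) ∧ (∀ i, L.length < i → κ i ≠ St.W) ∧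
    κ 0 ≠ St.W ∧ (∀ l ∈ w, InR1 N l) ∧ L.length + 1 ≤ N ∧
    ∀ n, N ≤ n → ∀ k : ℕ, 1 ≤ k → ∀ (x y : Fin k) (c : Fin (n + 1) → Fin k),
      (k : ℝ) ^ a * (T (PR n k) w (pin n k x y)) c =
        (k : ℝ) ^ b * cnt k (u :: z :: u :: L) E (x :: y :: cl (fun i => i) (L.length + 1) c)

open Classical in
theorem count_two {V : Type} [Fintype V] (u z : V) (huz : z ≠ u) (k : ℕ) (x y : Fin k) :
    ∑ g : V → Fin k, (if g u = x ∧ g z = y then (1 : ℝ) else 0) =
      (k : ℝ) ^ (Fintype.card V - 2) := by
  have h1 : ∀ g : V → Fin k, (if g u = x ∧ g z = y then (1 : ℝ) else 0) =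
      ∏ v, (if v = u then (if g v = x then (1 : ℝ) else 0) else
        if v = z then (if g v = y then (1 : ℝ) else 0) else 1) := by
    intro g
    have e : ∀ v, (if v = u then (if g v = x then (1 : ℝ) else 0) else
        if v = z then (if g v = y then (1 : ℝ) else 0) else 1) =
        (if v = u then (if g v = x then (1 : ℝ) else 0) else 1) *
          (if v = z then (if g v = y then (1 : ℝ) else 0) else 1) := by
      intro v
      by_cases h1 : v = u
      · have h2 : ¬ v = z := fun h => huz (h.symm.trans h1)
        simp [h1, huz.symm]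
      · simp [h1]
    simp_rw [e]
    rw [Finset.prod_mul_distrib, Finset.prod_ite_eq', Finset.prod_ite_eq']
    simp only [Finset.mem_univ, if_true]
    by_cases h1 : g u = x <;> by_cases h2 : g z = y <;> simp [h1, h2]
  simp_rw [h1]
  have h3 := Finset.prod_univ_sum (fun _ : V => (Finset.univ : Finset (Fin k)))
    (fun v j => if v = u then (if j = x then (1 : ℝ) else 0) else
        if v = z then (if j = y then (1 : ℝ) else 0) else 1)
  rw [Fintype.piFinset_univ] at h3
  rw [← h3]
  have h2 : ∀ v : V, ∑ j : Fin k, (if v = u then (if j = x then (1 : ℝ) else 0) else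
        if v = z then (if j = y then (1 : ℝ) else 0) else 1) =
      if v ∈ ({u, z} : Finset V) then 1 else (k : ℝ) := by
    intro v
    by_cases h1 : v = u
    · simp [h1]
    · by_cases h2 : v = z
      · simp [h2, huz]
      · simp [h1, h2]
  simp_rw [h2]
  rw [Finset.prod_ite]
  simp only [Finset.prod_const_one, one_mul, Finset.prod_const]
  congr 1
  have h4 : (Finset.univ.filter fun v => v ∉ ({u, z} : Finset V)) = ({u, z} : Finset V)ᶜ := by
    ext v
    simp
  rw [h4, Finset.card_compl, Finset.card_pair huz.symm]

theorem goodP_start {V : Type} [Fintype V] (u z : V) (huz : z ≠ u) (stat : V → St)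
    (hz : stat z = St.Z) : GoodP u z stat [z] ∅ := by
  classical
  refine ⟨[], fun i => if i = 1 then St.Z else St.N, 2, Fintype.card V - 2, 0, OKP.nil, ?_, ?_, ?_,
    ?_, by simp, ?_⟩
  · intro i hi
    have : i = 0 := by
      simp at hi
      exact hi
    subst this
    simp [hz]
  · intro i hi
    simp at hi
    show (if i = 1 then St.Z else St.N) ≠ St.W
    rw [if_neg (by omega)]
    decide
  · show (if 0 = 1 then St.Z else St.N) ≠ St.W
    decide
  · intro l hl
    simp at hl
  · intro n _ k _ x y c
    have hcl : cl (fun i => i) (([z] : List V).length + 1) c = [c (pt n 0), c (pt n 1)] := by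
      simp [cl, List.range_succ]
    rw [hcl, pow_zero, one_mul, ← count_two u z huz k x y]
    have e : T (PR n k) [] (pin n k x y) = pin n k x y := by simp [T]
    rw [e]
    unfold cnt pin
    rw [Finset.sum_mul]
    refine Finset.sum_congr rfl (fun g _ => ?_)
    by_cases h1 : g u = x ∧ g z = y
    · rw [if_pos h1, one_mul]
      obtain ⟨h2, h3⟩ := h1
      have hiff : (c (pt n 0) = x ∧ c (pt n 1) = y) ↔
          ((∀ a b, s(a, b) ∈ (∅ : Set (Sym2 V)) → g a ≠ g b) ∧
            List.map g [u, z, u, z] = [x, y, c (pt n 0), c (pt n 1)]) := by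
        simp [h2, h3, eq_comm]
      by_cases hh : c (pt n 0) = x ∧ c (pt n 1) = y
      · rw [if_pos hh, if_pos (hiff.1 hh)]
      · rw [if_neg hh, if_neg (fun h4 => hh (hiff.2 h4))]
    · rw [if_neg h1, zero_mul, if_neg]
      rintro ⟨-, h2⟩
      apply h1
      simp only [List.map_cons, List.map_nil, List.cons.injEq] at h2
      exact ⟨h2.1, h2.2.1⟩

theorem inr_succ {n : ℕ} {l : Let} (h : InR1 n l) : InR1 (n + 1) l := by
  cases l <;> simp only [InR1] at h ⊢ <;> omega

theorem goodP_new {V : Type} [Fintype V] (u z : V) (stat : V → St) (hsN : ∀ v, stat v ≠ St.N)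
    (L1 L2 : List V)
    (E : Set (Sym2 V)) (v : V) (huv : v ≠ u) (hzv : v ≠ z) (hv1 : v ∉ L1) (hv2 : v ∉ L2)
    (hsZ : stat v ≠ St.Z) (hsW : stat v = St.W → ∀ a ∈ L1 ++ L2, stat a ≠ St.W)
    (hE : ∀ a, s(a, v) ∉ E) (h : GoodP u z stat (L1 ++ L2) E) :
    GoodP u z stat (L1 ++ v :: L2) E := by
  obtain ⟨w, κ, N, a, b, hok, hcol, hjunk, h00, hin, hlen, heq⟩ := h
  have hlL : (L1 ++ L2).length = L1.length + L2.length := List.length_append
  obtain ⟨κ', hok', hb', hlt', hge', hout'⟩ := ok_ins w κ hok (L1.length + 1) L2.length (by omega)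
    (stat v) (fun i hi1 hi2 => by
      obtain ⟨j, rfl⟩ : ∃ j, i = j + 1 := ⟨i - 1, by omega⟩
      rw [hcol j (by rw [hlL]; omega)]
      exact hsN _) (hjunk _ (by rw [hlL]; omega)) hsZ (fun hw j => by
      rcases Nat.eq_zero_or_pos j with h0 | hpos
      · rw [h0]; exact h00
      · by_cases hj : (L1 ++ L2).length < j
        · exact hjunk j hj
        · obtain ⟨i, rfl⟩ : ∃ i, j = i + 1 := ⟨j - 1, by omega⟩
          rw [hcol i (by omega)]
          exact hsW hw _ (List.getElem_mem _))
  have hlen' : L1.length + L2.length + 1 ≤ N := by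
    rw [List.length_append] at hlen
    exact hlen
  refine ⟨insW (L1.length + 1) L2.length ++ w, κ', N + 1, a, b + L2.length + 2, hok',
    ?_, ?_, ?_, ?_, ?_, ?_⟩
  · intro i hi
    rw [List.length_append, List.length_cons] at hi
    rcases lt_trichotomy i L1.length with h1 | h1 | h1
    · rw [hlt' (i + 1) (by omega), hcol i (by rw [List.length_append]; omega),
        List.getElem_append_left h1, List.getElem_append_left h1]
    · subst h1
      rw [hb']
      simp
    · obtain ⟨j, rfl⟩ : ∃ j, i = j + 1 := ⟨i - 1, by omega⟩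
      have h2 : L1.length ≤ j := by omega
      have h3 : j < L1.length + L2.length := by omega
      rw [hge' (j + 1) (by omega) (by omega), hcol j (by rw [List.length_append]; omega),
        List.getElem_append_right h2, List.getElem_append_right (by omega)]
      obtain ⟨m, rfl⟩ : ∃ m, j = L1.length + m := ⟨j - L1.length, by omega⟩
      have h4 : L1.length + m + 1 - L1.length = m + 1 := by omega
      have h5 : L1.length + m - L1.length = m := by omega
      simp only [h4, h5, List.getElem_cons_succ]
  · intro i hi
    rw [List.length_append, List.length_cons] at hi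
    rw [hout' i (by omega)]
    exact hjunk i (by rw [hlL]; omega)
  · rw [hlt' 0 (by omega)]
    exact h00
  · intro l hl
    rw [List.mem_append] at hl
    rcases hl with hl | hl
    · exact inr_ins1 (N + 1) (L1.length + 1) L2.length (by omega) (by omega) l hl
    · exact inr_succ (hin l hl)
  · rw [List.length_append, List.length_cons]
    omega
  · intro n hn k hk x y c
    have hk0 : (k : ℝ) ≠ 0 := by
      have : 0 < k := hk
      positivity
    have hka : (k : ℝ) ^ a ≠ 0 := pow_ne_zero _ hk0
    have hF : (T (PR n k) w (pin n k x y)) = fun c : Fin (n + 1) → Fin k =>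
        (fun l => (k : ℝ) ^ b / (k : ℝ) ^ a * cnt k ((u :: z :: u :: L1) ++ L2) E (x :: y :: l))
          (cl (fun i => i) (L1.length + 1 + L2.length) c) := by
      funext c
      have := heq n (by omega) k hk x y c
      rw [List.length_append, show L1.length + L2.length + 1 = L1.length + 1 + L2.length by omega]
        at this
      simp only [List.cons_append]
      field_simp
      linarith
    have hins := ins_act n k (L1.length + 1) L2.length (by omega)
      (fun l => (k : ℝ) ^ b / (k : ℝ) ^ a * cnt k ((u :: z :: u :: L1) ++ L2) E (x :: y :: l)) c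
    rw [T_append, Module.End.mul_apply, hF]
    refine (congrArg (fun r => (k : ℝ) ^ a * r) hins).trans ?_
    have hv1' : v ∉ u :: z :: u :: L1 := by
      simp only [List.mem_cons, not_or]
      exact ⟨huv, hzv, huv, hv1⟩
    rw [good_new_cl n k (L1.length + 1) L2.length c, List.length_append, List.length_cons,
      show L1.length + (L2.length + 1) + 1 = L1.length + 1 + (L2.length + 1) by omega,
      good_new_cl' n k (L1.length + 1) L2.length c]
    have hcn := cnt_new k (u :: z :: u :: L1) L2 E v hv1' hv2 hE
      (x :: y :: cl (fun i => i) (L1.length + 1) c) (cl (fun i => L1.length + 1 + 1 + i) L2.length c)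
      (c (pt n (L1.length + 1))) (by simp [cl])
    simp only [List.cons_append] at hcn ⊢
    rw [← hcn]
    field_simp
    ring

theorem goodP_dup {V : Type} [Fintype V] (u z : V) (stat : V → St) (hsN : ∀ v, stat v ≠ St.N)
    (L1 L2 : List V)
    (E : Set (Sym2 V)) (v : V) (h : GoodP u z stat (L1 ++ v :: L2) E) :
    GoodP u z stat (L1 ++ v :: v :: L2) E := by
  obtain ⟨w, κ, N, a, b, hok, hκ, hjunk, h00, hr, hN, hT⟩ := h
  have hlen : (L1 ++ v :: L2).length = L1.length + 1 + L2.length := by simp; omega
  have hlen' : (L1 ++ v :: v :: L2).length = L1.length + (L2.length + 1 + 1) := by simp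
  have hp : L1.length < (L1 ++ v :: L2).length := by rw [hlen]; omega
  have e0 : κ (L1.length + 1) = stat v := by
    rw [hκ _ hp]; congr 1; simp
  obtain ⟨κ', hok', hb', hlow, hhigh, hout⟩ := ok_ins w κ hok (L1.length + 2) L2.length (by omega)
    St.N (fun i hi1 hi2 => by
      obtain ⟨j, rfl⟩ : ∃ j, i = j + 1 := ⟨i - 1, by omega⟩
      rw [hκ j (by rw [hlen]; omega)]
      exact hsN _) (hjunk _ (by rw [hlen]; omega)) (by decide) (fun hw => by cases hw)
  have e1 : κ' (L1.length + 1) = stat v := by rw [hlow _ (by omega), e0]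
  have hokJ := OKP.J (L1.length + 1) (stat v) _ _ (by omega) hok' (hsN v) (Or.inl e1)
    (Or.inr hb') (Or.inl e1)
  have kk : ∀ i, i ≠ L1.length + 2 → Function.update (Function.update κ' (L1.length + 1) (stat v))
      (L1.length + 1 + 1) (stat v) i = κ' i := by
    intro i hi
    rw [Function.update_of_ne (by omega)]
    by_cases h1 : i = L1.length + 1
    · rw [h1, Function.update_self, e1]
    · rw [Function.update_of_ne h1]
  have kk2 : Function.update (Function.update κ' (L1.length + 1) (stat v))
      (L1.length + 1 + 1) (stat v) (L1.length + 2) = stat v := Function.update_self _ _ _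
  refine ⟨Let.J (L1.length + 1) :: (insW (L1.length + 2) L2.length ++ w), _, N + 1, a,
    b + (L2.length + 1), hokJ, ?_, ?_, ?_, ?_, ?_, ?_⟩
  · intro i hi
    rcases lt_trichotomy i (L1.length + 1) with h1 | h1 | h1
    · rw [kk (i + 1) (by omega), hlow (i + 1) (by omega), hκ i (by rw [hlen]; omega)]
      congr 1
      rcases Nat.lt_or_ge i L1.length with h2 | h2
      · rw [List.getElem_append_left h2, List.getElem_append_left h2]
      · have h3 : i = L1.length := by omega
        subst h3
        simp
    · subst h1
      rw [kk2]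
      congr 1
      rw [List.getElem_append_right (by omega)]
      simp
    · obtain ⟨j, rfl⟩ : ∃ j, i = j + 1 := ⟨i - 1, by omega⟩
      rw [hlen'] at hi
      rw [kk (j + 1 + 1) (by omega), hhigh (j + 1) (by omega) (by omega), hκ j (by rw [hlen]; omega)]
      congr 1
      rw [List.getElem_append_right (by omega), List.getElem_append_right (by omega)]
      obtain ⟨t, rfl⟩ : ∃ t, j = L1.length + 1 + t := ⟨j - (L1.length + 1), by omega⟩
      have e1 : L1.length + 1 + t - L1.length = t + 1 := by omega
      have e2 : L1.length + 1 + t + 1 - L1.length = t + 1 + 1 := by omega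
      simp only [e1, e2, List.getElem_cons_succ]
  · intro i hi
    rw [hlen'] at hi
    rw [kk i (by omega), hout i (by omega)]
    exact hjunk i (by rw [hlen]; omega)
  · rw [kk 0 (by omega), hlow 0 (by omega)]
    exact h00
  · intro l hl
    rcases List.mem_cons.1 hl with rfl | hl
    · show 1 ≤ L1.length + 1 ∧ L1.length + 1 < N + 1
      omega
    · rcases List.mem_append.1 hl with hl | hl
      · exact inr_ins1 (N + 1) (L1.length + 2) L2.length (by omega) (by omega) l hl
      · exact inr_succ (hr l hl)
  · rw [hlen']
    omega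
  · intro n hn k hk x y c
    have hk0 : (k : ℝ) ≠ 0 := by
      have : (1 : ℝ) ≤ k := by exact_mod_cast hk
      positivity
    have hfun : (T (PR n k) w (pin n k x y)) = fun c : Fin (n + 1) → Fin k =>
        (fun l : List (Fin k) => (k : ℝ) ^ b / (k : ℝ) ^ a *
          cnt k (u :: z :: u :: (L1 ++ v :: L2)) E (x :: y :: l))
          (cl (fun i => i) (L1.length + 2 + L2.length) c) := by
      funext c
      have h1 := hT n (by omega) k hk x y c
      rw [hlen, show L1.length + 1 + L2.length + 1 = L1.length + 2 + L2.length by omega] at h1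
      simp only
      have ha : (k : ℝ) ^ a ≠ 0 := pow_ne_zero _ hk0
      field_simp
      linarith
    have hins := ins_act n k (L1.length + 2) L2.length (by omega)
      (fun l : List (Fin k) => (k : ℝ) ^ b / (k : ℝ) ^ a *
        cnt k (u :: z :: u :: (L1 ++ v :: L2)) E (x :: y :: l)) c
    have key : (T (PR n k) (Let.J (L1.length + 1) :: (insW (L1.length + 2) L2.length ++ w))
          (pin n k x y)) c =
        if c (pt n (L1.length + 1)) = c (pt n (L1.length + 2)) then
          (T (PR n k) (insW (L1.length + 2) L2.length) (T (PR n k) w (pin n k x y))) c else 0 := by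
      have : T (PR n k) (Let.J (L1.length + 1) :: (insW (L1.length + 2) L2.length ++ w)) =
          (PR n k).e (2 * (L1.length + 1) + 1) *
            (T (PR n k) (insW (L1.length + 2) L2.length) * T (PR n k) w) := by
        rw [← T_append]
        simp [T, ev]
      rw [this, PR_odd, Module.End.mul_apply, Module.End.mul_apply, Jop_apply]
    have hcl : cl (fun i => i) ((L1 ++ v :: v :: L2).length + 1) c =
        cl (fun i => i) (L1.length + 1) c ++ c (pt n (L1.length + 1)) ::
          c (pt n (L1.length + 2)) ::
          cl (fun i => L1.length + 1 + (i + 1 + 1)) L2.length c := by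
      rw [hlen', show L1.length + (L2.length + 1 + 1) + 1 = L1.length + 1 + (L2.length + 1 + 1)
        by omega, U33_cl_add, U33_cl_succ (fun i => L1.length + 1 + i) (L2.length + 1) c,
        U33_cl_succ (fun i => L1.length + 1 + (i + 1)) L2.length c]
    have hup : cl (up (L1.length + 2)) (L1.length + 2 + L2.length) c =
        cl (fun i => i) (L1.length + 1) c ++ c (pt n (L1.length + 1)) ::
          cl (fun i => L1.length + 1 + (i + 1 + 1)) L2.length c := by
      have e3 : L1.length + 2 + L2.length = L1.length + 1 + (L2.length + 1) := by omega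
      rw [e3, U33_cl_add,
        U33_cl_succ (fun i => up (L1.length + 2) (L1.length + 1 + i)) L2.length c]
      have e4 : cl (up (L1.length + 2)) (L1.length + 1) c = cl (fun i => i) (L1.length + 1) c := by
        apply U33_cl_congr
        intro i hi
        simp only [up]
        rw [if_pos (by omega)]
      have e5 : up (L1.length + 2) (L1.length + 1 + 0) = L1.length + 1 := by
        simp [up]
      have e6 : cl (fun i => up (L1.length + 2) (L1.length + 1 + (i + 1))) L2.length c =
          cl (fun i => L1.length + 1 + (i + 1 + 1)) L2.length c := by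
        apply U33_cl_congr
        intro i hi
        simp only [up]
        rw [if_neg (by omega)]
        omega
      rw [e4, e5, e6]
    have hd := cnt_dup k (u :: z :: u :: L1) L2 E v (x :: y :: cl (fun i => i) (L1.length + 1) c)
      (cl (fun i => L1.length + 1 + (i + 1 + 1)) L2.length c) (c (pt n (L1.length + 1)))
      (c (pt n (L1.length + 2))) (by simp [cl])
    simp only [List.cons_append] at hd
    rw [key, hcl, hd, hfun, hins, hup]
    split_ifs with hc
    · have ha : (k : ℝ) ^ a ≠ 0 := pow_ne_zero _ hk0
      have hX : ∀ (A B D Y : ℝ), A ≠ 0 → A * (D * (B / A * Y)) = B * D * Y := by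
        intro A B D Y hA
        field_simp
      rw [pow_add (k : ℝ) b (L2.length + 1)]
      exact hX _ _ _ _ ha
    · simp

theorem X_act {n k : ℕ} (p : ℕ) (w : List Let) (f : Fn (Fin (n + 1)) (Fin k))
    (c : Fin (n + 1) → Fin k) :
    (T (PR n k) (Let.X p :: w) f) c =
        if c (pt n p) = c (pt n (p + 1)) then 0 else
          (T (PR n k) w f) c := by
  have : T (PR n k) (Let.X p :: w) =
      (1 - (PR n k).e (2 * p + 1)) * T (PR n k) w := by
    simp [T, ev]
  rw [this, PR_odd, Module.End.mul_apply, LinearMap.sub_apply, Module.End.one_apply]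
  show T (PR n k) w f c - Jop _ _ (T (PR n k) w f) c = _
  rw [Jop_apply]
  split_ifs <;> simp

theorem goodP_edge {V : Type} [Fintype V] (u z : V) (stat : V → St) (hsN : ∀ v, stat v ≠ St.N)
    (L1 L2 : List V)
    (E : Set (Sym2 V)) (a v : V) (hav : stat a ≠ stat v)
    (h : GoodP u z stat (L1 ++ a :: v :: L2) E) :
    GoodP u z stat (L1 ++ a :: v :: L2) (insert s(a, v) E) := by
  obtain ⟨w, κ, N, a', b, hok, hκ, hjunk, h00, hr, hN, hT⟩ := h
  have hlen : (L1 ++ a :: v :: L2).length = L1.length + (L2.length + 1 + 1) := by simp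
  have hp : L1.length < (L1 ++ a :: v :: L2).length := by rw [hlen]; omega
  have hp1 : L1.length + 1 < (L1 ++ a :: v :: L2).length := by rw [hlen]; omega
  have e0 : κ (L1.length + 1) = stat a := by
    rw [hκ _ hp]; congr 1; simp
  have e1 : κ (L1.length + 1 + 1) = stat v := by
    rw [hκ _ hp1]; congr 1
    rw [List.getElem_append_right (by omega)]; simp
  refine ⟨Let.X (L1.length + 1) :: w, κ, N, a', b,
    OKP.X _ _ _ (by omega) hok (by rw [e0, e1]; exact hav) (by rw [e0]; exact hsN a)
      (by rw [e1]; exact hsN v), hκ, hjunk, h00, ?_, hN, ?_⟩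
  · intro l hl
    rcases List.mem_cons.1 hl with rfl | hl
    · show L1.length + 1 < N
      omega
    · exact hr l hl
  · intro n hn k hk x y c
    have h1 := hT n hn k hk x y c
    have hcl : cl (fun i => i) ((L1 ++ a :: v :: L2).length + 1) c =
        cl (fun i => i) (L1.length + 1) c ++ c (pt n (L1.length + 1)) ::
          c (pt n (L1.length + 1 + 1)) ::
          cl (fun i => L1.length + 1 + (i + 1 + 1)) L2.length c := by
      have h2 : (L1 ++ a :: v :: L2).length + 1 = (L1.length + 1) + (L2.length + 1 + 1) := by
        rw [hlen]; omega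
      rw [h2, U34_cl_add, U34_cl_succ _ (L2.length + 1), U34_cl_succ _ L2.length]
    have he := cnt_edge k (u :: z :: u :: L1) L2 E a v (x :: y :: cl (fun i => i) (L1.length + 1) c)
      (cl (fun i => L1.length + 1 + (i + 1 + 1)) L2.length c) (c (pt n (L1.length + 1)))
      (c (pt n (L1.length + 1 + 1))) (by simp [cl])
    simp only [List.cons_append] at he
    rw [X_act, hcl, he]
    rw [hcl] at h1
    split_ifs with hc
    · simp
    · exact h1

theorem goodP_base {V : Type} [Fintype V] (u z : V) (stat : V → St) (hsN : ∀ v, stat v ≠ St.N)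
    (L : List V) (E : Set (Sym2 V)) (v : V) (h : GoodP u z stat (v :: L) E) :
    GoodP u z stat (v :: L) (insert s(u, v) E) := by
  obtain ⟨w, κ, N, a', b, hok, hκ, hjunk, h00, hr, hN, hT⟩ := h
  have hlen : (v :: L).length = L.length + 1 := rfl
  have e0 : κ 1 = stat v := hκ 0 (by rw [hlen]; omega)
  refine ⟨Let.X 0 :: w, κ, N, a', b, OKP.X0 _ _ hok (by rw [e0]; exact hsN v), hκ, hjunk, h00,
    ?_, hN, ?_⟩
  · intro l hl
    rcases List.mem_cons.1 hl with rfl | hl
    · show 0 < N
      omega
    · exact hr l hl
  · intro n hn k hk x y c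
    have h1 := hT n hn k hk x y c
    have hcl : cl (fun i => i) ((v :: L).length + 1) c =
        c (pt n 0) :: c (pt n (0 + 1)) :: cl (fun i => i + 1 + 1) L.length c := by
      rw [hlen, U34_cl_succ, U34_cl_succ]
    have he := cnt_edge k [u, z] L E u v [x, y]
      (cl (fun i => i + 1 + 1) L.length c) (c (pt n 0)) (c (pt n (0 + 1))) rfl
    simp only [List.cons_append, List.nil_append] at he
    rw [X_act, hcl, he]
    rw [hcl] at h1
    split_ifs with hc
    · simp
    · exact h1

theorem goodP_drop {V : Type} [Fintype V] (u z : V) (stat : V → St) (hsN : ∀ v, stat v ≠ St.N)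
    (L1 L2 : List V)
    (E : Set (Sym2 V)) (v : V) (hvW : stat v ≠ St.W) (h : GoodP u z stat (L1 ++ v :: L2) E) :
    GoodP u z stat (L1 ++ L2) E := by
  obtain ⟨w, κ, N, a, b, hok, hκ, hjunk, h00, hin, hlen, hid⟩ := h
  have hl : (L1 ++ v :: L2).length = L1.length + 1 + L2.length := by
    simp only [List.length_append, List.length_cons]; omega
  rw [hl] at hlen
  have hp : L1.length < (L1 ++ v :: L2).length := by rw [hl]; omega
  have e0 : κ (L1.length + 1) = stat v := by
    rw [hκ _ hp]; congr 1; simp
  obtain ⟨κ', hok', hκ1, hκ2, hκ3, hκ4⟩ := ok_del w κ hok (L1.length + 1) L2.length (by omega)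
    (by rw [e0]; exact hvW) (fun i hi1 hi2 => by
      obtain ⟨j, rfl⟩ : ∃ j, i = j + 1 := ⟨i - 1, by omega⟩
      rw [hκ j (by rw [hl]; omega)]
      exact hsN _)
  refine ⟨delW (L1.length + 1) L2.length ++ w, κ', N, a, b + L2.length, hok', ?_, ?_, ?_, ?_, ?_,
    ?_⟩
  · intro i hi
    rw [List.length_append] at hi
    rcases lt_or_ge i L1.length with h1 | h1
    · rw [hκ1 (i + 1) (by omega), hκ i (by rw [hl]; omega), List.getElem_append_left h1,
        List.getElem_append_left h1]
    · rw [hκ2 (i + 1) (by omega) (by omega), hκ (i + 1) (by rw [hl]; omega),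
        List.getElem_append_right h1, List.getElem_append_right (by omega)]
      congr 1
      have h2 : i + 1 - L1.length = (i - L1.length) + 1 := by omega
      simp only [h2, List.getElem_cons_succ]
  · intro i hi
    rw [List.length_append] at hi
    by_cases h1 : i = L1.length + 1 + L2.length
    · rw [h1, hκ3]; decide
    · rw [hκ4 i (by omega)]
      exact hjunk i (by rw [hl]; omega)
  · rw [hκ1 0 (by omega)]
    exact h00
  · intro l hl'
    rcases List.mem_append.1 hl' with h1 | h1
    · exact inr_del1 N (L1.length + 1) L2.length (by omega) (by omega) l h1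
    · exact hin l h1
  · rw [List.length_append]; omega
  · intro n hn k hk x y c
    have hd := del_act n k (L1.length + 1) L2.length (by omega)
      (fun l => (k : ℝ) ^ b * cnt k (u :: z :: u :: (L1 ++ v :: L2)) E (x :: y :: l)) c
    have hg : (fun c : Fin (n + 1) → Fin k => (k : ℝ) ^ b * cnt k (u :: z :: u :: (L1 ++ v :: L2)) E
        (x :: y :: cl (fun i => i) (L1.length + 1 + 1 + L2.length) c)) =
        (k : ℝ) ^ a • (T (PR n k) w (pin n k x y)) := by
      funext c'
      have e : L1.length + 1 + 1 + L2.length = (L1 ++ v :: L2).length + 1 := by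
        rw [hl]; omega
      rw [e]
      exact (hid n hn k hk x y c').symm
    rw [hg, map_smul] at hd
    rw [T_append, Module.End.mul_apply]
    have hd' : (k : ℝ) ^ a * (T (PR n k) (delW (L1.length + 1) L2.length))
        ((T (PR n k) w) (pin n k x y)) c = _ := hd
    have e2 : (L1 ++ L2).length + 1 = (L1.length + 1) + L2.length := by
      rw [List.length_append]; omega
    rw [hd', e2, U35_cl (L1.length + 1) L2.length]
    have hc := cnt_drop k (u :: z :: u :: L1) L2 E v (x :: y :: cl (fun i => i) (L1.length + 1) c)
      (cl (fun i => L1.length + 1 + i) L2.length c) (by simp [cl])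
    simp only [List.cons_append] at hc
    rw [← hc, ← Finset.mul_sum, pow_add]
    ring

end Pool.Agent.H26.BL
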