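import Pool.Agent.H26.BL.Tw2

/-!
Vertices whose neighbours form closed walks of length four, in the presence of pinned vertices.
The induction follows the library module `TH592.BL.Main`.
-/

set_option autoImplicit false

namespace Pool.Agent.H26.BL

open Polynomial Pool.Agent.H207R2.BL Pool.Agent.H110R3.BP Pool.Agent.TH592.BL

/-- the data of the induction: three pinned vertices `U i` at the points `P i` (two of them may
coincide), all the others in the region `O` -/
structure CfgP {V : Type} (O : Set (ℝ × ℝ)) (P : Fin 3 → ℝ × ℝ) (G : SimpleGraph V)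
    (f : V → ℝ × ℝ) (U : Fin 3 → V) (C : Set V) (κ : V → Bool) : Prop where
  straight : IsStraight G f
  pin : ∀ i, f (U i) = P i
  pos : ∀ v, v ∉ Set.range U → f v ∈ O
  disj : ∀ u ∈ Set.range U, u ∉ C
  indep : ∀ x ∈ C, ∀ y ∈ C, ¬ G.Adj x y
  link : ∀ c ∈ C, ∃ v1 v2 v3 v4, (∀ x, G.Adj c x ↔ x = v1 ∨ x = v2 ∨ x = v3 ∨ x = v4) ∧
    G.Adj v1 v2 ∧ G.Adj v2 v3 ∧ G.Adj v3 v4 ∧ G.Adj v4 v1 ∧
    ¬ (v1 ∈ Set.range U ∧ v3 ∈ Set.range U) ∧ ¬ (v2 ∈ Set.range U ∧ v4 ∈ Set.range U)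
  bip : ∀ x y, G.Adj x y → x ∉ Set.range U → x ∉ C → y ∉ Set.range U → y ∉ C → κ x ≠ κ y

/-- the base case of the induction -/
def BaseP (O : Set (ℝ × ℝ)) (P : Fin 3 → ℝ × ℝ) (q : ℝ) : Prop :=
  ∀ (V : Type) (_ : Fintype V) (G : SimpleGraph V) (f : V → ℝ × ℝ) (U : Fin 3 → V)
    (κ : V → Bool), CfgP O P G f U ∅ κ → ∀ p : ℝ[X], IsChrom G p → 0 < p.eval q

/-- the induction hypothesis -/
def IHypP (O : Set (ℝ × ℝ)) (P : Fin 3 → ℝ × ℝ) (q : ℝ) (n : ℕ) : Prop :=
  ∀ (V : Type) (_ : Fintype V) (G : SimpleGraph V) (f : V → ℝ × ℝ) (U : Fin 3 → V) (C : Set V)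
    (κ : V → Bool), CfgP O P G f U C κ → C.ncard = n →
    ∀ p : ℝ[X], IsChrom G p → 0 < p.eval q

theorem cfgP_reN {V : Type} {O : Set (ℝ × ℝ)} {P : Fin 3 → ℝ × ℝ} {G : SimpleGraph V}
    {f : V → ℝ × ℝ} {U : Fin 3 → V} {C : Set V}
    {κ : V → Bool} (h : CfgP O P G f U C κ) (c : V) (hc : c ∈ C) (S : Set V)
    (hS : ∀ x ∈ S, G.Adj c x) (κc : Bool) (hκ : ∀ x ∈ S, x ∉ Set.range U → κ x ≠ κc) :
    ∃ κ', CfgP O P (reN G c S) f U (C \ {c}) κ' := by
  classical
  refine ⟨Function.update κ c κc, ⟨?_, h.pin, h.pos, ?_, ?_, ?_, ?_⟩⟩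
  · obtain ⟨s1, s2, s3⟩ := h.straight
    exact ⟨s1, fun u v w huv => s2 u v w (reN_le hS huv),
      fun u v u' v' h1 h2 => s3 u v u' v' (reN_le hS h1) (reN_le hS h2)⟩
  · intro u hu hu'
    exact h.disj u hu hu'.1
  · intro x hx y hy hxy
    exact h.indep x hx.1 y hy.1 (reN_le hS hxy)
  · intro c' hc'
    obtain ⟨v1, v2, v3, v4, hN, h12, h23, h34, h41, hu1, hu2⟩ := h.link c' hc'.1
    have hcc : c' ≠ c := hc'.2
    have hne : ∀ x, G.Adj c' x → x ≠ c := by
      rintro x hx rfl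
      exact h.indep c' hc'.1 x hc hx
    have n1 := hne v1 ((hN v1).2 (by simp))
    have n2 := hne v2 ((hN v2).2 (by simp))
    have n3 := hne v3 ((hN v3).2 (by simp))
    have n4 := hne v4 ((hN v4).2 (by simp))
    refine ⟨v1, v2, v3, v4, ?_, (reN_ne G c S _ _ n1 n2).2 h12, (reN_ne G c S _ _ n2 n3).2 h23,
      (reN_ne G c S _ _ n3 n4).2 h34, (reN_ne G c S _ _ n4 n1).2 h41, hu1, hu2⟩
    intro x
    by_cases hx : x = c
    · subst hx
      constructor
      · intro h1
        exact absurd (reN_le hS h1) (h.indep c' hc'.1 x hc)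
      · rintro (h1 | h1 | h1 | h1)
        · exact absurd h1.symm n1
        · exact absurd h1.symm n2
        · exact absurd h1.symm n3
        · exact absurd h1.symm n4
    · rw [reN_ne G c S c' x hcc hx]
      exact hN x
  · intro x y hxy hxU hxC hyU hyC
    rcases hxy with ⟨h1, h2, h3⟩ | ⟨h1, h2, h3⟩ | ⟨h1, h2, h3⟩
    · rw [Function.update_of_ne h1, Function.update_of_ne h2]
      exact h.bip x y h3 hxU (fun e => hxC ⟨e, h1⟩) hyU (fun e => hyC ⟨e, h2⟩)
    · subst h1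
      rw [Function.update_self, Function.update_of_ne h2]
      exact (hκ y h3 hyU).symm
    · subst h1
      rw [Function.update_self, Function.update_of_ne h2]
      exact hκ x h3 hxU

theorem range_some {W : Type} (U : Fin 3 → W) :
    Set.range (fun i => some (U i)) = some '' Set.range U := by
  rw [← Set.range_comp]
  rfl

theorem cfgP_twin {W : Type} [Finite W] {O : Set (ℝ × ℝ)} (hO : IsOpen O) {P : Fin 3 → ℝ × ℝ}
    {H : SimpleGraph W} {f : W → ℝ × ℝ} {U : Fin 3 → W} {C : Set W}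
    {κ : W → Bool} (h : CfgP O P H f U C κ) (c a b : W) (t : TD H (Set.range U) C c a b) :
    ∃ g κ', CfgP O P (twin H a b) g (fun i => some (U i)) (some '' C) κ' ∧
      TD (twin H a b) (Set.range (fun i => some (U i))) (some '' C) (none : Option W) (some a)
        (some b) := by
  obtain ⟨g, hg1, hg2, hg3⟩ := twin_straight2 H f h.straight c a b t.ne t.nbr O hO
    (h.pos c t.cU)
  have ca : a ∉ Set.range U → κ c ≠ κ a :=
    fun ha => h.bip c a ((t.nbr a).2 (Or.inl rfl)) t.cU t.cC ha t.aC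
  have cb : b ∉ Set.range U → κ c ≠ κ b :=
    fun hb => h.bip c b ((t.nbr b).2 (Or.inr rfl)) t.cU t.cC hb t.bC
  have mem : ∀ (S : Set W) (x : W), some x ∈ some '' S ↔ x ∈ S := by
    intro S x
    simp
  have nomem : ∀ (S : Set W), (none : Option W) ∉ some '' S := by
    intro S
    simp
  refine ⟨g, fun o => o.elim (κ c) κ, ⟨hg2, ?_, ?_, ?_, ?_, ?_, ?_⟩, ⟨?_, ?_, ?_, ?_, ?_, ?_⟩⟩
  · intro i
    rw [hg1]
    exact h.pin i
  · rw [range_some]
    rintro (_ | v) hv
    · exact hg3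
    · rw [hg1]
      rw [mem] at hv
      exact h.pos v hv
  · rw [range_some]
    rintro _ ⟨u, hu, rfl⟩ hu'
    exact h.disj u hu ((mem C u).1 hu')
  · rintro _ ⟨x, hx, rfl⟩ _ ⟨y, hy, rfl⟩ hxy
    exact h.indep x hx y hy ((twin_some H a b x y).1 hxy)
  · rw [range_some]
    rintro _ ⟨c', hc', rfl⟩
    obtain ⟨v1, v2, v3, v4, hN, h12, h23, h34, h41, hu1, hu2⟩ := h.link c' hc'
    refine ⟨some v1, some v2, some v3, some v4, ?_, (twin_some H a b _ _).2 h12,
      (twin_some H a b _ _).2 h23, (twin_some H a b _ _).2 h34, (twin_some H a b _ _).2 h41, ?_, ?_⟩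
    · rintro (_ | x)
      · constructor
        · intro h1
          rcases (twin_none H a b c').1 h1.symm with e | e
          · exact absurd (e ▸ hc') t.aC
          · exact absurd (e ▸ hc') t.bC
        · rintro (h1 | h1 | h1 | h1) <;> cases h1
      · rw [twin_some H a b, hN x]
        simp
    · rw [mem, mem]; exact hu1
    · rw [mem, mem]; exact hu2
  · rw [range_some]
    rintro (_ | x) (_ | y) hxy hxU hxC hyU hyC
    · exact absurd hxy ((twin H a b).loopless.irrefl _)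
    · change κ c ≠ κ y
      rw [mem] at hyU hyC
      rcases (twin_none H a b y).1 hxy with rfl | rfl
      · exact ca hyU
      · exact cb hyU
    · change κ x ≠ κ c
      rw [mem] at hxU hxC
      rcases (twin_none H a b x).1 hxy.symm with rfl | rfl
      · exact (ca hxU).symm
      · exact (cb hxU).symm
    · rw [mem] at hxU hxC hyU hyC
      exact h.bip x y ((twin_some H a b x y).1 hxy) hxU hxC hyU hyC
  · intro e
    exact t.ne (Option.some_injective _ e)
  · rintro (_ | x)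
    · constructor
      · intro h1
        exact absurd h1 ((twin H a b).loopless.irrefl _)
      · rintro (h1 | h1) <;> cases h1
    · rw [twin_none H a b x]
      simp
  · rw [range_some]
    exact nomem _
  · exact nomem C
  · rw [mem]; exact t.aC
  · rw [mem]; exact t.bC

theorem twins_seqP {W : Type} [Fintype W] {O : Set (ℝ × ℝ)} (hO : IsOpen O)
    {P : Fin 3 → ℝ × ℝ} {H : SimpleGraph W} {f : W → ℝ × ℝ} {U : Fin 3 → W} {C : Set W}
    {κ : W → Bool} (h : CfgP O P H f U C κ) (c a b : W) (t : TD H (Set.range U) C c a b)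
    (m : ℕ) :
    ∃ (W' : Type) (_ : Fintype W') (H' : SimpleGraph W') (f' : W' → ℝ × ℝ) (U' : Fin 3 → W')
      (C' : Set W') (κ' : W' → Bool) (c' a' b' : W'), CfgP O P H' f' U' C' κ' ∧
      TD H' (Set.range U') C' c' a' b' ∧
      C'.ncard = C.ncard ∧ (∀ k : ℕ, cn H' k (fun g => g a' = g b') =
        cn H k (fun g => g a = g b) * ((k : ℝ) - 1) ^ m) ∧
      (∀ k : ℕ, cn H' k (fun g => g a' ≠ g b') =
        cn H k (fun g => g a ≠ g b) * ((k : ℝ) - 2) ^ m) := by
  induction m with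
  | zero =>
    refine ⟨W, inferInstance, H, f, U, C, κ, c, a, b, h, t, rfl, ?_, ?_⟩
    · intro k; rw [pow_zero, mul_one]
    · intro k; rw [pow_zero, mul_one]
  | succ m ih =>
    obtain ⟨W', i', H', f', U', C', κ', c', a', b', h1, h2, h3, h4, h5⟩ := ih
    obtain ⟨g, κ'', g1, g2⟩ := cfgP_twin hO h1 c' a' b' h2
    refine ⟨Option W', inferInstance, twin H' a' b', g, _, some '' C', κ'', none,
      some a', some b', g1, g2, ?_, ?_, ?_⟩
    · rw [Set.ncard_image_of_injective _ (Option.some_injective _), h3]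
    · intro k
      rw [twin_eq, h4, pow_succ]; ring
    · intro k
      rw [twin_ne, h5, pow_succ]; ring

theorem identP_nonneg {O : Set (ℝ × ℝ)} (hO : IsOpen O) {P : Fin 3 → ℝ × ℝ} (q : ℝ)
    (hq : 4 < q) (n : ℕ) (IH : IHypP O P q n) {W : Type} [Fintype W]
    {H : SimpleGraph W} {f : W → ℝ × ℝ} {U : Fin 3 → W} {C : Set W} {κ : W → Bool}
    (h : CfgP O P H f U C κ)
    (hn : C.ncard = n) (c a b : W) (t : TD H (Set.range U) C c a b) (α β : ℝ[X])
    (hα : ∀ k : ℕ, α.eval (k : ℝ) = cn H k (fun g => g a = g b))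
    (hβ : ∀ k : ℕ, β.eval (k : ℝ) = cn H k (fun g => g a ≠ g b)) : 0 ≤ α.eval q := by
  apply pow_limit _ (β.eval q) q hq
  intro m
  obtain ⟨W', i', H', f', U', C', κ', c', a', b', h1, h2, h3, h4, h5⟩ :=
    twins_seqP hO h c a b t m
  have key : IsChrom H' (α * (X - 1) ^ m + β * (X - Polynomial.C (2 : ℝ)) ^ m) := by
    apply isChrom_of_cn
    intro k
    rw [cn_split H' k a' b', h4, h5, ← hα, ← hβ]
    simp
  have := IH W' i' H' f' U' C' κ' h1 (h3.trans hn) _ key
  simpa using this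

theorem gammaP_exists {O : Set (ℝ × ℝ)} (hO : IsOpen O) {P : Fin 3 → ℝ × ℝ} (q : ℝ)
    (hq : 4 < q) (n : ℕ) (IH : IHypP O P q n) {V : Type} [Fintype V]
    {G : SimpleGraph V} {f : V → ℝ × ℝ} {U : Fin 3 → V} {C : Set V} {κ : V → Bool}
    (h : CfgP O P G f U C κ)
    (c : V) (hc : c ∈ C) (hn : (C \ {c}).ncard = n) (a b v : V) (ha : G.Adj c a) (hb : G.Adj c b)
    (hv : v ∉ Set.range U) (hcv : G.Adj c v) (hav : G.Adj a v) (hbv : G.Adj b v) :
    ∃ γ : ℝ[X], (∀ k : ℕ, γ.eval (k : ℝ) =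
      ((k : ℝ) - 1) * cn (reN G c ∅) k (fun g => g a = g b)) ∧ 0 ≤ γ.eval q := by
  have haC : a ∉ C := fun e => h.indep c hc a e ha
  have hbC : b ∉ C := fun e => h.indep c hc b e hb
  have hvC : v ∉ C := fun e => h.indep c hc v e hcv
  by_cases hab : a = b
  · subst hab
    obtain ⟨κ', hκ'⟩ := cfgP_reN h c hc ∅ (fun x hx => absurd hx (Set.notMem_empty _)) true
      (fun x hx => absurd hx (Set.notMem_empty _))
    refine ⟨(X - 1) * chr (reN G c ∅), ?_, ?_⟩
    · intro k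
      rw [eval_mul, cn_eval _ _ (chr_spec _) k]
      simp
    · rw [eval_mul]
      have h1 := IH V inferInstance _ f U _ κ' hκ' hn _ (chr_spec (reN G c ∅))
      have h2 : 0 ≤ (X - 1 : ℝ[X]).eval q := by
        simp
        linarith
      exact mul_nonneg h2 h1.le
  · have hS : ∀ x ∈ ({a, b} : Set V), G.Adj c x := by
      intro x hx
      simp only [Set.mem_insert_iff, Set.mem_singleton_iff] at hx
      rcases hx with rfl | rfl
      · exact ha
      · exact hb
    obtain ⟨κ', hκ'⟩ := cfgP_reN h c hc {a, b} hS (κ v) (by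
      intro x hx hxU
      simp only [Set.mem_insert_iff, Set.mem_singleton_iff] at hx
      rcases hx with rfl | rfl
      · exact h.bip _ _ hav hxU haC hv hvC
      · exact h.bip _ _ hbv hxU hbC hv hvC)
    have hcab : c ∉ ({a, b} : Set V) := by
      intro e
      exact G.loopless.irrefl c (hS c e)
    have t : TD (reN G c {a, b}) (Set.range U) (C \ {c}) c a b := by
      refine ⟨hab, ?_, fun e => h.disj c e hc, fun e => e.2 rfl, fun e => haC e.1,
        fun e => hbC e.1⟩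
      intro x
      rw [reN_c G c {a, b} hcab x]
      simp
    refine ⟨X * (chr (reN G c {a, b}) - chr (addE (reN G c {a, b}) a b)), ?_, ?_⟩
    · intro k
      rw [eval_mul, eval_sub, eval_X, cn_eval _ _ (chr_spec _) k, cn_eval _ _ (chr_spec _) k,
        cn_addE _ _ _ _ hab, cn_split (reN G c {a, b}) k a b, add_sub_cancel_right,
        id23 G c a b ha.ne.symm hb.ne.symm k]
    · rw [eval_mul, eval_X]
      refine mul_nonneg (by linarith) ?_
      refine identP_nonneg hO q hq n IH hκ' hn c a b t _ (chr (addE (reN G c {a, b}) a b)) ?_ ?_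
      · intro k
        rw [eval_sub, cn_eval _ _ (chr_spec _) k, cn_eval _ _ (chr_spec _) k,
          cn_addE _ _ _ _ hab, cn_split (reN G c {a, b}) k a b, add_sub_cancel_right]
      · intro k
        rw [cn_eval _ _ (chr_spec _) k, cn_addE _ _ _ _ hab]

theorem mainP_gt {O : Set (ℝ × ℝ)} (hO : IsOpen O) {P : Fin 3 → ℝ × ℝ} (q : ℝ) (hq : 4 < q)
    (hbase : BaseP O P q) (n : ℕ) : IHypP O P q n := by
  induction n with
  | zero =>
    intro V _ G f U C κ h hC p hp
    have hC0 : C = ∅ := by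
      rwa [Set.ncard_eq_zero (Set.toFinite C)] at hC
    subst hC0
    exact hbase V inferInstance G f U κ h p hp
  | succ n IH =>
    intro V _ G f U C κ h hC p hp
    obtain ⟨c, hc⟩ : C.Nonempty := by
      rw [← Set.ncard_pos (Set.toFinite C)]
      omega
    have hn : (C \ {c}).ncard = n := by
      rw [Set.ncard_sdiff_singleton_of_mem hc]
      omega
    obtain ⟨v1, v2, v3, v4, hN, h12, h23, h34, h41, hu1, hu2⟩ := h.link c hc
    have c1 : G.Adj c v1 := (hN v1).2 (by simp)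
    have c2 : G.Adj c v2 := (hN v2).2 (by simp)
    have c3 : G.Adj c v3 := (hN v3).2 (by simp)
    have c4 : G.Adj c v4 := (hN v4).2 (by simp)
    obtain ⟨γ, hγ1, hγ2⟩ : ∃ γ : ℝ[X], (∀ k : ℕ, γ.eval (k : ℝ) =
        ((k : ℝ) - 1) * cn (reN G c ∅) k (fun g => g v1 = g v3)) ∧ 0 ≤ γ.eval q := by
      by_cases hv : v2 ∈ Set.range U
      · have hv4 : v4 ∉ Set.range U := fun e => hu2 ⟨hv, e⟩
        exact gammaP_exists hO q hq n IH h c hc hn v1 v3 v4 c1 c3 hv4 c4 h41.symm h34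
      · exact gammaP_exists hO q hq n IH h c hc hn v1 v3 v2 c1 c3 hv c2 h12 h23.symm
    obtain ⟨δ, hδ1, hδ2⟩ : ∃ γ : ℝ[X], (∀ k : ℕ, γ.eval (k : ℝ) =
        ((k : ℝ) - 1) * cn (reN G c ∅) k (fun g => g v2 = g v4)) ∧ 0 ≤ γ.eval q := by
      by_cases hv : v1 ∈ Set.range U
      · have hv3 : v3 ∉ Set.range U := fun e => hu1 ⟨hv, e⟩
        exact gammaP_exists hO q hq n IH h c hc hn v2 v4 v3 c2 c4 hv3 c3 h23 h34.symm
      · exact gammaP_exists hO q hq n IH h c hc hn v2 v4 v1 c2 c4 hv c1 h12.symm h41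
    obtain ⟨κ', hκ'⟩ := cfgP_reN h c hc ∅ (fun x hx => absurd hx (Set.notMem_empty _)) true
      (fun x hx => absurd hx (Set.notMem_empty _))
    have h0 := IH V inferInstance _ f U _ κ' hκ' hn _ (chr_spec (reN G c ∅))
    have key : X * (X - 1) * p = (X - 1) * (X - Polynomial.C (4 : ℝ)) * chr (reN G c ∅) + γ + δ := by
      apply Polynomial.eq_of_infinite_eval_eq
      apply Set.infinite_of_injective_forall_mem (f := fun k : ℕ => (k : ℝ)) Nat.cast_injective
      intro k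
      change (X * (X - 1) * p).eval (k : ℝ) =
        ((X - 1) * (X - Polynomial.C (4 : ℝ)) * chr (reN G c ∅) + γ + δ).eval (k : ℝ)
      have h1 := id1 G c v1 v2 v3 v4 hN h12 h23 h34 h41 k
      rw [eval_add, eval_add, hγ1 k, hδ1 k]
      simp only [eval_mul, eval_sub, eval_X, eval_one, eval_C]
      rw [cn_eval G p hp k, cn_eval _ _ (chr_spec _) k]
      linear_combination ((k : ℝ) - 1) * h1
    have h2 := congrArg (fun r : ℝ[X] => r.eval q) key
    simp only [eval_mul, eval_sub, eval_X, eval_one, eval_C, eval_add] at h2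
    have h3 : 0 < (q - 1) * (q - 4) * (chr (reN G c ∅)).eval q :=
      mul_pos (mul_pos (by linarith) (by linarith)) h0
    have h4 : 0 < q * (q - 1) * p.eval q := by
      rw [h2]
      linarith
    exact (pos_iff_pos_of_mul_pos h4).1 (mul_pos (by linarith) (by linarith))

theorem mainP {O : Set (ℝ × ℝ)} (hO : IsOpen O) {P : Fin 3 → ℝ × ℝ} (q : ℝ) (hq : 4 < q)
    (hbase : BaseP O P q) {V : Type} [Fintype V] {G : SimpleGraph V} {f : V → ℝ × ℝ}
    {U : Fin 3 → V} {C : Set V} {κ : V → Bool} (h : CfgP O P G f U C κ) (p : ℝ[X])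
    (hp : IsChrom G p) : 0 < p.eval q :=
  mainP_gt hO q hq hbase C.ncard V inferInstance G f U C κ h rfl p hp

/-! ### the two base cases -/

/-- the open half plane to the left of the line from `P 0` to `P 1` -/
def OA (P : Fin 3 → ℝ × ℝ) : Set (ℝ × ℝ) := {x | 0 < crs (P 1 - P 0) (x - P 0)}

/-- the open cone at `P 0` between `P 1` and `P 2` -/
def OB (P : Fin 3 → ℝ × ℝ) : Set (ℝ × ℝ) :=
  {x | 0 < crs (P 1 - P 0) (x - P 0) ∧ crs (P 2 - P 0) (x - P 0) < 0}

theorem cont_crs (a b : ℝ × ℝ) : Continuous (fun x : ℝ × ℝ => crs a (x - b)) := by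
  unfold crs
  fun_prop

theorem OA_open (P : Fin 3 → ℝ × ℝ) : IsOpen (OA P) :=
  isOpen_lt continuous_const (cont_crs _ _)

theorem OB_open (P : Fin 3 → ℝ × ℝ) : IsOpen (OB P) :=
  (isOpen_lt continuous_const (cont_crs _ _)).inter (isOpen_lt (cont_crs _ _) continuous_const)

theorem base_OA (P : Fin 3 → ℝ × ℝ) (h1 : P 1 ≠ P 0) (h2 : P 2 = P 0) (q : ℝ) (hq : 4 ≤ q) :
    BaseP (OA P) P q := by
  intro V _ G f U κ h p hp
  have hzu : U 1 ≠ U 0 := by
    intro e
    apply h1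
    rw [← h.pin 1, ← h.pin 0, e]
  have hwu : U 2 = U 0 := by
    apply h.straight.1
    rw [h.pin 2, h.pin 0, h2]
  have hr : ∀ v, v ≠ U 0 → v ≠ U 1 → v ∉ Set.range U := by
    rintro v hv0 hv1 ⟨i, rfl⟩
    fin_cases i
    · exact hv0 rfl
    · exact hv1 rfl
    · exact hv0 hwu
  refine baseA G f h.straight (U 0) (U 1) hzu ?_ κ ?_ p hp q hq
  · intro v hv0 hv1
    have := h.pos v (hr v hv0 hv1)
    rw [h.pin 1, h.pin 0]
    exact this
  · intro a b hab ha0 hb0 ha1 _ hb1 _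
    exact h.bip a b hab (hr a ha0 ha1) (Set.notMem_empty _) (hr b hb0 hb1) (Set.notMem_empty _)

theorem base_OB (P : Fin 3 → ℝ × ℝ) (h12 : 0 < crs (P 1 - P 0) (P 2 - P 0)) (q : ℝ)
    (hq : 9 / 2 ≤ q) : BaseP (OB P) P q := by
  intro V _ G f U κ h p hp
  have h21 : crs (P 2 - P 0) (P 1 - P 0) < 0 := by
    have e : crs (P 2 - P 0) (P 1 - P 0) = - crs (P 1 - P 0) (P 2 - P 0) := by
      unfold crs
      ring
    rw [e]
    linarith
  have hzu : U 1 ≠ U 0 := by
    intro e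
    have e' : P 1 = P 0 := by rw [← h.pin 1, ← h.pin 0, e]
    rw [e'] at h12
    unfold crs at h12
    simp at h12
  have hwu : U 2 ≠ U 0 := by
    intro e
    have e' : P 2 = P 0 := by rw [← h.pin 2, ← h.pin 0, e]
    rw [e'] at h12
    unfold crs at h12
    simp at h12
  have hzw : U 1 ≠ U 2 := by
    intro e
    have e' : P 1 = P 2 := by rw [← h.pin 1, ← h.pin 2, e]
    rw [e'] at h12
    unfold crs at h12
    simp only [Prod.fst_sub, Prod.snd_sub] at h12
    linarith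
  have hr : ∀ v, v ≠ U 0 → v ≠ U 1 → v ≠ U 2 → v ∉ Set.range U := by
    rintro v hv0 hv1 hv2 ⟨i, rfl⟩
    fin_cases i
    · exact hv0 rfl
    · exact hv1 rfl
    · exact hv2 rfl
  refine baseB G f h.straight (U 0) (U 1) (U 2) hzu hwu hzw ?_ ?_ κ ?_ p hp q hq
  · intro v hv0 hv1
    rw [h.pin 1, h.pin 0]
    by_cases hv2 : v = U 2
    · rw [hv2, h.pin 2]
      exact h12
    · exact (h.pos v (hr v hv0 hv1 hv2)).1
  · intro v hv0 hv2
    rw [h.pin 2, h.pin 0]
    by_cases hv1 : v = U 1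
    · rw [hv1, h.pin 1]
      exact h21
    · exact (h.pos v (hr v hv0 hv1 hv2)).2
  · intro a b hab ha0 hb0 ha1 ha2 hb1 hb2
    exact h.bip a b hab (hr a ha0 ha1 ha2) (Set.notMem_empty _) (hr b hb0 hb1 hb2)
      (Set.notMem_empty _)

end Pool.Agent.H26.BL
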