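import Pool.Agent.H26.BL.Eig

/-!
Words with statuses of the columns, and positivity in the path representation.
-/

set_option autoImplicit false
set_option linter.unusedVariables false

namespace Pool.Agent.H26.BL

open Pool.Agent.H207R2.BL Pool.Agent.H110R3.BP Pool.Agent.H110R3.BP2

/-- statuses of a column: fresh, first class, second class, first pinned vertex, last pinned
vertex -/
inductive St : Type
  | N | F | T | Z | W
  deriving DecidableEq

/-- words consistent with statuses of the columns -/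
inductive OKP : List Let → (ℕ → St) → Prop
  | nil : OKP [] (fun i => if i = 1 then St.Z else St.N)
  | C (i : ℕ) (b : St) (w : List Let) (κ : ℕ → St) (hi : 1 ≤ i) (h : OKP w κ) (hb : b ≠ St.Z)
      (hW : κ i = St.W → ∃ j, j ≠ i ∧ κ j = St.W)
      (hbW : b = St.W → ∀ j, j ≠ i → κ j ≠ St.W) : OKP (Let.C i :: w) (Function.update κ i b)
  | J (i : ℕ) (b : St) (w : List Let) (κ : ℕ → St) (hi : 1 ≤ i) (h : OKP w κ) (hb : b ≠ St.N)
      (h1 : κ i = b ∨ κ i = St.N) (h2 : κ (i + 1) = b ∨ κ (i + 1) = St.N)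
      (h3 : κ i = b ∨ κ (i + 1) = b) :
      OKP (Let.J i :: w) (Function.update (Function.update κ i b) (i + 1) b)
  | X (i : ℕ) (w : List Let) (κ : ℕ → St) (hi : 1 ≤ i) (h : OKP w κ) (h1 : κ i ≠ κ (i + 1))
      (h2 : κ i ≠ St.N) (h3 : κ (i + 1) ≠ St.N) : OKP (Let.X i :: w) κ
  | X0 (w : List Let) (κ : ℕ → St) (h : OKP w κ) (h1 : κ 1 ≠ St.N) : OKP (Let.X 0 :: w) κ

variable {l : ℕ}

/-- paths starting at the base -/
def Bs (b0 : Fin l) (s : ℕ → Nd l) : Prop := Vd s ∧ s 0 = Nd.ray 0 ∧ s 1 = Nd.leaf b0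

/-- admissible paths -/
def Ad (b0 wl : Fin l) (κ : ℕ → St) (s : ℕ → Nd l) : Prop :=
  Bs b0 s ∧ ∀ i, κ i = St.W → s (2 * i + 1) = Nd.leaf wl

/-- special paths -/
def Sp (b0 zl wl : Fin l) (κ : ℕ → St) (s : ℕ → Nd l) : Prop :=
  Ad b0 wl κ s ∧ (∀ i, s (2 * i) = Nd.ray 0) ∧ (∀ i, κ i = St.Z → s (2 * i + 1) = Nd.leaf zl) ∧
    (∀ i, κ i = St.F ∨ κ i = St.T → s (2 * i + 1) = Nd.ray 1)

/-- sign of a column -/
noncomputable def sgn (s : ℕ → Nd l) (j : ℕ) : ℝ := if s (2 * j) = s (2 * j + 2) then 1 else -1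

/-- factor of a column -/
noncomputable def fac (κ : ℕ → St) (s : ℕ → Nd l) (j : ℕ) : ℝ := if κ j = St.T then sgn s j else 1

/-- gauge sign -/
noncomputable def Ug (n : ℕ) (κ : ℕ → St) (s : ℕ → Nd l) : ℝ :=
  ∏ j ∈ Finset.range (n + 1), fac κ s j

theorem par_path {b0 : Fin l} {s : ℕ → Nd l} (h : Bs b0 s) (i : ℕ) :
    par (s i) = decide (i % 2 = 1) := by
  induction i with
  | zero => rw [h.2.1]; rfl
  | succ i ih =>
    rw [par_nb (h.1 i), ih, ← decide_not, decide_eq_decide]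
    omega

theorem par_odd {b0 : Fin l} {s : ℕ → Nd l} (h : Bs b0 s) (i : ℕ) :
    par (s (2 * i + 1)) = true := by
  rw [par_path h, decide_eq_true_eq]
  omega

theorem sgn_eq {s : ℕ → Nd l} {j : ℕ} (h : s (2 * j) = s (2 * j + 2)) : sgn s j = 1 := by
  unfold sgn
  rw [if_pos h]

theorem sgn_congr {s t : ℕ → Nd l} {j : ℕ} (h1 : s (2 * j) = t (2 * j))
    (h2 : s (2 * j + 2) = t (2 * j + 2)) : sgn s j = sgn t j := by
  unfold sgn
  rw [h1, h2]

/-- changing the gap above column `i` changes both signs -/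
theorem sgn_flip {b0 : Fin l} {s : ℕ → Nd l} (h : Bs b0 s) (i : ℕ)
    (hi : s (2 * i + 1) = s (2 * i + 1 + 2)) (x : Nd l) (hx : x ∈ nb (s (2 * i + 1)))
    (hne : x ≠ s (2 * i + 2)) :
    sgn (Function.update s (2 * i + 2) x) i = - sgn s i ∧
      sgn (Function.update s (2 * i + 2) x) (i + 1) = - sgn s (i + 1) := by
  have hv := par_odd h i
  have hy : s (2 * i + 2) ∈ nb (s (2 * i + 1)) := h.1 (2 * i + 1)
  constructor
  · have hg : s (2 * i) ∈ nb (s (2 * i + 1)) := h.1.back (2 * i)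
    have h2 := nb_two hv hx hy hne hg
    unfold sgn
    rw [Function.update_self, Function.update_of_ne (by omega)]
    by_cases h3 : s (2 * i) = s (2 * i + 2)
    · have h4 : ¬ s (2 * i) = x := fun h5 => h2.1 h5 h3
      rw [if_pos h3, if_neg h4]
    · rw [if_neg h3, if_pos (h2.2 h3)]
      norm_num
  · have hg : s (2 * (i + 1) + 2) ∈ nb (s (2 * i + 1)) := by
      rw [hi]; exact h.1 (2 * i + 1 + 2)
    have h2 := nb_two hv hx hy hne hg
    unfold sgn
    have e1 : Function.update s (2 * i + 2) x (2 * (i + 1)) = x := by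
      rw [show 2 * (i + 1) = 2 * i + 2 by ring, Function.update_self]
    rw [e1, Function.update_of_ne (by omega)]
    have e2 : s (2 * (i + 1)) = s (2 * i + 2) := by rw [show 2 * (i + 1) = 2 * i + 2 by ring]
    rw [e2]
    by_cases h3 : s (2 * i + 2) = s (2 * (i + 1) + 2)
    · have h4 : ¬ x = s (2 * (i + 1) + 2) := fun h5 => h2.1 h5.symm h3.symm
      rw [if_pos h3, if_neg h4]
    · rw [if_neg h3, if_pos (h2.2 (fun h5 => h3 h5.symm)).symm]
      norm_num

theorem prod_two {S : Finset ℕ} {a b : ℕ} (ha : a ∈ S) (hb : b ∈ S) (hab : a ≠ b) (g : ℕ → ℝ) :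
    ∏ j ∈ S, g j = g a * g b * ∏ j ∈ (S.erase a).erase b, g j := by
  rw [← Finset.mul_prod_erase S g ha,
    ← Finset.mul_prod_erase (S.erase a) g (Finset.mem_erase.2 ⟨hab.symm, hb⟩)]
  ring

theorem Ug_two (n : ℕ) (κ κ' : ℕ → St) (s s' : ℕ → Nd l) (i : ℕ) (hi : i < n) (c : ℝ)
    (h : fac κ' s i * fac κ' s (i + 1) = c * (fac κ s' i * fac κ s' (i + 1)))
    (hκ : ∀ j, j ≠ i → j ≠ i + 1 → fac κ' s j = fac κ s' j) : Ug n κ' s = c * Ug n κ s' := by
  unfold Ug
  have ha : i ∈ Finset.range (n + 1) := Finset.mem_range.2 (by omega)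
  have hb : i + 1 ∈ Finset.range (n + 1) := Finset.mem_range.2 (by omega)
  rw [prod_two ha hb (by omega), prod_two ha hb (by omega), h]
  have : ∏ j ∈ ((Finset.range (n + 1)).erase i).erase (i + 1), fac κ' s j =
      ∏ j ∈ ((Finset.range (n + 1)).erase i).erase (i + 1), fac κ s' j := by
    refine Finset.prod_congr rfl fun j hj => ?_
    rw [Finset.mem_erase, Finset.mem_erase] at hj
    exact hκ j hj.2.1 hj.1
  rw [this]
  ring

theorem fac_gap (κ : ℕ → St) (s : ℕ → Nd l) (i : ℕ) (x : Nd l) (j : ℕ) (h1 : j ≠ i)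
    (h2 : j ≠ i + 1) : fac κ (Function.update s (2 * i + 2) x) j = fac κ s j := by
  unfold fac
  rw [sgn_congr (t := s)]
  · rw [Function.update_of_ne (by omega)]
  · rw [Function.update_of_ne (by omega)]

theorem Ug_sp {b0 zl wl : Fin l} {κ : ℕ → St} {s : ℕ → Nd l} (h : Sp b0 zl wl κ s) (n : ℕ)
    (κ' : ℕ → St) : Ug n κ' s = 1 := by
  unfold Ug
  refine Finset.prod_eq_one fun j _ => ?_
  unfold fac
  rw [sgn_eq]
  · split_ifs <;> rfl
  · rw [h.2.1 j, show 2 * j + 2 = 2 * (j + 1) by ring, h.2.1 (j + 1)]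

/-- positivity and support of a function of paths -/
structure Pz (n : ℕ) (b0 zl wl : Fin l) (κ : ℕ → St) (f : (ℕ → Nd l) → ℝ) : Prop where
  nn : ∀ s, Ad b0 wl κ s → 0 ≤ Ug n κ s * f s
  sz : ∀ s, Bs b0 s → f s ≠ 0 → ∀ i, κ i = St.Z → s (2 * i + 1) = Nd.leaf zl
  sw : ∀ s, Bs b0 s → f s ≠ 0 → ∀ i j, κ i = St.W → κ j = St.W → s (2 * i + 1) = s (2 * j + 1)
  sn : ∀ s, Bs b0 s → f s ≠ 0 → ∀ i, 1 ≤ i → i ≤ n → κ i = St.N → s (2 * i) = s (2 * i + 2)

theorem Bs.upd {b0 : Fin l} {s : ℕ → Nd l} (h : Bs b0 s) (j : ℕ) (hj : s j = s (j + 2)) (x : Nd l)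
    (hx : x ∈ nb (s j)) (h1 : 1 ≤ j) : Bs b0 (Function.update s (j + 1) x) := by
  refine ⟨h.1.upd j hj x hx, ?_, ?_⟩
  · rw [Function.update_of_ne (by omega)]; exact h.2.1
  · rw [Function.update_of_ne (by omega)]; exact h.2.2

/-- a nonzero value comes from a nonzero value -/
theorem Eo_ne {μ : Nd l → ℝ} {j : ℕ} {f : (ℕ → Nd l) → ℝ} {s : ℕ → Nd l} (h : Eo μ j f s ≠ 0) :
    Vd s ∧ s j = s (j + 2) ∧ ∃ x ∈ nb (s j), f (Function.update s (j + 1) x) ≠ 0 := by
  by_cases hc : Vd s ∧ s j = s (j + 2)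
  · refine ⟨hc.1, hc.2, ?_⟩
    rw [Eo_pos μ j f s hc.1 hc.2] at h
    obtain ⟨x, hx, hx2⟩ := Finset.exists_ne_zero_of_sum_ne_zero h
    exact ⟨x, hx, fun h0 => hx2 (by rw [h0, mul_zero])⟩
  · exact absurd (Eo_neg μ j f s hc) h

/-! ### the letter `C` -/

theorem C_adm {n : ℕ} {b0 zl wl : Fin l} {κ : ℕ → St} {f : (ℕ → Nd l) → ℝ}
    (h : Pz n b0 zl wl κ f) {i : ℕ} (hi : 1 ≤ i) {b : St}
    (hW : κ i = St.W → ∃ j, j ≠ i ∧ κ j = St.W) {s : ℕ → Nd l}
    (hs : Ad b0 wl (Function.update κ i b) s) (hc : s (2 * i) = s (2 * i + 2)) {x : Nd l}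
    (hx : x ∈ nb (s (2 * i))) (hf : f (Function.update s (2 * i + 1) x) ≠ 0) :
    Ad b0 wl κ (Function.update s (2 * i + 1) x) := by
  have hB : Bs b0 (Function.update s (2 * i + 1) x) := hs.1.upd (2 * i) hc x hx (by omega)
  have h1 : ∀ j, j ≠ i → κ j = St.W → Function.update s (2 * i + 1) x (2 * j + 1) =
      Nd.leaf wl := by
    intro j hj hκ
    rw [Function.update_of_ne (by omega)]
    exact hs.2 j (by rw [Function.update_of_ne hj]; exact hκ)
  refine ⟨hB, fun j hκ => ?_⟩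
  by_cases hj : j = i
  · subst hj
    obtain ⟨j', hj', hκ'⟩ := hW hκ
    rw [h.sw _ hB hf j j' hκ hκ']
    exact h1 j' hj' hκ'
  · exact h1 j hj hκ

theorem C_sign {n : ℕ} {κ : ℕ → St} {i : ℕ} {b : St} {s : ℕ → Nd l}
    (hc : s (2 * i) = s (2 * i + 2)) (x : Nd l) :
    Ug n (Function.update κ i b) s = Ug n κ (Function.update s (2 * i + 1) x) := by
  unfold Ug
  refine Finset.prod_congr rfl fun j _ => ?_
  unfold fac
  by_cases hj : j = i
  · subst hj
    have e1 : sgn s j = 1 := sgn_eq hc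
    have e2 : sgn (Function.update s (2 * j + 1) x) j = 1 := by
      apply sgn_eq
      rw [Function.update_of_ne (by omega), Function.update_of_ne (by omega)]
      exact hc
    rw [e1, e2]
    split_ifs <;> rfl
  · rw [Function.update_of_ne hj, sgn_congr (s := Function.update s (2 * i + 1) x) (t := s)]
    · rw [Function.update_of_ne (by omega)]
    · rw [Function.update_of_ne (by omega)]

theorem C_term {n : ℕ} {b0 zl wl : Fin l} {κ : ℕ → St} {f : (ℕ → Nd l) → ℝ}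
    (h : Pz n b0 zl wl κ f) {i : ℕ} (hi : 1 ≤ i) {b : St}
    (hW : κ i = St.W → ∃ j, j ≠ i ∧ κ j = St.W) {s : ℕ → Nd l}
    (hs : Ad b0 wl (Function.update κ i b) s) (hc : s (2 * i) = s (2 * i + 2)) {x : Nd l}
    (hx : x ∈ nb (s (2 * i))) :
    0 ≤ Ug n (Function.update κ i b) s * f (Function.update s (2 * i + 1) x) := by
  by_cases hf : f (Function.update s (2 * i + 1) x) = 0
  · rw [hf, mul_zero]
  · rw [C_sign hc x]
    exact h.nn _ (C_adm h hi hW hs hc hx hf)

theorem Pz_C {δ : ℝ} {μ : Nd l → ℝ} (hμ : Eg δ μ) {n : ℕ} {b0 zl wl : Fin l} {κ : ℕ → St}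
    {f : (ℕ → Nd l) → ℝ} (h : Pz n b0 zl wl κ f) {i : ℕ} (hi : 1 ≤ i) {b : St} (hb : b ≠ St.Z)
    (hW : κ i = St.W → ∃ j, j ≠ i ∧ κ j = St.W) (hbW : b = St.W → ∀ j, j ≠ i → κ j ≠ St.W) :
    Pz n b0 zl wl (Function.update κ i b) (δ • Eo μ (2 * i) f) := by
  have hδ := hμ.delta_pos
  have ne : ∀ s, (δ • Eo μ (2 * i) f) s ≠ 0 → Eo μ (2 * i) f s ≠ 0 := by
    intro s h1 h2
    apply h1
    rw [Pi.smul_apply, h2, smul_zero]
  refine ⟨?_, ?_, ?_, ?_⟩
  · intro s hs
    rw [Pi.smul_apply, smul_eq_mul]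
    by_cases hc : Vd s ∧ s (2 * i) = s (2 * i + 2)
    · rw [Eo_pos μ _ f s hc.1 hc.2]
      have e : Ug n (Function.update κ i b) s * (δ * ∑ x ∈ nb (s (2 * i)),
          μ x / μ (s (2 * i)) * f (Function.update s (2 * i + 1) x)) =
          ∑ x ∈ nb (s (2 * i)), δ * (μ x / μ (s (2 * i))) *
            (Ug n (Function.update κ i b) s * f (Function.update s (2 * i + 1) x)) := by
        rw [Finset.mul_sum, Finset.mul_sum]
        exact Finset.sum_congr rfl fun x _ => by ring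
      rw [e]
      refine Finset.sum_nonneg fun x hx => mul_nonneg ?_ (C_term h hi hW hs hc.2 hx)
      exact mul_nonneg hδ.le (div_nonneg (hμ.pos _).le (hμ.pos _).le)
    · rw [Eo_neg μ _ f s hc, mul_zero, mul_zero]
  · intro s hs hf j hj
    obtain ⟨hv, hc, x, hx, hfx⟩ := Eo_ne (ne s hf)
    have hji : j ≠ i := by
      rintro rfl
      rw [Function.update_self] at hj
      exact hb hj
    rw [Function.update_of_ne hji] at hj
    have := h.sz _ (hs.upd (2 * i) hc x hx (by omega)) hfx j hj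
    rwa [Function.update_of_ne (by omega)] at this
  · intro s hs hf i1 i2 h1 h2
    obtain ⟨hv, hc, x, hx, hfx⟩ := Eo_ne (ne s hf)
    by_cases e1 : i1 = i
    · subst e1
      rw [Function.update_self] at h1
      by_cases e2 : i2 = i1
      · rw [e2]
      · rw [Function.update_of_ne e2] at h2
        exact absurd h2 (hbW h1 i2 e2)
    · rw [Function.update_of_ne e1] at h1
      by_cases e2 : i2 = i
      · subst e2
        rw [Function.update_self] at h2
        exact absurd h1 (hbW h2 i1 e1)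
      · rw [Function.update_of_ne e2] at h2
        have := h.sw _ (hs.upd (2 * i) hc x hx (by omega)) hfx i1 i2 h1 h2
        rwa [Function.update_of_ne (by omega), Function.update_of_ne (by omega)] at this
  · intro s hs hf j hj1 hjn hj
    obtain ⟨hv, hc, x, hx, hfx⟩ := Eo_ne (ne s hf)
    by_cases e1 : j = i
    · subst e1
      exact hc
    · rw [Function.update_of_ne e1] at hj
      have := h.sn _ (hs.upd (2 * i) hc x hx (by omega)) hfx j hj1 hjn hj
      rwa [Function.update_of_ne (by omega), Function.update_of_ne (by omega)] at this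

theorem Sp_C {δ : ℝ} {μ : Nd l → ℝ} (hμ : Eg δ μ) {n : ℕ} {b0 zl wl : Fin l} {κ : ℕ → St}
    {f : (ℕ → Nd l) → ℝ} (h : Pz n b0 zl wl κ f) (hS : ∀ s, Sp b0 zl wl κ s → 0 < f s) {i : ℕ}
    (hi : 1 ≤ i) {b : St} (hb : b ≠ St.Z)
    (hW : κ i = St.W → ∃ j, j ≠ i ∧ κ j = St.W) :
    ∀ s, Sp b0 zl wl (Function.update κ i b) s → 0 < (δ • Eo μ (2 * i) f) s := by
  intro s hs
  have hδ := hμ.delta_pos
  have hc : s (2 * i) = s (2 * i + 2) := by
    rw [hs.2.1 i, show 2 * i + 2 = 2 * (i + 1) by ring, hs.2.1 (i + 1)]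
  rw [Pi.smul_apply, smul_eq_mul, Eo_pos μ _ f s hs.1.1.1 hc]
  refine mul_pos hδ ?_
  have hnn : ∀ x ∈ nb (s (2 * i)), 0 ≤ f (Function.update s (2 * i + 1) x) := by
    intro x hx
    have := C_term h hi hW hs.1 hc hx
    rwa [Ug_sp hs, one_mul] at this
  set x0 : Nd l := match κ i with
    | St.N => Nd.ray 1
    | St.F => Nd.ray 1
    | St.T => Nd.ray 1
    | St.Z => Nd.leaf zl
    | St.W => Nd.leaf wl with hx0
  have hx0m : x0 ∈ nb (s (2 * i)) := by
    rw [hs.2.1 i, mem_nb_zero, hx0]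
    cases κ i
    · exact Or.inl rfl
    · exact Or.inl rfl
    · exact Or.inl rfl
    · exact Or.inr ⟨zl, rfl⟩
    · exact Or.inr ⟨wl, rfl⟩
  have hB := hs.1.1.upd (2 * i) hc x0 hx0m (by omega)
  have hsp : Sp b0 zl wl κ (Function.update s (2 * i + 1) x0) := by
    refine ⟨⟨hB, fun j hj => ?_⟩, fun j => ?_, fun j hj => ?_, fun j hj => ?_⟩
    · by_cases e1 : j = i
      · subst e1
        rw [Function.update_self, hx0, hj]
      · rw [Function.update_of_ne (by omega)]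
        exact hs.1.2 j (by rw [Function.update_of_ne e1]; exact hj)
    · rw [Function.update_of_ne (by omega)]
      exact hs.2.1 j
    · by_cases e1 : j = i
      · subst e1
        rw [Function.update_self, hx0, hj]
      · rw [Function.update_of_ne (by omega)]
        exact hs.2.2.1 j (by rw [Function.update_of_ne e1]; exact hj)
    · by_cases e1 : j = i
      · subst e1
        rw [Function.update_self, hx0]
        rcases hj with hj | hj <;> rw [hj]
      · rw [Function.update_of_ne (by omega)]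
        exact hs.2.2.2 j (by rw [Function.update_of_ne e1]; exact hj)
  refine Finset.sum_pos' (fun x hx => mul_nonneg (div_nonneg (hμ.pos _).le (hμ.pos _).le)
    (hnn x hx)) ⟨x0, hx0m, mul_pos (div_pos (hμ.pos _) (hμ.pos _)) (hS _ hsp)⟩

/-! ### the letter `J` -/

theorem J_sign {n : ℕ} {b0 zl wl : Fin l} {κ : ℕ → St} {f : (ℕ → Nd l) → ℝ}
    (h : Pz n b0 zl wl κ f) {i : ℕ} (hi : 1 ≤ i) (hin : i < n) {b : St} (hb : b ≠ St.N)
    (h1 : κ i = b ∨ κ i = St.N) (h2 : κ (i + 1) = b ∨ κ (i + 1) = St.N) {s : ℕ → Nd l}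
    (hs : Bs b0 s) (hc : s (2 * i + 1) = s (2 * i + 1 + 2)) {x : Nd l}
    (hx : x ∈ nb (s (2 * i + 1))) (hf : f (Function.update s (2 * i + 2) x) ≠ 0) :
    Ug n (Function.update (Function.update κ i b) (i + 1) b) s =
      Ug n κ (Function.update s (2 * i + 2) x) := by
  have hB : Bs b0 (Function.update s (2 * i + 2) x) := hs.upd (2 * i + 1) hc x hx (by omega)
  have e1 : Function.update (Function.update κ i b) (i + 1) b i = b := by
    rw [Function.update_of_ne (by omega), Function.update_self]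
  have e2 : Function.update (Function.update κ i b) (i + 1) b (i + 1) = b :=
    Function.update_self _ _ _
  rw [← one_mul (Ug n κ (Function.update s (2 * i + 2) x))]
  refine Ug_two n κ _ s _ i hin 1 ?_ ?_
  · rw [one_mul]
    by_cases hbT : b = St.T
    · subst hbT
      have g1 : fac κ (Function.update s (2 * i + 2) x) i =
          sgn (Function.update s (2 * i + 2) x) i := by
        unfold fac
        rcases h1 with h1 | h1
        · rw [if_pos h1]
        · rw [if_neg (by rw [h1]; decide), sgn_eq (h.sn _ hB hf i hi (by omega) h1)]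
      have g2 : fac κ (Function.update s (2 * i + 2) x) (i + 1) =
          sgn (Function.update s (2 * i + 2) x) (i + 1) := by
        unfold fac
        rcases h2 with h2 | h2
        · rw [if_pos h2]
        · rw [if_neg (by rw [h2]; decide), sgn_eq (h.sn _ hB hf (i + 1) (by omega) (by omega) h2)]
      have g3 : fac (Function.update (Function.update κ i St.T) (i + 1) St.T) s i = sgn s i := by
        unfold fac
        rw [if_pos e1]
      have g4 : fac (Function.update (Function.update κ i St.T) (i + 1) St.T) s (i + 1) =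
          sgn s (i + 1) := by
        unfold fac
        rw [if_pos e2]
      rw [g1, g2, g3, g4]
      by_cases hxy : x = s (2 * i + 2)
      · rw [hxy, Function.update_eq_self]
      · obtain ⟨k1, k2⟩ := sgn_flip hs i hc x hx hxy
        rw [k1, k2]
        ring
    · have nT : ∀ κ' : ℕ → St, ∀ t : ℕ → Nd l, ∀ j, κ' j ≠ St.T → fac κ' t j = 1 := by
        intro κ' t j hj
        unfold fac
        rw [if_neg hj]
      rw [nT _ _ _ (by rw [e1]; exact hbT), nT _ _ _ (by rw [e2]; exact hbT), nT κ _ i, nT κ _ (i + 1)]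
      · rcases h2 with h2 | h2 <;> rw [h2]
        · exact hbT
        · decide
      · rcases h1 with h1 | h1 <;> rw [h1]
        · exact hbT
        · decide
  · intro j hj1 hj2
    rw [fac_gap κ s i x j hj1 hj2]
    unfold fac
    rw [Function.update_of_ne hj2, Function.update_of_ne hj1]

theorem J_adm {b0 wl : Fin l} {κ : ℕ → St} {i : ℕ} (hi : 1 ≤ i) {b : St}
    (h1 : κ i = b ∨ κ i = St.N) (h2 : κ (i + 1) = b ∨ κ (i + 1) = St.N) {s : ℕ → Nd l}
    (hs : Ad b0 wl (Function.update (Function.update κ i b) (i + 1) b) s)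
    (hc : s (2 * i + 1) = s (2 * i + 1 + 2)) {x : Nd l} (hx : x ∈ nb (s (2 * i + 1))) :
    Ad b0 wl κ (Function.update s (2 * i + 2) x) := by
  refine ⟨hs.1.upd (2 * i + 1) hc x hx (by omega), fun j hj => ?_⟩
  rw [Function.update_of_ne (by omega)]
  apply hs.2 j
  by_cases e2 : j = i + 1
  · subst e2
    rw [Function.update_self]
    rcases h2 with h2 | h2
    · rw [← h2]; exact hj
    · rw [h2] at hj; cases hj
  · rw [Function.update_of_ne e2]
    by_cases e1 : j = i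
    · subst e1
      rw [Function.update_self]
      rcases h1 with h1 | h1
      · rw [← h1]; exact hj
      · rw [h1] at hj; cases hj
    · rw [Function.update_of_ne e1]
      exact hj

theorem J_term {n : ℕ} {b0 zl wl : Fin l} {κ : ℕ → St} {f : (ℕ → Nd l) → ℝ}
    (h : Pz n b0 zl wl κ f) {i : ℕ} (hi : 1 ≤ i) (hin : i < n) {b : St} (hb : b ≠ St.N)
    (h1 : κ i = b ∨ κ i = St.N) (h2 : κ (i + 1) = b ∨ κ (i + 1) = St.N) {s : ℕ → Nd l}
    (hs : Ad b0 wl (Function.update (Function.update κ i b) (i + 1) b) s)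
    (hc : s (2 * i + 1) = s (2 * i + 1 + 2)) {x : Nd l} (hx : x ∈ nb (s (2 * i + 1))) :
    0 ≤ Ug n (Function.update (Function.update κ i b) (i + 1) b) s *
      f (Function.update s (2 * i + 2) x) := by
  by_cases hf : f (Function.update s (2 * i + 2) x) = 0
  · rw [hf, mul_zero]
  · rw [J_sign h hi hin hb h1 h2 hs.1 hc hx hf]
    exact h.nn _ (J_adm hi h1 h2 hs hc hx)

theorem Pz_J {δ : ℝ} {μ : Nd l → ℝ} (hμ : Eg δ μ) {n : ℕ} {b0 zl wl : Fin l} {κ : ℕ → St}
    {f : (ℕ → Nd l) → ℝ} (h : Pz n b0 zl wl κ f) {i : ℕ} (hi : 1 ≤ i) (hin : i < n) {b : St}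
    (hb : b ≠ St.N) (h1 : κ i = b ∨ κ i = St.N) (h2 : κ (i + 1) = b ∨ κ (i + 1) = St.N)
    (h3 : κ i = b ∨ κ (i + 1) = b) :
    Pz n b0 zl wl (Function.update (Function.update κ i b) (i + 1) b)
      (δ⁻¹ • Eo μ (2 * i + 1) f) := by
  have hδ := hμ.delta_pos
  have ne : ∀ s, (δ⁻¹ • Eo μ (2 * i + 1) f) s ≠ 0 → Eo μ (2 * i + 1) f s ≠ 0 := by
    intro s h1 h2
    apply h1
    rw [Pi.smul_apply, h2, smul_zero]
  -- a column of status `c` after comes from a column of status `c` before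
  have orig : ∀ s : ℕ → Nd l, s (2 * i + 1) = s (2 * i + 1 + 2) → ∀ x : Nd l, ∀ c, c ≠ St.N → ∀ j,
      Function.update (Function.update κ i b) (i + 1) b j = c →
      ∃ j', κ j' = c ∧ Function.update s (2 * i + 2) x (2 * j' + 1) = s (2 * j + 1) := by
    intro s hc x c hcN j hj
    have key : b = c → (s (2 * i + 1) = s (2 * j + 1)) → ∃ j', κ j' = c ∧
        Function.update s (2 * i + 2) x (2 * j' + 1) = s (2 * j + 1) := by
      intro hbc hsj
      rcases h3 with h3 | h3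
      · refine ⟨i, by rw [h3, hbc], ?_⟩
        rw [Function.update_of_ne (by omega), hsj]
      · refine ⟨i + 1, by rw [h3, hbc], ?_⟩
        rw [Function.update_of_ne (by omega), ← hsj, hc]
        rfl
    by_cases e2 : j = i + 1
    · subst e2
      rw [Function.update_self] at hj
      exact key hj hc
    · rw [Function.update_of_ne e2] at hj
      by_cases e1 : j = i
      · subst e1
        rw [Function.update_self] at hj
        exact key hj rfl
      · rw [Function.update_of_ne e1] at hj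
        exact ⟨j, hj, Function.update_of_ne (by omega) _ _⟩
  refine ⟨?_, ?_, ?_, ?_⟩
  · intro s hs
    rw [Pi.smul_apply, smul_eq_mul]
    by_cases hc : Vd s ∧ s (2 * i + 1) = s (2 * i + 1 + 2)
    · rw [Eo_pos μ _ f s hc.1 hc.2]
      have e : Ug n (Function.update (Function.update κ i b) (i + 1) b) s *
          (δ⁻¹ * ∑ x ∈ nb (s (2 * i + 1)),
          μ x / μ (s (2 * i + 1)) * f (Function.update s (2 * i + 1 + 1) x)) =
          ∑ x ∈ nb (s (2 * i + 1)), δ⁻¹ * (μ x / μ (s (2 * i + 1))) *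
            (Ug n (Function.update (Function.update κ i b) (i + 1) b) s *
              f (Function.update s (2 * i + 2) x)) := by
        rw [Finset.mul_sum, Finset.mul_sum]
        exact Finset.sum_congr rfl fun x _ => by ring
      rw [e]
      refine Finset.sum_nonneg fun x hx => mul_nonneg ?_ (J_term h hi hin hb h1 h2 hs hc.2 hx)
      exact mul_nonneg (inv_nonneg.2 hδ.le) (div_nonneg (hμ.pos _).le (hμ.pos _).le)
    · rw [Eo_neg μ _ f s hc, mul_zero, mul_zero]
  · intro s hs hf j hj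
    obtain ⟨hv, hc, x, hx, hfx⟩ := Eo_ne (ne s hf)
    obtain ⟨j', hj', he⟩ := orig s hc x St.Z (by decide) j hj
    rw [← he]
    exact h.sz _ (hs.upd (2 * i + 1) hc x hx (by omega)) hfx j' hj'
  · intro s hs hf i1 i2 hj1 hj2
    obtain ⟨hv, hc, x, hx, hfx⟩ := Eo_ne (ne s hf)
    obtain ⟨j1, hj1', he1⟩ := orig s hc x St.W (by decide) i1 hj1
    obtain ⟨j2, hj2', he2⟩ := orig s hc x St.W (by decide) i2 hj2
    rw [← he1, ← he2]
    exact h.sw _ (hs.upd (2 * i + 1) hc x hx (by omega)) hfx j1 j2 hj1' hj2'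
  · intro s hs hf j hj1 hjn hj
    obtain ⟨hv, hc, x, hx, hfx⟩ := Eo_ne (ne s hf)
    have e2 : j ≠ i + 1 := by
      rintro rfl
      rw [Function.update_self] at hj
      exact hb hj
    rw [Function.update_of_ne e2] at hj
    have e1 : j ≠ i := by
      rintro rfl
      rw [Function.update_self] at hj
      exact hb hj
    rw [Function.update_of_ne e1] at hj
    have := h.sn _ (hs.upd (2 * i + 1) hc x hx (by omega)) hfx j hj1 hjn hj
    rwa [Function.update_of_ne (by omega), Function.update_of_ne (by omega)] at this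

theorem Sp_J {δ : ℝ} {μ : Nd l → ℝ} (hμ : Eg δ μ) {n : ℕ} {b0 zl wl : Fin l} {κ : ℕ → St}
    {f : (ℕ → Nd l) → ℝ} (h : Pz n b0 zl wl κ f) (hS : ∀ s, Sp b0 zl wl κ s → 0 < f s) {i : ℕ}
    (hi : 1 ≤ i) (hin : i < n) {b : St} (hb : b ≠ St.N) (h1 : κ i = b ∨ κ i = St.N)
    (h2 : κ (i + 1) = b ∨ κ (i + 1) = St.N) :
    ∀ s, Sp b0 zl wl (Function.update (Function.update κ i b) (i + 1) b) s →
      0 < (δ⁻¹ • Eo μ (2 * i + 1) f) s := by
  intro s hs
  have hδ := hμ.delta_pos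
  set κ' := Function.update (Function.update κ i b) (i + 1) b with hκ'
  have e1 : κ' i = b := by
    rw [hκ', Function.update_of_ne (by omega), Function.update_self]
  have e2 : κ' (i + 1) = b := Function.update_self _ _ _
  have hc : s (2 * i + 1) = s (2 * i + 1 + 2) := by
    have e3 : 2 * i + 1 + 2 = 2 * (i + 1) + 1 := by ring
    rw [e3]
    cases b
    · exact absurd rfl hb
    · rw [hs.2.2.2 i (Or.inl e1), hs.2.2.2 (i + 1) (Or.inl e2)]
    · rw [hs.2.2.2 i (Or.inr e1), hs.2.2.2 (i + 1) (Or.inr e2)]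
    · rw [hs.2.2.1 i e1, hs.2.2.1 (i + 1) e2]
    · rw [hs.1.2 i e1, hs.1.2 (i + 1) e2]
  rw [Pi.smul_apply, smul_eq_mul, Eo_pos μ _ f s hs.1.1.1 hc]
  refine mul_pos (inv_pos.2 hδ) ?_
  have hnn : ∀ x ∈ nb (s (2 * i + 1)), 0 ≤ f (Function.update s (2 * i + 1 + 1) x) := by
    intro x hx
    have := J_term h hi hin hb h1 h2 hs.1 hc hx
    rwa [Ug_sp hs, one_mul] at this
  have hx0m : s (2 * i + 2) ∈ nb (s (2 * i + 1)) := hs.1.1.1 (2 * i + 1)
  have hsub : ∀ j c, c ≠ St.N → κ j = c → κ' j = c := by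
    intro j c hcN hj
    by_cases k2 : j = i + 1
    · subst k2
      rw [e2]
      rcases h2 with h2 | h2
      · rw [← h2, hj]
      · rw [h2] at hj; exact absurd hj.symm hcN
    · by_cases k1 : j = i
      · subst k1
        rw [e1]
        rcases h1 with h1 | h1
        · rw [← h1, hj]
        · rw [h1] at hj; exact absurd hj.symm hcN
      · rw [hκ', Function.update_of_ne k2, Function.update_of_ne k1]
        exact hj
  have hsp : Sp b0 zl wl κ s := by
    refine ⟨⟨hs.1.1, fun j hj => hs.1.2 j (hsub j _ (by decide) hj)⟩, hs.2.1,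
      fun j hj => hs.2.2.1 j (hsub j _ (by decide) hj), fun j hj => hs.2.2.2 j ?_⟩
    rcases hj with hj | hj
    · exact Or.inl (hsub j _ (by decide) hj)
    · exact Or.inr (hsub j _ (by decide) hj)
  refine Finset.sum_pos' (fun x hx => mul_nonneg (div_nonneg (hμ.pos _).le (hμ.pos _).le)
    (hnn x hx)) ⟨s (2 * i + 2), hx0m, mul_pos (div_pos (hμ.pos _) (hμ.pos _)) ?_⟩
  have e3 : Function.update s (2 * i + 1 + 1) (s (2 * i + 2)) = s := Function.update_eq_self _ _
  rw [e3]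
  exact hS s hsp

/-! ### the letter `X` -/

theorem X_sign {n : ℕ} {κ : ℕ → St} {i : ℕ} (hin : i < n) {b0 : Fin l} {s : ℕ → Nd l}
    (hκ : (κ i = St.F ∧ κ (i + 1) = St.T) ∨ (κ i = St.T ∧ κ (i + 1) = St.F))
    (hs : Bs b0 s) (hc : s (2 * i + 1) = s (2 * i + 1 + 2)) {x : Nd l}
    (hx : x ∈ nb (s (2 * i + 1))) (hxy : x ≠ s (2 * i + 2)) :
    Ug n κ s = (-1) * Ug n κ (Function.update s (2 * i + 2) x) := by
  obtain ⟨k1, k2⟩ := sgn_flip hs i hc x hx hxy
  refine Ug_two n κ κ s _ i hin (-1) ?_ ?_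
  · rcases hκ with ⟨h1, h2⟩ | ⟨h1, h2⟩
    · have a : ∀ t : ℕ → Nd l, fac κ t i = 1 := by
        intro t; unfold fac; rw [h1]; rfl
      have b : ∀ t : ℕ → Nd l, fac κ t (i + 1) = sgn t (i + 1) := by
        intro t; unfold fac; rw [if_pos h2]
      rw [a, a, b, b, k2]
      ring
    · have a : ∀ t : ℕ → Nd l, fac κ t (i + 1) = 1 := by
        intro t; unfold fac; rw [h2]; rfl
      have b : ∀ t : ℕ → Nd l, fac κ t i = sgn t i := by
        intro t; unfold fac; rw [if_pos h1]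
      rw [a, a, b, b, k1]
      ring
  · intro j hj1 hj2
    rw [fac_gap κ s i x j hj1 hj2]

theorem X_bound {δ : ℝ} {μ : Nd l → ℝ} (hμ : Eg δ μ) {n : ℕ} {b0 zl wl : Fin l} {κ : ℕ → St}
    {f : (ℕ → Nd l) → ℝ} (h : Pz n b0 zl wl κ f) {i : ℕ} (hi : 1 ≤ i) (hin : i < n)
    (h1 : κ i ≠ κ (i + 1)) (h2 : κ i ≠ St.N) (h3 : κ (i + 1) ≠ St.N) {s : ℕ → Nd l}
    (hs : Ad b0 wl κ s) (hc : s (2 * i + 1) = s (2 * i + 1 + 2)) :
    Ug n κ s * f s * (1 - δ⁻¹ * (μ (s (2 * i + 2)) / μ (s (2 * i + 1)))) ≤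
      Ug n κ s * (f s - δ⁻¹ * Eo μ (2 * i + 1) f s) := by
  have hδ := hμ.delta_pos
  have hy : s (2 * i + 2) ∈ nb (s (2 * i + 1)) := hs.1.1 (2 * i + 1)
  rw [Eo_pos μ _ f s hs.1.1 hc, ← Finset.add_sum_erase _ _ hy]
  have e3 : Function.update s (2 * i + 1 + 1) (s (2 * i + 2)) = s := Function.update_eq_self _ _
  rw [e3]
  have key : ∀ x ∈ (nb (s (2 * i + 1))).erase (s (2 * i + 2)),
      Ug n κ s * f (Function.update s (2 * i + 1 + 1) x) ≤ 0 := by
    intro x hx
    rw [Finset.mem_erase] at hx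
    obtain ⟨hxy, hx⟩ := hx
    by_cases hf : f (Function.update s (2 * i + 1 + 1) x) = 0
    · rw [hf, mul_zero]
    · have hB : Bs b0 (Function.update s (2 * i + 1 + 1) x) :=
        hs.1.upd (2 * i + 1) hc x hx (by omega)
      have noleaf : ∀ c : Fin l, s (2 * i + 1) ≠ Nd.leaf c := by
        intro c hcl
        rw [hcl, mem_nb_leaf] at hx hy
        exact hxy (hx.trans hy.symm)
      have u1 : Function.update s (2 * i + 1 + 1) x (2 * i + 1) = s (2 * i + 1) :=
        Function.update_of_ne (by omega) _ _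
      have u2 : Function.update s (2 * i + 1 + 1) x (2 * (i + 1) + 1) = s (2 * i + 1) := by
        rw [Function.update_of_ne (by omega), hc]
        rfl
      have n1 : κ i ≠ St.Z := fun hz => noleaf zl (by rw [← u1]; exact h.sz _ hB hf i hz)
      have n2 : κ (i + 1) ≠ St.Z := fun hz => noleaf zl (by rw [← u2]; exact h.sz _ hB hf _ hz)
      have n3 : κ i ≠ St.W := fun hz => noleaf wl (hs.2 i hz)
      have n4 : κ (i + 1) ≠ St.W := fun hz => noleaf wl (by rw [hc]; exact hs.2 (i + 1) hz)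
      have hκ : (κ i = St.F ∧ κ (i + 1) = St.T) ∨ (κ i = St.T ∧ κ (i + 1) = St.F) := by
        revert h1 h2 h3 n1 n2 n3 n4
        cases κ i <;> cases κ (i + 1) <;> simp
      rw [X_sign hin hκ hs.1 hc hx hxy]
      have hA : Ad b0 wl κ (Function.update s (2 * i + 2) x) := by
        refine ⟨hB, fun j hj => ?_⟩
        rw [Function.update_of_ne (by omega)]
        exact hs.2 j hj
      have := h.nn _ hA
      have e4 : (-1) * Ug n κ (Function.update s (2 * i + 2) x) *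
          f (Function.update s (2 * i + 1 + 1) x) =
          -(Ug n κ (Function.update s (2 * i + 2) x) *
          f (Function.update s (2 * i + 2) x)) := by ring
      rw [e4]
      linarith
  have hsum : Ug n κ s * ∑ x ∈ (nb (s (2 * i + 1))).erase (s (2 * i + 2)),
      μ x / μ (s (2 * i + 1)) * f (Function.update s (2 * i + 1 + 1) x) ≤ 0 := by
    rw [Finset.mul_sum]
    refine Finset.sum_nonpos fun x hx => ?_
    have e5 : Ug n κ s * (μ x / μ (s (2 * i + 1)) * f (Function.update s (2 * i + 1 + 1) x)) =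
        μ x / μ (s (2 * i + 1)) * (Ug n κ s * f (Function.update s (2 * i + 1 + 1) x)) := by ring
    rw [e5]
    exact mul_nonpos_of_nonneg_of_nonpos (div_nonneg (hμ.pos _).le (hμ.pos _).le) (key x hx)
  have hδi : 0 < δ⁻¹ := inv_pos.2 hδ
  nlinarith [mul_nonneg hδi.le (neg_nonneg.2 hsum)]

theorem coef_nonneg {δ : ℝ} {μ : Nd l → ℝ} (hμ : Eg δ μ) {x y : Nd l} (h : x ∈ nb y) :
    0 ≤ 1 - δ⁻¹ * (μ x / μ y) := by
  have hδ := hμ.delta_pos
  have := hμ.le h
  have hy := hμ.pos y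
  have e : δ⁻¹ * (μ x / μ y) = μ x / (δ * μ y) := by
    field_simp
  rw [e, sub_nonneg, div_le_one (by positivity)]
  exact this

theorem Pz_X {δ : ℝ} {μ : Nd l → ℝ} (hμ : Eg δ μ) {n : ℕ} {b0 zl wl : Fin l} {κ : ℕ → St}
    {f : (ℕ → Nd l) → ℝ} (h : Pz n b0 zl wl κ f) {i : ℕ} (hi : 1 ≤ i) (hin : i < n)
    (h1 : κ i ≠ κ (i + 1)) (h2 : κ i ≠ St.N) (h3 : κ (i + 1) ≠ St.N) :
    Pz n b0 zl wl κ (f - δ⁻¹ • Eo μ (2 * i + 1) f) := by
  have hδ := hμ.delta_pos
  have ne : ∀ s, Bs b0 s → (f - δ⁻¹ • Eo μ (2 * i + 1) f) s ≠ 0 → ∃ t, Bs b0 t ∧ f t ≠ 0 ∧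
      (∀ j, t (2 * j + 1) = s (2 * j + 1)) ∧ (∀ j, j ≠ i + 1 → t (2 * j) = s (2 * j)) := by
    intro s hs hne
    by_cases hf : f s = 0
    · have h4 : Eo μ (2 * i + 1) f s ≠ 0 := by
        intro h5
        apply hne
        rw [Pi.sub_apply, Pi.smul_apply, h5, hf]
        simp
      obtain ⟨hv, hc, x, hx, hfx⟩ := Eo_ne h4
      refine ⟨_, hs.upd (2 * i + 1) hc x hx (by omega), hfx, fun j => ?_, fun j hj => ?_⟩
      · rw [Function.update_of_ne (by omega)]
      · rw [Function.update_of_ne (by omega)]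
    · exact ⟨s, hs, hf, fun j => rfl, fun j _ => rfl⟩
  refine ⟨?_, ?_, ?_, ?_⟩
  · intro s hs
    have e0 : (f - δ⁻¹ • Eo μ (2 * i + 1) f) s = f s - δ⁻¹ * Eo μ (2 * i + 1) f s := rfl
    rw [e0]
    by_cases hc : s (2 * i + 1) = s (2 * i + 1 + 2)
    · refine le_trans ?_ (X_bound hμ h hi hin h1 h2 h3 hs hc)
      exact mul_nonneg (h.nn s hs) (coef_nonneg hμ (hs.1.1 (2 * i + 1)))
    · rw [Eo_neg μ _ f s (fun h5 => hc h5.2), mul_zero, sub_zero]
      exact h.nn s hs
  · intro s hs hf j hj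
    obtain ⟨t, ht, hft, hte, -⟩ := ne s hs hf
    rw [← hte]
    exact h.sz t ht hft j hj
  · intro s hs hf i1 i2 hj1 hj2
    obtain ⟨t, ht, hft, hte, -⟩ := ne s hs hf
    rw [← hte, ← hte]
    exact h.sw t ht hft i1 i2 hj1 hj2
  · intro s hs hf j hj1 hjn hj
    obtain ⟨t, ht, hft, -, hte⟩ := ne s hs hf
    have n1 : j ≠ i + 1 := by
      rintro rfl
      exact h3 hj
    have n2 : j + 1 ≠ i + 1 := by
      intro h4
      have h5 : j = i := by omega
      rw [h5] at hj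
      exact h2 hj
    have := h.sn t ht hft j hj1 hjn hj
    rw [hte j n1, show 2 * j + 2 = 2 * (j + 1) by ring, hte (j + 1) n2] at this
    exact this

theorem Sp_X {δ : ℝ} {μ : Nd l → ℝ} (hμ : Eg δ μ) {n : ℕ} {b0 zl wl : Fin l} {κ : ℕ → St}
    {f : (ℕ → Nd l) → ℝ} (h : Pz n b0 zl wl κ f) (hS : ∀ s, Sp b0 zl wl κ s → 0 < f s)
    (hzw : zl ≠ wl ∨ ∀ j, κ j ≠ St.W) {i : ℕ} (hi : 1 ≤ i) (hin : i < n)
    (h1 : κ i ≠ κ (i + 1)) (h2 : κ i ≠ St.N) (h3 : κ (i + 1) ≠ St.N) :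
    ∀ s, Sp b0 zl wl κ s → 0 < (f - δ⁻¹ • Eo μ (2 * i + 1) f) s := by
  intro s hs
  have hδ := hμ.delta_pos
  have e0 : (f - δ⁻¹ • Eo μ (2 * i + 1) f) s = f s - δ⁻¹ * Eo μ (2 * i + 1) f s := rfl
  rw [e0]
  have hfs := hS s hs
  by_cases hc : s (2 * i + 1) = s (2 * i + 1 + 2)
  · have hb := X_bound hμ h hi hin h1 h2 h3 hs.1 hc
    rw [Ug_sp hs, one_mul, one_mul] at hb
    refine lt_of_lt_of_le (mul_pos hfs ?_) hb
    -- both columns are ordinary
    have hc' : s (2 * i + 1) = s (2 * (i + 1) + 1) := hc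
    have hv : s (2 * i + 1) = Nd.ray 1 := by
      have hcs : ∀ j, κ j = St.Z ∨ κ j = St.W ∨ κ j = St.F ∨ κ j = St.T ∨ κ j = St.N := by
        intro j
        cases κ j <;> simp
      rcases hcs i with k | k | k | k | k
      · rcases hcs (i + 1) with m | m | m | m | m
        · exact absurd (k.trans m.symm) h1
        · rw [hs.2.2.1 i k, hs.1.2 (i + 1) m] at hc'
          injection hc' with hc'
          exact absurd hc' (hzw.resolve_right (fun hh => hh _ m))
        · rw [hc', hs.2.2.2 (i + 1) (Or.inl m)]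
        · rw [hc', hs.2.2.2 (i + 1) (Or.inr m)]
        · exact absurd m h3
      · rcases hcs (i + 1) with m | m | m | m | m
        · rw [hs.1.2 i k, hs.2.2.1 (i + 1) m] at hc'
          injection hc' with hc'
          exact absurd hc'.symm (hzw.resolve_right (fun hh => hh _ k))
        · exact absurd (k.trans m.symm) h1
        · rw [hc', hs.2.2.2 (i + 1) (Or.inl m)]
        · rw [hc', hs.2.2.2 (i + 1) (Or.inr m)]
        · exact absurd m h3
      · exact hs.2.2.2 i (Or.inl k)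
      · exact hs.2.2.2 i (Or.inr k)
      · exact absurd k h2
    have hy : s (2 * i + 2) = Nd.ray 0 := by
      rw [show 2 * i + 2 = 2 * (i + 1) by ring]
      exact hs.2.1 (i + 1)
    rw [hv, hy]
    have h5 := hμ.eig (Nd.ray 1)
    have h6 : ∑ y ∈ nb (Nd.ray 1 : Nd l), μ y = μ (Nd.ray 0) + μ (Nd.ray 2) := by
      show ∑ y ∈ {Nd.ray 0, Nd.ray 2}, μ y = _
      rw [Finset.sum_pair]
      intro h7
      injection h7 with h7
      omega
    rw [h6] at h5
    have h8 := hμ.pos (Nd.ray 2)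
    have h9 := hμ.pos (Nd.ray 1)
    have e : δ⁻¹ * (μ (Nd.ray 0) / μ (Nd.ray 1)) = μ (Nd.ray 0) / (δ * μ (Nd.ray 1)) := by
      field_simp
    rw [e, sub_pos, div_lt_one (by positivity), ← h5]
    linarith
  · rw [Eo_neg μ _ f s (fun h5 => hc h5.2), mul_zero, sub_zero]
    exact hfs

/-! ### the letter `X 0` -/

theorem X0_val {δ : ℝ} {μ : Nd l → ℝ} (hμ : Eg δ μ) {b0 : Fin l} (f : (ℕ → Nd l) → ℝ)
    {s : ℕ → Nd l} (hs : Bs b0 s) :
    (f - δ⁻¹ • Eo μ 1 f) s = if s 3 = Nd.leaf b0 then 0 else f s := by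
  have hδ := hμ.delta_pos
  have e0 : (f - δ⁻¹ • Eo μ 1 f) s = f s - δ⁻¹ * Eo μ 1 f s := rfl
  rw [e0]
  have h2 : s 2 = Nd.ray 0 := by
    have := hs.1 1
    rw [hs.2.2, mem_nb_leaf] at this
    exact this
  split_ifs with h3
  · rw [Eo_pos μ 1 f s hs.1 (by rw [hs.2.2]; exact h3.symm), hs.2.2]
    show f s - δ⁻¹ * ∑ x ∈ {Nd.ray 0}, _ = 0
    rw [Finset.sum_singleton]
    have e1 : Function.update s (1 + 1) (Nd.ray 0) = s := by
      rw [← h2]
      exact Function.update_eq_self _ _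
    rw [e1, hμ.leaf b0]
    have := (hμ.pos (Nd.leaf b0)).ne'
    field_simp
    ring
  · rw [Eo_neg μ 1 f s (fun h5 => h3 (by rw [← hs.2.2]; exact h5.2.symm)), mul_zero, sub_zero]

theorem Pz_X0 {δ : ℝ} {μ : Nd l → ℝ} (hμ : Eg δ μ) {n : ℕ} {b0 zl wl : Fin l} {κ : ℕ → St}
    {f : (ℕ → Nd l) → ℝ} (h : Pz n b0 zl wl κ f) :
    Pz n b0 zl wl κ (f - δ⁻¹ • Eo μ (2 * 0 + 1) f) := by
  have ne : ∀ s, Bs b0 s → (f - δ⁻¹ • Eo μ 1 f) s ≠ 0 → f s ≠ 0 := by
    intro s hs h1 h2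
    apply h1
    rw [X0_val hμ f hs, h2]
    simp
  refine ⟨?_, fun s hs hf => h.sz s hs (ne s hs hf), fun s hs hf => h.sw s hs (ne s hs hf),
    fun s hs hf => h.sn s hs (ne s hs hf)⟩
  intro s hs
  show 0 ≤ Ug n κ s * (f - δ⁻¹ • Eo μ 1 f) s
  rw [X0_val hμ f hs.1]
  split_ifs
  · rw [mul_zero]
  · exact h.nn s hs

theorem Sp_X0 {δ : ℝ} {μ : Nd l → ℝ} (hμ : Eg δ μ) {b0 zl wl : Fin l} {κ : ℕ → St}
    {f : (ℕ → Nd l) → ℝ} (hS : ∀ s, Sp b0 zl wl κ s → 0 < f s)
    (hz : zl ≠ b0) (hw : wl ≠ b0 ∨ ∀ j, κ j ≠ St.W) (h1 : κ 1 ≠ St.N) :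
    ∀ s, Sp b0 zl wl κ s → 0 < (f - δ⁻¹ • Eo μ (2 * 0 + 1) f) s := by
  intro s hs
  show 0 < (f - δ⁻¹ • Eo μ 1 f) s
  rw [X0_val hμ f hs.1.1, if_neg]
  · exact hS s hs
  · have hcs : κ 1 = St.Z ∨ κ 1 = St.W ∨ κ 1 = St.F ∨ κ 1 = St.T ∨ κ 1 = St.N := by
      cases κ 1 <;> simp
    rcases hcs with k | k | k | k | k
    · rw [show s 3 = s (2 * 1 + 1) from rfl, hs.2.2.1 1 k]
      intro h5
      injection h5 with h5
      exact hz h5
    · rw [show s 3 = s (2 * 1 + 1) from rfl, hs.1.2 1 k]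
      intro h5
      injection h5 with h5
      exact (hw.resolve_right (fun hh => hh _ k)) h5
    · rw [show s 3 = s (2 * 1 + 1) from rfl, hs.2.2.2 1 (Or.inl k)]
      intro h5
      cases h5
    · rw [show s 3 = s (2 * 1 + 1) from rfl, hs.2.2.2 1 (Or.inr k)]
      intro h5
      cases h5
    · exact absurd k h1

end Pool.Agent.H26.BL
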