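import Pool.Agent.H26.BL.Good2

/-!
Sweeps with a base vertex `u`, a first vertex `z` and (possibly) a last vertex `w`.
-/

set_option autoImplicit false
set_option linter.unusedVariables false

namespace Pool.Agent.H26.BL

open Pool.Agent.H207R2.BL Pool.Agent.H110R3.BP Pool.Agent.H110R3.BP2

/-- Sweeps in which the vertex `u` is always the lowest strand (not listed), which start with the
vertex `z`, and in which no strand of the vertex `w` is ever dropped. -/
inductive PrZ {V : Type} (u z w : V) : List V → Set V → Set (Sym2 V) → Prop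
  | start : PrZ u z w [z] {u, z} ∅
  | new (L1 L2 : List V) (U : Set V) (E : Set (Sym2 V)) (v : V) (h : PrZ u z w (L1 ++ L2) U E)
      (hv : v ∉ U) : PrZ u z w (L1 ++ v :: L2) (insert v U) E
  | dup (L1 L2 : List V) (U : Set V) (E : Set (Sym2 V)) (v : V)
      (h : PrZ u z w (L1 ++ v :: L2) U E) : PrZ u z w (L1 ++ v :: v :: L2) U E
  | edge (L1 L2 : List V) (U : Set V) (E : Set (Sym2 V)) (a v : V)
      (h : PrZ u z w (L1 ++ a :: v :: L2) U E) (hav : a ≠ v) :
      PrZ u z w (L1 ++ a :: v :: L2) U (insert s(a, v) E)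
  | base (L : List V) (U : Set V) (E : Set (Sym2 V)) (v : V) (h : PrZ u z w (v :: L) U E)
      (huv : u ≠ v) : PrZ u z w (v :: L) U (insert s(u, v) E)
  | drop (L1 L2 : List V) (U : Set V) (E : Set (Sym2 V)) (v : V)
      (h : PrZ u z w (L1 ++ v :: L2) U E) (hv : v ≠ w) : PrZ u z w (L1 ++ L2) U E

theorem prz_inv {V : Type} {u z w : V} (hzu : z ≠ u) {L : List V} {U : Set V} {E : Set (Sym2 V)}
    (h : PrZ u z w L U E) : u ∈ U ∧ z ∈ U ∧ (∀ v ∈ L, v ∈ U ∧ v ≠ u) ∧
      (∀ a b, s(a, b) ∈ E → a ∈ U ∧ b ∈ U ∧ a ≠ b) := by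
  induction h with
  | start =>
    refine ⟨by simp, by simp, fun v hv => ?_, fun a b hab => ?_⟩
    · have : v = z := by simpa using hv
      subst this
      exact ⟨by simp, hzu⟩
    · exact absurd hab (Set.notMem_empty _)
  | new L1 L2 U E v h hv ih =>
    refine ⟨Set.mem_insert_of_mem _ ih.1, Set.mem_insert_of_mem _ ih.2.1, fun w hw => ?_,
      fun a b hab => ?_⟩
    · rcases List.mem_append.1 hw with hw | hw
      · have h1 := ih.2.2.1 w (List.mem_append.2 (Or.inl hw))
        exact ⟨Set.mem_insert_of_mem _ h1.1, h1.2⟩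
      · rcases List.mem_cons.1 hw with hw | hw
        · rw [hw]
          refine ⟨Set.mem_insert _ _, fun hvu => hv ?_⟩
          rw [hvu]
          exact ih.1
        · have h1 := ih.2.2.1 w (List.mem_append.2 (Or.inr hw))
          exact ⟨Set.mem_insert_of_mem _ h1.1, h1.2⟩
    · obtain ⟨h1, h2, h3⟩ := ih.2.2.2 a b hab
      exact ⟨Set.mem_insert_of_mem _ h1, Set.mem_insert_of_mem _ h2, h3⟩
  | dup L1 L2 U E v h ih =>
    refine ⟨ih.1, ih.2.1, fun w hw => ih.2.2.1 w ?_, ih.2.2.2⟩
    simp only [List.mem_append, List.mem_cons] at hw ⊢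
    tauto
  | edge L1 L2 U E a v h hav ih =>
    refine ⟨ih.1, ih.2.1, ih.2.2.1, fun x y hxy => ?_⟩
    rcases Set.mem_insert_iff.1 hxy with hxy | hxy
    · have hu : a ∈ U := (ih.2.2.1 a (by simp)).1
      have hv : v ∈ U := (ih.2.2.1 v (by simp)).1
      rcases Sym2.eq_iff.1 hxy with ⟨h1, h2⟩ | ⟨h1, h2⟩
      · rw [h1, h2]
        exact ⟨hu, hv, hav⟩
      · rw [h1, h2]
        exact ⟨hv, hu, hav.symm⟩
    · exact ih.2.2.2 x y hxy
  | base L U E v h huv ih =>
    refine ⟨ih.1, ih.2.1, ih.2.2.1, fun x y hxy => ?_⟩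
    rcases Set.mem_insert_iff.1 hxy with hxy | hxy
    · have hv : v ∈ U := (ih.2.2.1 v (by simp)).1
      rcases Sym2.eq_iff.1 hxy with ⟨h1, h2⟩ | ⟨h1, h2⟩
      · rw [h1, h2]
        exact ⟨ih.1, hv, huv⟩
      · rw [h1, h2]
        exact ⟨hv, ih.1, huv.symm⟩
    · exact ih.2.2.2 x y hxy
  | drop L1 L2 U E v h hvw ih =>
    refine ⟨ih.1, ih.2.1, fun w hw => ih.2.2.1 w ?_, ih.2.2.2⟩
    simp only [List.mem_append, List.mem_cons] at hw ⊢
    tauto

open Classical in
/-- the status of a vertex -/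
noncomputable def stt {V : Type} (z w : V) (col : V → Bool) (v : V) : St :=
  if v = z then St.Z else if v = w then St.W else if col v then St.T else St.F

theorem stt_N {V : Type} (z w : V) (col : V → Bool) (v : V) : stt z w col v ≠ St.N := by
  unfold stt
  split_ifs <;> decide

theorem stt_z {V : Type} (z w : V) (col : V → Bool) : stt z w col z = St.Z := by
  unfold stt
  rw [if_pos rfl]

theorem stt_Z {V : Type} {z w : V} {col : V → Bool} {v : V} (h : v ≠ z) :
    stt z w col v ≠ St.Z := by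
  unfold stt
  rw [if_neg h]
  split_ifs <;> decide

theorem stt_W {V : Type} {z w : V} {col : V → Bool} {v : V} (h : v ≠ w) :
    stt z w col v ≠ St.W := by
  unfold stt
  split_ifs <;> decide

theorem stt_ne {V : Type} {z w : V} {col : V → Bool} {a v : V} (h : a ≠ v)
    (hc : a ≠ z → a ≠ w → v ≠ z → v ≠ w → col a ≠ col v) :
    stt z w col a ≠ stt z w col v := by
  unfold stt
  by_cases h1 : a = z
  · rw [if_pos h1]
    by_cases h2 : v = z
    · exact absurd (h1.trans h2.symm) h
    · rw [if_neg h2]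
      split_ifs <;> decide
  · rw [if_neg h1]
    by_cases h2 : v = z
    · rw [if_pos h2]
      split_ifs <;> decide
    · rw [if_neg h2]
      by_cases h3 : a = w
      · rw [if_pos h3]
        by_cases h4 : v = w
        · exact absurd (h3.trans h4.symm) h
        · rw [if_neg h4]
          split_ifs <;> decide
      · rw [if_neg h3]
        by_cases h4 : v = w
        · rw [if_pos h4]
          split_ifs <;> decide
        · rw [if_neg h4]
          have := hc h1 h3 h2 h4
          revert this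
          cases col a <;> cases col v <;> decide

/-- edges avoiding `u`, `z`, `w` join different classes -/
def BipZ {V : Type} (u z w : V) (col : V → Bool) (E : Set (Sym2 V)) : Prop :=
  ∀ a b, s(a, b) ∈ E → a ≠ u → b ≠ u → a ≠ z → a ≠ w → b ≠ z → b ≠ w → col a ≠ col b

theorem goodP_of_prz {V : Type} [Fintype V] (u z w : V) (hzu : z ≠ u) (col : V → Bool)
    {L : List V} {U : Set V} {E : Set (Sym2 V)} (h : PrZ u z w L U E)
    (hb : BipZ u z w col E) : GoodP u z (stt z w col) L E := by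
  have hsN := stt_N z w col
  induction h with
  | start => exact goodP_start u z hzu _ (stt_z z w col)
  | new L1 L2 U E v h hv ih =>
    obtain ⟨h0, h00, h1, h2⟩ := prz_inv hzu h
    have hvu : v ≠ u := by
      rintro rfl
      exact hv h0
    have hvz : v ≠ z := by
      rintro rfl
      exact hv h00
    refine goodP_new u z _ hsN L1 L2 E v hvu hvz ?_ ?_ (stt_Z hvz) ?_ ?_ (ih hb)
    · intro hv1
      exact hv (h1 v (List.mem_append_left _ hv1)).1
    · intro hv1
      exact hv (h1 v (List.mem_append_right _ hv1)).1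
    · intro hw a ha
      have hvw : v = w := by
        by_contra hne
        exact stt_W hne hw
      apply stt_W
      intro haw
      apply hv
      rw [hvw, ← haw]
      exact (h1 a ha).1
    · intro a ha
      exact hv (h2 a v ha).2.1
  | dup L1 L2 U E v h ih => exact goodP_dup u z _ hsN L1 L2 E v (ih hb)
  | edge L1 L2 U E a v h hav ih =>
    obtain ⟨h0, h00, h1, h2⟩ := prz_inv hzu h
    refine goodP_edge u z _ hsN L1 L2 E a v ?_ (ih ?_)
    · apply stt_ne hav
      intro k1 k2 k3 k4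
      exact hb a v (Set.mem_insert _ _) (h1 a (by simp)).2 (h1 v (by simp)).2 k1 k2 k3 k4
    · intro x y hxy
      exact hb x y (Set.mem_insert_of_mem _ hxy)
  | base L U E v h huv ih =>
    refine goodP_base u z _ hsN L E v (ih ?_)
    intro x y hxy
    exact hb x y (Set.mem_insert_of_mem _ hxy)
  | drop L1 L2 U E v h hvw ih =>
    exact goodP_drop u z _ hsN L1 L2 E v (stt_W hvw) (ih hb)

/-! ### events -/

theorem prz_in {V : Type} (u z w : V) (P Q : List V) (v : V) (I : List V) :
    ∀ (U : Set V) (E : Set (Sym2 V)), PrZ u z w (P ++ I ++ v :: Q) U E → (∀ a ∈ I, a ≠ v) →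
      (∀ a ∈ I, a ≠ w) →
      PrZ u z w (P ++ v :: Q) U (E ∪ {e | ∃ a ∈ I, e = s(a, v)}) := by
  induction I using List.reverseRecOn with
  | nil =>
    intro U E h _ _
    have h1 : E ∪ {e | ∃ a ∈ ([] : List V), e = s(a, v)} = E := by
      ext e
      simp
    rw [h1]
    simpa using h
  | append_singleton I a ih =>
    intro U E h hI hIw
    have h1 : P ++ (I ++ [a]) ++ v :: Q = (P ++ I) ++ a :: v :: Q := by simp
    rw [h1] at h
    have h2 := PrZ.edge (P ++ I) Q U E a v h (hI a (by simp))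
    have h3 := PrZ.drop (P ++ I) (v :: Q) U _ a h2 (hIw a (by simp))
    have h4 := ih U _ h3 (fun w hw => hI w (by simp [hw])) (fun w hw => hIw w (by simp [hw]))
    have h5 : insert s(a, v) E ∪ {e | ∃ w ∈ I, e = s(w, v)} =
        E ∪ {e | ∃ w ∈ I ++ [a], e = s(w, v)} := by
      ext e
      simp only [Set.mem_union, Set.mem_insert_iff, Set.mem_ofPred_eq, List.mem_append,
        List.mem_singleton]
      constructor
      · rintro ((he | he) | ⟨w, hw, he⟩)
        · exact Or.inr ⟨a, Or.inr rfl, he⟩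
        · exact Or.inl he
        · exact Or.inr ⟨w, Or.inl hw, he⟩
      · rintro (he | ⟨w, hw | hw, he⟩)
        · exact Or.inl (Or.inr he)
        · exact Or.inr ⟨w, hw, he⟩
        · exact Or.inl (Or.inl (by rw [← hw]; exact he))
    rw [← h5]
    exact h4

theorem prz_rep {V : Type} (u z w : V) (P Q : List V) (v : V) (U : Set V) (E : Set (Sym2 V))
    (h : PrZ u z w (P ++ v :: Q) U E) (b : ℕ) :
    PrZ u z w (P ++ v :: (List.replicate b v ++ Q)) U E := by
  induction b with
  | zero => simpa using h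
  | succ b ih =>
    have h1 := PrZ.dup P (List.replicate b v ++ Q) U E v ih
    simpa [List.replicate_succ] using h1

theorem prz_fin {V : Type} (u z w : V) (P Q : List V) (v : V) (b : ℕ) (U : Set V)
    (E : Set (Sym2 V)) (h : PrZ u z w (P ++ v :: Q) U E) (hv : v ≠ w) :
    PrZ u z w (P ++ List.replicate b v ++ Q) U E := by
  cases b with
  | zero =>
    have h3 := PrZ.drop P Q _ _ v h hv
    simpa using h3
  | succ b =>
    have h3 := prz_rep u z w P Q v _ _ h b
    simpa [List.replicate_succ] using h3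

/-- a vertex not adjacent to the base -/
theorem prz_event {V : Type} (u z w : V) (P Q I : List V) (v : V) (b : ℕ) (U : Set V)
    (E : Set (Sym2 V)) (h : PrZ u z w (P ++ I ++ Q) U E) (hv : v ∉ U) (hI : ∀ a ∈ I, a ≠ v)
    (hIw : ∀ a ∈ I, a ≠ w) (hvw : v ≠ w) :
    PrZ u z w (P ++ List.replicate b v ++ Q) (insert v U) (E ∪ {e | ∃ a ∈ I, e = s(a, v)}) := by
  have h1 := PrZ.new (P ++ I) Q U E v h hv
  have h2 := prz_in u z w P Q v I (insert v U) E h1 hI hIw
  exact prz_fin u z w P Q v b _ _ h2 hvw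

/-- a vertex adjacent to the base -/
theorem prz_event_base {V : Type} (u z w : V) (Q I : List V) (v : V) (b : ℕ) (U : Set V)
    (E : Set (Sym2 V)) (h : PrZ u z w (I ++ Q) U E) (hv : v ∉ U) (huv : u ≠ v)
    (hI : ∀ a ∈ I, a ≠ v) (hIw : ∀ a ∈ I, a ≠ w) (hvw : v ≠ w) :
    PrZ u z w (List.replicate b v ++ Q) (insert v U)
      (insert s(u, v) (E ∪ {e | ∃ a ∈ I, e = s(a, v)})) := by
  have h1 := PrZ.new I Q U E v h hv
  have h2 := prz_in u z w [] Q v I (insert v U) E h1 hI hIw
  have h3 := PrZ.base Q _ _ v h2 huv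
  exact prz_fin u z w [] Q v b _ _ h3 hvw

/-- the vertices to the left of `t` -/
def Ut {V : Type} (u : V) (x : {v : V // v ≠ u} → ℝ) (t : ℝ) : Set V :=
  {u} ∪ {v | ∃ hv : v ≠ u, x ⟨v, hv⟩ < t}

/-- the edges to the left of `t` -/
def Et {V : Type} (G : SimpleGraph V) (u : V) (x : {v : V // v ≠ u} → ℝ) (t : ℝ) :
    Set (Sym2 V) :=
  {e | ∃ a c : {v : V // v ≠ u}, e = s(a.1, c.1) ∧ G.Adj a.1 c.1 ∧ x a < t ∧ x c < t} ∪
    {e | ∃ a : {v : V // v ≠ u}, e = s(u, a.1) ∧ G.Adj u a.1 ∧ x a < t}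

theorem Ut_step {V : Type} (u : V) (x : {v : V // v ≠ u} → ℝ) (v : {v : V // v ≠ u})
    (t0 t : ℝ) (h1 : t0 < x v) (h2 : x v < t) (hno : ∀ z, z ≠ v → x z < t0 ∨ t < x z) :
    Ut u x t = insert v.1 (Ut u x t0) := by
  have hcase : ∀ z, x z < t → z = v ∨ x z < t0 := by
    intro z h1
    by_cases hzv : z = v
    · exact Or.inl hzv
    · rcases hno z hzv with h2 | h2
      · exact Or.inr h2
      · exact absurd h1 (not_lt.2 h2.le)
  ext z
  simp only [Ut, Set.mem_union, Set.mem_singleton_iff, Set.mem_setOf_eq, Set.mem_insert_iff]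
  constructor
  · rintro (h1 | ⟨hzu, h1⟩)
    · exact Or.inr (Or.inl h1)
    · rcases hcase _ h1 with h2 | h2
      · exact Or.inl (congrArg Subtype.val h2)
      · exact Or.inr (Or.inr ⟨hzu, h2⟩)
  · rintro (h3 | h3 | ⟨hzu, h3⟩)
    · subst h3
      exact Or.inr ⟨v.2, h2⟩
    · exact Or.inl h3
    · exact Or.inr ⟨hzu, h3.trans (h1.trans h2)⟩

theorem Et_base {V : Type} (G : SimpleGraph V) (u : V) (x : {v : V // v ≠ u} → ℝ)
    (v : {v : V // v ≠ u})
    (t0 t : ℝ) (h1 : t0 < x v) (h2 : x v < t) (hno : ∀ z, z ≠ v → x z < t0 ∨ t < x z)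
    (huv : G.Adj u v.1) (I : List ({v : V // v ≠ u} × {v : V // v ≠ u}))
    (hI : ∀ e, e ∈ I ↔ (G.Adj e.1.1 v.1 ∧ e.2 = v ∧ x e.1 < x v)) :
    Et G u x t = insert s(u, v.1) (Et G u x t0 ∪
      {e | ∃ a ∈ I.map (fun e => e.1.1), e = s(a, v.1)}) := by
  have hcase : ∀ z, x z < t → z = v ∨ x z < t0 := by
    intro z h1
    by_cases hzv : z = v
    · exact Or.inl hzv
    · rcases hno z hzv with h2 | h2
      · exact Or.inr h2
      · exact absurd h1 (not_lt.2 h2.le)
  have hmon : ∀ z, x z < t0 → x z < t := fun z h => h.trans (h1.trans h2)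
  have hIm : ∀ a : {v : V // v ≠ u}, G.Adj a.1 v.1 → x a < t0 →
      a.1 ∈ I.map (fun e => e.1.1) := by
    intro a k1 k2
    exact List.mem_map.2 ⟨(a, v), (hI (a, v)).2 ⟨k1, rfl, k2.trans h1⟩, rfl⟩
  ext e
  simp only [Et, Set.mem_union, Set.mem_setOf_eq, Set.mem_insert_iff]
  constructor
  · rintro (⟨a, c, rfl, hadj, ha, hc⟩ | ⟨a, rfl, hadj, ha⟩)
    · rcases hcase a ha with ha' | ha'
      · rcases hcase c hc with hc' | hc'
        · exact absurd (congrArg Subtype.val (ha'.trans hc'.symm)) hadj.ne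
        · subst ha'
          exact Or.inr (Or.inr ⟨c.1, hIm c hadj.symm hc', Sym2.eq_swap⟩)
      · rcases hcase c hc with hc' | hc'
        · subst hc'
          exact Or.inr (Or.inr ⟨a.1, hIm a hadj ha', rfl⟩)
        · exact Or.inr (Or.inl (Or.inl ⟨a, c, rfl, hadj, ha', hc'⟩))
    · rcases hcase a ha with ha' | ha'
      · subst ha'
        exact Or.inl rfl
      · exact Or.inr (Or.inl (Or.inr ⟨a, rfl, hadj, ha'⟩))
  · rintro (rfl | (⟨a, c, rfl, hadj, ha, hc⟩ | ⟨a, rfl, hadj, ha⟩) | ⟨w, hw, rfl⟩)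
    · exact Or.inr ⟨v, rfl, huv, h2⟩
    · exact Or.inl ⟨a, c, rfl, hadj, hmon _ ha, hmon _ hc⟩
    · exact Or.inr ⟨a, rfl, hadj, hmon _ ha⟩
    · obtain ⟨e, he, rfl⟩ := List.mem_map.1 hw
      obtain ⟨k1, -, k3⟩ := (hI e).1 he
      exact Or.inl ⟨e.1, v, rfl, k1, k3.trans h2, h2⟩

theorem Et_nobase {V : Type} (G : SimpleGraph V) (u : V) (x : {v : V // v ≠ u} → ℝ)
    (v : {v : V // v ≠ u})
    (t0 t : ℝ) (h1 : t0 < x v) (h2 : x v < t) (hno : ∀ z, z ≠ v → x z < t0 ∨ t < x z)
    (huv : ¬ G.Adj u v.1) (I : List ({v : V // v ≠ u} × {v : V // v ≠ u}))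
    (hI : ∀ e, e ∈ I ↔ (G.Adj e.1.1 v.1 ∧ e.2 = v ∧ x e.1 < x v)) :
    Et G u x t = Et G u x t0 ∪ {e | ∃ a ∈ I.map (fun e => e.1.1), e = s(a, v.1)} := by
  have hcase : ∀ z, x z < t → z = v ∨ x z < t0 := by
    intro z h1
    by_cases hzv : z = v
    · exact Or.inl hzv
    · rcases hno z hzv with h2 | h2
      · exact Or.inr h2
      · exact absurd h1 (not_lt.2 h2.le)
  have hmon : ∀ z, x z < t0 → x z < t := fun z h => h.trans (h1.trans h2)
  have hIm : ∀ a : {v : V // v ≠ u}, G.Adj a.1 v.1 → x a < t0 →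
      a.1 ∈ I.map (fun e => e.1.1) := by
    intro a k1 k2
    exact List.mem_map.2 ⟨(a, v), (hI (a, v)).2 ⟨k1, rfl, k2.trans h1⟩, rfl⟩
  ext e
  simp only [Et, Set.mem_union, Set.mem_setOf_eq]
  constructor
  · rintro (⟨a, c, rfl, hadj, ha, hc⟩ | ⟨a, rfl, hadj, ha⟩)
    · rcases hcase a ha with ha' | ha'
      · rcases hcase c hc with hc' | hc'
        · exact absurd (congrArg Subtype.val (ha'.trans hc'.symm)) hadj.ne
        · subst ha'
          exact Or.inr ⟨c.1, hIm c hadj.symm hc', Sym2.eq_swap⟩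
      · rcases hcase c hc with hc' | hc'
        · subst hc'
          exact Or.inr ⟨a.1, hIm a hadj ha', rfl⟩
        · exact Or.inl (Or.inl ⟨a, c, rfl, hadj, ha', hc'⟩)
    · rcases hcase a ha with ha' | ha'
      · subst ha'
        exact absurd hadj huv
      · exact Or.inl (Or.inr ⟨a, rfl, hadj, ha'⟩)
  · rintro ((⟨a, c, rfl, hadj, ha, hc⟩ | ⟨a, rfl, hadj, ha⟩) | ⟨w, hw, rfl⟩)
    · exact Or.inl ⟨a, c, rfl, hadj, hmon _ ha, hmon _ hc⟩
    · exact Or.inr ⟨a, rfl, hadj, hmon _ ha⟩
    · obtain ⟨e, he, rfl⟩ := List.mem_map.1 hw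
      obtain ⟨k1, -, k3⟩ := (hI e).1 he
      exact Or.inl ⟨e.1, v, rfl, k1, k3.trans h2, h2⟩

theorem prz_aux {V : Type} [Finite V] (G : SimpleGraph V) (u z w : V) (hzu : z ≠ u)
    (x y : {v : V // v ≠ u} → ℝ) (g : {v : V // v ≠ u} → {v : V // v ≠ u} → ℝ → ℝ)
    (h : Mono (G.comap (fun v : {v : V // v ≠ u} => v.1)) x y g)
    (hvis : ∀ v : {v : V // v ≠ u}, G.Adj u v.1 → ∀ a c : {v : V // v ≠ u}, G.Adj a.1 c.1 →
      x a < x v → x v < x c → y v < g a c (x v))
    (hleft : ∀ v : {v : V // v ≠ u}, v.1 ≠ z → x ⟨z, hzu⟩ < x v) (n : ℕ) :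
    ∀ (t : ℝ), x ⟨z, hzu⟩ < t → Set.ncard {v | x v < t} = n → (∀ v, x v ≠ t) →
    (∀ v : {v : V // v ≠ u}, x v < t → v.1 ≠ w) →
    ∀ (l : List ({v : V // v ≠ u} × {v : V // v ≠ u})),
    IsList (G.comap (fun v : {v : V // v ≠ u} => v.1)) x g t l →
    PrZ u z w (l.map (fun e => e.1.1)) (Ut u x t) (Et G u x t) := by
  induction n using Nat.strong_induction_on with
  | _ n ih =>
    intro t hzt hn ht htw l hl
    have hne : Set.Nonempty {v | x v < t} := ⟨⟨z, hzu⟩, hzt⟩
    obtain ⟨v, hv, hmax⟩ := Set.exists_max_image {v | x v < t} x (Set.toFinite _) hne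
    obtain ⟨t0, ht0, hz⟩ := U39_t0 x (x v)
    have hvt : x v < t := hv
    have hno : ∀ z, z ≠ v → x z < t0 ∨ t < x z := by
      intro z hzv
      rcases lt_or_gt_of_ne (ht z) with h1 | h1
      · refine Or.inl (hz z (lt_of_le_of_ne (hmax z h1) fun h2 => hzv (h.inj h2)))
      · exact Or.inr h1
    obtain ⟨P, O, Q, I, hPOQ, hO, hI, hl', hP⟩ := event_list1 h v t0 t ht0 hvt hno l hl
    have hI2 : ∀ e, e ∈ I ↔ (G.Adj e.1.1 v.1 ∧ e.2 = v ∧ x e.1 < x v) := hI
    have hmon : ∀ z, x z < t0 → x z < t := fun z h1 => h1.trans (ht0.trans hvt)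
    have hOr : O.map (fun e => e.1.1) = List.replicate O.length v.1 := by
      rw [List.eq_replicate_iff]
      refine ⟨List.length_map _, ?_⟩
      intro w hw
      obtain ⟨e, he, rfl⟩ := List.mem_map.1 hw
      exact congrArg Subtype.val (hO e he)
    have hU := Ut_step u x v t0 t ht0 hvt hno
    by_cases hvz : v.1 = z
    · -- the first vertex
      have hvz' : v = ⟨z, hzu⟩ := Subtype.ext hvz
      have hempty : ∀ a, ¬ x a < t0 := by
        intro a ha
        have h1 : x a < x v := ha.trans ht0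
        by_cases haz : a.1 = z
        · have : a = v := Subtype.ext (haz.trans hvz.symm)
          rw [this] at h1
          exact lt_irrefl _ h1
        · have := hleft a haz
          rw [← hvz'] at this
          exact lt_asymm this h1
      have hnil : P ++ I ++ Q = [] := by
        rw [List.eq_nil_iff_forall_not_mem]
        intro e he
        exact hempty _ ((hl'.mem e).1 he).2.1
      have hP0 : P = [] := by
        rcases List.append_eq_nil_iff.1 hnil with ⟨h1, h2⟩
        exact (List.append_eq_nil_iff.1 h1).1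
      have hI0 : I = [] := by
        rcases List.append_eq_nil_iff.1 hnil with ⟨h1, h2⟩
        exact (List.append_eq_nil_iff.1 h1).2
      have hQ0 : Q = [] := (List.append_eq_nil_iff.1 hnil).2
      have hU0 : Ut u x t0 = {u} := by
        ext a
        simp only [Ut, Set.mem_union, Set.mem_singleton_iff, Set.mem_setOf_eq]
        constructor
        · rintro (h1 | ⟨_, h1⟩)
          · exact h1
          · exact absurd h1 (hempty _)
        · exact fun h1 => Or.inl h1
      have hE0 : Et G u x t0 = ∅ := by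
        ext e
        simp only [Et, Set.mem_union, Set.mem_setOf_eq, Set.mem_empty_iff_false, iff_false]
        rintro (⟨a, c, -, -, ha, -⟩ | ⟨a, -, -, ha⟩)
        · exact hempty a ha
        · exact hempty a ha
      have hU1 : Ut u x t = {u, z} := by
        rw [hU, hU0, hvz, Set.pair_comm]
      have hzw : z ≠ w := by
        have := htw v hvt
        rwa [hvz] at this
      by_cases huv : G.Adj u v.1
      · have hE := Et_base G u x v t0 t ht0 hvt hno huv I hI2
        have h1 := PrZ.base (u := u) (z := z) (w := w) [] _ _ z PrZ.start hzu.symm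
        have h2 := prz_fin u z w [] [] z O.length _ _ h1 hzw
        rw [hPOQ, hP0, hQ0, List.nil_append, List.append_nil, hOr, hU1, hE, hE0, hI0, hvz]
        simpa using h2
      · have hE := Et_nobase G u x v t0 t ht0 hvt hno huv I hI2
        have h2 := prz_fin u z w [] [] z O.length _ _ (PrZ.start (u := u) (z := z) (w := w)) hzw
        rw [hPOQ, hP0, hQ0, List.nil_append, List.append_nil, hOr, hU1, hE, hE0, hI0, hvz]
        simpa using h2
    · have hzt0 : x ⟨z, hzu⟩ < t0 := by
        rcases hno ⟨z, hzu⟩ (fun h1 => hvz (by rw [← h1])) with h1 | h1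
        · exact h1
        · exact absurd hzt (not_lt.2 h1.le)
      have hvU : v.1 ∉ Ut u x t0 := by
        rintro (h1 | ⟨h1, h2⟩)
        · exact v.2 h1
        · exact absurd h2 (not_lt.2 (le_of_lt ht0))
      have hlt : Set.ncard {z | x z < t0} < n := by
        rw [← hn]
        apply Set.ncard_lt_ncard _ (Set.toFinite _)
        refine ⟨fun z h1 => hmon z h1, fun h1 => ?_⟩
        have h2 : x v < t0 := h1 hvt
        exact absurd h2 (not_lt.2 (le_of_lt ht0))
      have ht0' : ∀ z, x z ≠ t0 := by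
        intro z hz0
        by_cases hzv : z = v
        · subst hzv
          exact absurd hz0 ht0.ne'
        · rcases hno z hzv with h2 | h2
          · exact absurd hz0 h2.ne
          · linarith
      have hp := ih _ hlt t0 hzt0 rfl ht0' (fun v hv => htw v (hmon v hv)) _ hl'
      rw [List.map_append, List.map_append] at hp
      have hI' : ∀ w ∈ I.map (fun e => e.1.1), w ≠ v.1 := by
        intro w hw
        obtain ⟨e, he, rfl⟩ := List.mem_map.1 hw
        intro h2
        have h3 := ((hI2 e).1 he).2.2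
        rw [Subtype.ext h2] at h3
        exact lt_irrefl _ h3
      have hIw : ∀ a ∈ I.map (fun e => e.1.1), a ≠ w := by
        intro a ha
        obtain ⟨e, he, rfl⟩ := List.mem_map.1 ha
        exact htw e.1 (((hI2 e).1 he).2.2.trans hvt)
      by_cases huv : G.Adj u v.1
      · have hP0 : P = [] := by
          rw [List.eq_nil_iff_forall_not_mem]
          intro e he
          obtain ⟨h1, h2, h3, h4⟩ := hP e he
          exact absurd h4 (not_lt.2 (hvis v huv e.1 e.2 h1 h2 h3).le)
        rw [hP0, List.map_nil, List.nil_append] at hp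
        have hp' := prz_event_base u z w (Q.map (fun e => e.1.1)) (I.map (fun e => e.1.1)) v.1
          O.length _ _ hp hvU huv.ne hI' hIw (htw v hvt)
        rw [hPOQ, hP0, List.nil_append, List.map_append, hOr, hU,
          Et_base G u x v t0 t ht0 hvt hno huv I hI2]
        exact hp'
      · have hp' := prz_event u z w (P.map (fun e => e.1.1)) (Q.map (fun e => e.1.1))
          (I.map (fun e => e.1.1)) v.1 O.length _ _ hp hvU hI' hIw (htw v hvt)
        rw [hPOQ, List.map_append, List.map_append, hOr, hU,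
          Et_nobase G u x v t0 t ht0 hvt hno huv I hI2]
        exact hp'

end Pool.Agent.H26.BL
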