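import Pool.Graph.R_seed8.H110R3.BP2.Core

/-!
The path representation of the Temperley-Lieb relations on the graph consisting of a ray
`ray 0, ray 1, ray 2, ...` and `l` further neighbours (leaves) of `ray 0`.
-/

set_option autoImplicit false
set_option linter.unusedVariables false

namespace Pool.Agent.H26.BL

open Pool.Agent.H207R2.BL Pool.Agent.H110R3.BP

/-- nodes of the graph -/
inductive Nd (l : ℕ) : Type
  | leaf (j : Fin l) : Nd l
  | ray (m : ℕ) : Nd l
  deriving DecidableEq

/-- neighbours of a node -/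
def nb {l : ℕ} : Nd l → Finset (Nd l)
  | Nd.leaf _ => {Nd.ray 0}
  | Nd.ray 0 => insert (Nd.ray 1) ((Finset.univ : Finset (Fin l)).image Nd.leaf)
  | Nd.ray (m + 1) => {Nd.ray m, Nd.ray (m + 2)}

theorem mem_nb_leaf {l : ℕ} (x : Nd l) (j : Fin l) : x ∈ nb (Nd.leaf j) ↔ x = Nd.ray 0 := by
  simp [nb]

theorem mem_nb_zero {l : ℕ} (x : Nd l) :
    x ∈ nb (Nd.ray 0 : Nd l) ↔ x = Nd.ray 1 ∨ ∃ j, x = Nd.leaf j := by
  simp only [nb, Finset.mem_insert, Finset.mem_image, Finset.mem_univ, true_and]
  constructor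
  · rintro (h | ⟨j, rfl⟩)
    · exact Or.inl h
    · exact Or.inr ⟨j, rfl⟩
  · rintro (h | ⟨j, rfl⟩)
    · exact Or.inl h
    · exact Or.inr ⟨j, rfl⟩

theorem mem_nb_succ {l : ℕ} (x : Nd l) (m : ℕ) :
    x ∈ nb (Nd.ray (m + 1) : Nd l) ↔ x = Nd.ray m ∨ x = Nd.ray (m + 2) := by
  simp [nb]

theorem nb_symm {l : ℕ} {x y : Nd l} (h : x ∈ nb y) : y ∈ nb x := by
  rcases y with j | (_ | m)
  · rw [mem_nb_leaf] at h
    subst h
    rw [mem_nb_zero]
    exact Or.inr ⟨j, rfl⟩
  · rw [mem_nb_zero] at h
    rcases h with rfl | ⟨j, rfl⟩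
    · rw [mem_nb_succ]; exact Or.inl rfl
    · rw [mem_nb_leaf]
  · rw [mem_nb_succ] at h
    rcases h with rfl | rfl
    · rcases m with _ | m
      · rw [mem_nb_zero]; exact Or.inl rfl
      · rw [mem_nb_succ]; exact Or.inr rfl
    · rw [mem_nb_succ]; exact Or.inl rfl

/-- the class of a node: `true` for the leaves and the odd rays -/
def par {l : ℕ} : Nd l → Bool
  | Nd.leaf _ => true
  | Nd.ray m => decide (m % 2 = 1)

theorem par_nb {l : ℕ} {x y : Nd l} (h : x ∈ nb y) : par x = !par y := by
  rcases y with j | (_ | m)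
  · rw [mem_nb_leaf] at h
    subst h
    rfl
  · rw [mem_nb_zero] at h
    rcases h with rfl | ⟨j, rfl⟩ <;> rfl
  · rw [mem_nb_succ] at h
    rcases h with rfl | rfl
    · simp only [par]
      rw [← decide_not, decide_eq_decide]
      omega
    · simp only [par]
      rw [← decide_not, decide_eq_decide]
      omega

/-- an odd node has at most two neighbours -/
theorem nb_two {l : ℕ} {v x y g : Nd l} (hv : par v = true) (hx : x ∈ nb v) (hy : y ∈ nb v)
    (hxy : x ≠ y) (hg : g ∈ nb v) : (g = x ↔ ¬ g = y) := by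
  rcases v with j | (_ | m)
  · rw [mem_nb_leaf] at hx hy
    exact absurd (hx.trans hy.symm) hxy
  · simp [par] at hv
  · rw [mem_nb_succ] at hx hy hg
    constructor
    · rintro rfl h
      exact hxy h
    · intro h
      rcases hx with rfl | rfl <;> rcases hy with rfl | rfl <;> rcases hg with rfl | rfl <;>
        simp_all

/-- Positive eigenvectors. -/
structure Eg {l : ℕ} (δ : ℝ) (μ : Nd l → ℝ) : Prop where
  pos : ∀ x, 0 < μ x
  eig : ∀ x, ∑ y ∈ nb x, μ y = δ * μ x

theorem Eg.leaf {l : ℕ} {δ : ℝ} {μ : Nd l → ℝ} (h : Eg δ μ) (j : Fin l) :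
    μ (Nd.ray 0) = δ * μ (Nd.leaf j) := by
  have := h.eig (Nd.leaf j)
  simpa [nb] using this

theorem Eg.delta_pos {l : ℕ} {δ : ℝ} {μ : Nd l → ℝ} (h : Eg δ μ) : 0 < δ := by
  have h1 := h.eig (Nd.ray 1)
  have h2 : 0 < ∑ y ∈ nb (Nd.ray 1 : Nd l), μ y :=
    Finset.sum_pos (fun y _ => h.pos y) ⟨Nd.ray 0, by rw [mem_nb_succ]; exact Or.inl rfl⟩
  rw [h1] at h2
  exact (pos_iff_pos_of_mul_pos h2).2 (h.pos _)

theorem Eg.le {l : ℕ} {δ : ℝ} {μ : Nd l → ℝ} (h : Eg δ μ) {x y : Nd l} (hx : x ∈ nb y) :
    μ x ≤ δ * μ y := by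
  rw [← h.eig y]
  exact Finset.single_le_sum (fun z _ => (h.pos z).le) hx

/-- paths -/
def Vd {l : ℕ} (s : ℕ → Nd l) : Prop := ∀ i, s (i + 1) ∈ nb (s i)

theorem Vd.back {l : ℕ} {s : ℕ → Nd l} (h : Vd s) (i : ℕ) : s i ∈ nb (s (i + 1)) :=
  nb_symm (h i)

/-- changing position `j+1` of a path -/
theorem Vd.upd {l : ℕ} {s : ℕ → Nd l} (h : Vd s) (j : ℕ) (hj : s j = s (j + 2)) (x : Nd l)
    (hx : x ∈ nb (s j)) : Vd (Function.update s (j + 1) x) := by
  intro i
  by_cases h1 : i = j
  · subst h1
    rw [Function.update_self, Function.update_of_ne (by omega)]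
    exact hx
  · by_cases h2 : i = j + 1
    · subst h2
      rw [Function.update_self, Function.update_of_ne (by omega)]
      show s (j + 2) ∈ nb x
      rw [← hj]
      exact nb_symm hx
    · rw [Function.update_of_ne h2, Function.update_of_ne (by omega)]
      exact h i

open Classical in
/-- the generator at the positions `j, j+1, j+2` -/
noncomputable def Eo {l : ℕ} (μ : Nd l → ℝ) (j : ℕ) :
    ((ℕ → Nd l) → ℝ) →ₗ[ℝ] ((ℕ → Nd l) → ℝ) where
  toFun f s := if Vd s ∧ s j = s (j + 2) then
      ∑ x ∈ nb (s j), μ x / μ (s j) * f (Function.update s (j + 1) x) else 0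
  map_add' f g := by
    funext s
    simp only [Pi.add_apply]
    split_ifs
    · rw [← Finset.sum_add_distrib]
      exact Finset.sum_congr rfl fun x _ => by ring
    · simp
  map_smul' r f := by
    funext s
    simp only [Pi.smul_apply, smul_eq_mul, RingHom.id_apply]
    split_ifs
    · rw [Finset.mul_sum]
      exact Finset.sum_congr rfl fun x _ => by ring
    · simp

open Classical in
theorem Eo_pos {l : ℕ} (μ : Nd l → ℝ) (j : ℕ) (f : (ℕ → Nd l) → ℝ) (s : ℕ → Nd l) (h : Vd s)
    (hj : s j = s (j + 2)) :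
    Eo μ j f s = ∑ x ∈ nb (s j), μ x / μ (s j) * f (Function.update s (j + 1) x) := by
  show (if Vd s ∧ s j = s (j + 2) then
      ∑ x ∈ nb (s j), μ x / μ (s j) * f (Function.update s (j + 1) x) else 0) = _
  rw [if_pos ⟨h, hj⟩]

open Classical in
theorem Eo_neg {l : ℕ} (μ : Nd l → ℝ) (j : ℕ) (f : (ℕ → Nd l) → ℝ) (s : ℕ → Nd l)
    (h : ¬ (Vd s ∧ s j = s (j + 2))) : Eo μ j f s = 0 := by
  show (if Vd s ∧ s j = s (j + 2) then
      ∑ x ∈ nb (s j), μ x / μ (s j) * f (Function.update s (j + 1) x) else 0) = _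
  rw [if_neg h]

theorem Eo_upd {l : ℕ} (μ : Nd l → ℝ) (j : ℕ) (f : (ℕ → Nd l) → ℝ) (s : ℕ → Nd l) (h : Vd s)
    (hj : s j = s (j + 2)) (x : Nd l) (hx : x ∈ nb (s j)) :
    Eo μ j f (Function.update s (j + 1) x) = Eo μ j f s := by
  have e0 : Function.update s (j + 1) x j = s j := Function.update_of_ne (by omega) _ _
  have e2 : Function.update s (j + 1) x (j + 2) = s (j + 2) := Function.update_of_ne (by omega) _ _
  rw [Eo_pos μ j f _ (h.upd j hj x hx) (by rw [e0, e2]; exact hj), Eo_pos μ j f s h hj, e0]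
  refine Finset.sum_congr rfl fun y _ => ?_
  rw [Function.update_idem]

theorem Eo_sq {l : ℕ} {δ : ℝ} {μ : Nd l → ℝ} (hμ : Eg δ μ) (j : ℕ) :
    Eo μ j * Eo μ j = δ • Eo μ j := by
  refine LinearMap.ext fun f => funext fun s => ?_
  rw [Module.End.mul_apply, LinearMap.smul_apply, Pi.smul_apply, smul_eq_mul]
  by_cases h : Vd s ∧ s j = s (j + 2)
  · rw [Eo_pos μ j _ s h.1 h.2]
    have e : ∀ x ∈ nb (s j), μ x / μ (s j) * Eo μ j f (Function.update s (j + 1) x) =
        μ x * (Eo μ j f s / μ (s j)) := by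
      intro x hx
      rw [Eo_upd μ j f s h.1 h.2 x hx]
      ring
    rw [Finset.sum_congr rfl e, ← Finset.sum_mul, hμ.eig]
    have := (hμ.pos (s j)).ne'
    field_simp
  · rw [Eo_neg μ j _ s h, Eo_neg μ j _ s h, mul_zero]

theorem Eo_zig1 {l : ℕ} {δ : ℝ} {μ : Nd l → ℝ} (hμ : Eg δ μ) (j : ℕ) :
    Eo μ j * Eo μ (j + 1) * Eo μ j = Eo μ j := by
  refine LinearMap.ext fun f => funext fun s => ?_
  rw [Module.End.mul_apply, Module.End.mul_apply]
  by_cases h : Vd s ∧ s j = s (j + 2)
  · obtain ⟨hv, hj⟩ := h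
    have h3 : s (j + 3) ∈ nb (s j) := by rw [hj]; exact hv (j + 2)
    rw [Eo_pos μ j _ s hv hj, Finset.sum_eq_single (s (j + 3))]
    · have hv1 : Vd (Function.update s (j + 1) (s (j + 3))) := hv.upd j hj _ h3
      have e1 : Function.update s (j + 1) (s (j + 3)) (j + 1) = s (j + 3) :=
        Function.update_self _ _ _
      have e3 : Function.update s (j + 1) (s (j + 3)) (j + 1 + 2) = s (j + 3) :=
        Function.update_of_ne (by omega) _ _
      have e2 : Function.update s (j + 1) (s (j + 3)) (j + 2) = s (j + 2) :=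
        Function.update_of_ne (by omega) _ _
      have e0 : Function.update s (j + 1) (s (j + 3)) j = s j :=
        Function.update_of_ne (by omega) _ _
      have h4 : s j ∈ nb (s (j + 3)) := nb_symm h3
      rw [Eo_pos μ (j + 1) _ _ hv1 (by rw [e1, e3]), e1, Finset.sum_eq_single (s j)]
      · have e4 : Function.update (Function.update s (j + 1) (s (j + 3))) (j + 1 + 1) (s j) =
            Function.update s (j + 1) (s (j + 3)) := by
          have e5 : s j = Function.update s (j + 1) (s (j + 3)) (j + 1 + 1) := by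
            rw [e2]; exact hj
          conv_lhs => rw [e5]
          exact Function.update_eq_self _ _
        rw [e4, Eo_upd μ j f s hv hj _ h3]
        have p1 := (hμ.pos (s j)).ne'
        have p2 := (hμ.pos (s (j + 3))).ne'
        field_simp
      · intro y hy hne
        rw [Eo_neg μ j, mul_zero]
        rintro ⟨-, h5⟩
        apply hne
        rw [Function.update_of_ne (by omega), e0, Function.update_self] at h5
        exact h5.symm
      · intro h5
        exact absurd h4 h5
    · intro x hx hne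
      rw [Eo_neg μ (j + 1), mul_zero]
      rintro ⟨-, h5⟩
      apply hne
      rw [Function.update_self, Function.update_of_ne (by omega)] at h5
      exact h5
    · intro h5
      exact absurd h3 h5
  · rw [Eo_neg μ j _ s h, Eo_neg μ j _ s h]

theorem Eo_zig2 {l : ℕ} {δ : ℝ} {μ : Nd l → ℝ} (hμ : Eg δ μ) (j : ℕ) :
    Eo μ (j + 1) * Eo μ j * Eo μ (j + 1) = Eo μ (j + 1) := by
  refine LinearMap.ext fun f => funext fun s => ?_
  rw [Module.End.mul_apply, Module.End.mul_apply]
  by_cases h : Vd s ∧ s (j + 1) = s (j + 1 + 2)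
  · obtain ⟨hv, hj⟩ := h
    have h0 : s j ∈ nb (s (j + 1)) := hv.back j
    rw [Eo_pos μ (j + 1) _ s hv hj, Finset.sum_eq_single (s j)]
    · have hv1 : Vd (Function.update s (j + 1 + 1) (s j)) := hv.upd (j + 1) hj _ h0
      have e0 : Function.update s (j + 1 + 1) (s j) j = s j := Function.update_of_ne (by omega) _ _
      have e1 : Function.update s (j + 1 + 1) (s j) (j + 1) = s (j + 1) :=
        Function.update_of_ne (by omega) _ _
      have e2 : Function.update s (j + 1 + 1) (s j) (j + 2) = s j := Function.update_self _ _ _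
      have e3 : Function.update s (j + 1 + 1) (s j) (j + 1 + 2) = s (j + 1 + 2) :=
        Function.update_of_ne (by omega) _ _
      have h1 : s (j + 1) ∈ nb (s j) := hv j
      rw [Eo_pos μ j _ _ hv1 (by rw [e0, e2]), e0, Finset.sum_eq_single (s (j + 1))]
      · have e4 : Function.update (Function.update s (j + 1 + 1) (s j)) (j + 1) (s (j + 1)) =
            Function.update s (j + 1 + 1) (s j) := by
          have e5 : s (j + 1) = Function.update s (j + 1 + 1) (s j) (j + 1) := e1.symm
          conv_lhs => rw [e5]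
          exact Function.update_eq_self _ _
        rw [e4, Eo_upd μ (j + 1) f s hv hj _ h0]
        have p1 := (hμ.pos (s j)).ne'
        have p2 := (hμ.pos (s (j + 1))).ne'
        field_simp
      · intro y hy hne
        rw [Eo_neg μ (j + 1), mul_zero]
        rintro ⟨-, h5⟩
        apply hne
        rw [Function.update_self, Function.update_of_ne (by omega), e3, ← hj] at h5
        exact h5
      · intro h5
        exact absurd h1 h5
    · intro x hx hne
      rw [Eo_neg μ j, mul_zero]
      rintro ⟨-, h5⟩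
      apply hne
      rw [Function.update_of_ne (by omega)] at h5
      have e : Function.update s (j + 1 + 1) x (j + 2) = x := Function.update_self _ _ _
      rw [e] at h5
      exact h5.symm
    · intro h5
      exact absurd h0 h5
  · rw [Eo_neg μ (j + 1) _ s h, Eo_neg μ (j + 1) _ s h]

theorem Eo_comm {l : ℕ} (μ : Nd l → ℝ) (i j : ℕ) (hij : i + 2 ≤ j) :
    Eo μ i * Eo μ j = Eo μ j * Eo μ i := by
  refine LinearMap.ext fun f => funext fun s => ?_
  rw [Module.End.mul_apply, Module.End.mul_apply]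
  by_cases hv : Vd s
  · by_cases hi : s i = s (i + 2)
    · by_cases hj : s j = s (j + 2)
      · have a : ∀ x : Nd l, Function.update s (i + 1) x j = s j := fun x =>
          Function.update_of_ne (by omega) _ _
        have a2 : ∀ x : Nd l, Function.update s (i + 1) x (j + 2) = s (j + 2) := fun x =>
          Function.update_of_ne (by omega) _ _
        have b : ∀ x : Nd l, Function.update s (j + 1) x i = s i := fun x =>
          Function.update_of_ne (by omega) _ _
        have b2 : ∀ x : Nd l, Function.update s (j + 1) x (i + 2) = s (i + 2) := fun x =>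
          Function.update_of_ne (by omega) _ _
        rw [Eo_pos μ i _ s hv hi, Eo_pos μ j _ s hv hj]
        have e1 : ∀ x ∈ nb (s i), μ x / μ (s i) * Eo μ j f (Function.update s (i + 1) x) =
            ∑ y ∈ nb (s j), μ x / μ (s i) * (μ y / μ (s j) *
              f (Function.update (Function.update s (i + 1) x) (j + 1) y)) := by
          intro x hx
          rw [Eo_pos μ j _ _ (hv.upd i hi x hx) (by rw [a, a2]; exact hj), a, Finset.mul_sum]
        have e2 : ∀ y ∈ nb (s j), μ y / μ (s j) * Eo μ i f (Function.update s (j + 1) y) =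
            ∑ x ∈ nb (s i), μ y / μ (s j) * (μ x / μ (s i) *
              f (Function.update (Function.update s (j + 1) y) (i + 1) x)) := by
          intro y hy
          rw [Eo_pos μ i _ _ (hv.upd j hj y hy) (by rw [b, b2]; exact hi), b, Finset.mul_sum]
        rw [Finset.sum_congr rfl e1, Finset.sum_congr rfl e2, Finset.sum_comm]
        refine Finset.sum_congr rfl fun y _ => Finset.sum_congr rfl fun x _ => ?_
        rw [Function.update_comm (by omega : i + 1 ≠ j + 1)]
        ring
      · rw [Eo_neg μ j _ s (fun h => hj h.2), Eo_pos μ i _ s hv hi]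
        refine Finset.sum_eq_zero fun x hx => ?_
        rw [Eo_neg μ j, mul_zero]
        rintro ⟨-, h⟩
        rw [Function.update_of_ne (by omega), Function.update_of_ne (by omega)] at h
        exact hj h
    · rw [Eo_neg μ i _ s (fun h => hi h.2)]
      by_cases hj : s j = s (j + 2)
      · rw [Eo_pos μ j _ s hv hj]
        symm
        refine Finset.sum_eq_zero fun x hx => ?_
        rw [Eo_neg μ i, mul_zero]
        rintro ⟨-, h⟩
        rw [Function.update_of_ne (by omega), Function.update_of_ne (by omega)] at h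
        exact hi h
      · rw [Eo_neg μ j _ s (fun h => hj h.2)]
  · rw [Eo_neg μ i _ s (fun h => hv h.1), Eo_neg μ j _ s (fun h => hv h.1)]

/-- The path representation. -/
noncomputable def pTL {l : ℕ} (M : ℕ) {δ : ℝ} {μ : Nd l → ℝ} (hμ : Eg δ μ) (q : ℝ)
    (hq : q = δ ^ 2) : TL M q (Module.End ℝ ((ℕ → Nd l) → ℝ)) where
  e j := (if Even j then δ else δ⁻¹) • Eo μ j
  sq j hj := by
    have hδ := hμ.delta_pos
    rw [smul_mul_smul_comm, Eo_sq hμ j]
    by_cases h : Even j
    · simp only [h, if_true, hq, smul_smul]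
      congr 1
      ring
    · simp only [h, if_false, smul_smul]
      congr 1
      field_simp
  r1 j hj := by
    have hδ := hμ.delta_pos
    rw [smul_mul_smul_comm, smul_mul_smul_comm, Eo_zig1 hμ j]
    congr 1
    by_cases h : Even j
    · have h' : ¬ Even (j + 1) := by simpa [Nat.even_add_one] using h
      simp only [h, h', if_true, if_false]
      field_simp
    · have h' : Even (j + 1) := by simpa [Nat.even_add_one] using h
      simp only [h, h', if_true, if_false]
      field_simp
  r2 j hj := by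
    have hδ := hμ.delta_pos
    rw [smul_mul_smul_comm, smul_mul_smul_comm, Eo_zig2 hμ j]
    congr 1
    by_cases h : Even j
    · have h' : ¬ Even (j + 1) := by simpa [Nat.even_add_one] using h
      simp only [h, h', if_true, if_false]
      field_simp
    · have h' : Even (j + 1) := by simpa [Nat.even_add_one] using h
      simp only [h, h', if_true, if_false]
      field_simp
  comm i j hij hj := by
    rw [smul_mul_smul_comm, smul_mul_smul_comm, Eo_comm μ i j hij]
    congr 1
    exact mul_comm _ _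

theorem pTL_even {l : ℕ} (M : ℕ) {δ : ℝ} {μ : Nd l → ℝ} (hμ : Eg δ μ) (q : ℝ)
    (hq : q = δ ^ 2) (i : ℕ) : (pTL M hμ q hq).e (2 * i) = δ • Eo μ (2 * i) := by
  show (if Even (2 * i) then δ else δ⁻¹) • Eo μ (2 * i) = _
  rw [if_pos (even_two_mul i)]

theorem pTL_odd {l : ℕ} (M : ℕ) {δ : ℝ} {μ : Nd l → ℝ} (hμ : Eg δ μ) (q : ℝ)
    (hq : q = δ ^ 2) (i : ℕ) : (pTL M hμ q hq).e (2 * i + 1) = δ⁻¹ • Eo μ (2 * i + 1) := by
  show (if Even (2 * i + 1) then δ else δ⁻¹) • Eo μ (2 * i + 1) = _
  rw [if_neg (by simp)]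

end Pool.Agent.H26.BL
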