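import Pool.Agent.H26.BL.Eval

/-!
The pinned state in the path representation, and positivity of the values of words.
-/

set_option autoImplicit false
set_option linter.unusedVariables false

namespace Pool.Agent.H26.BL

open Pool.Agent.H207R2.BL Pool.Agent.H110R3.BP Pool.Agent.H110R3.BP2

variable {l : ℕ}

open Classical in
/-- the initial vector: column `1` is pinned, all further columns are fresh -/
noncomputable def vz (n : ℕ) (b0 zl : Fin l) : (ℕ → Nd l) → ℝ := fun s =>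
  if Bs b0 s ∧ s 3 = Nd.leaf zl ∧ ∀ i, 1 ≤ i → i ≤ n → s (2 * i) = s (2 * i + 2) then 1 else 0

/-- the initial statuses -/
def k0 : ℕ → St := fun i => if i = 1 then St.Z else St.N

theorem vz_nonneg (n : ℕ) (b0 zl : Fin l) (s : ℕ → Nd l) : 0 ≤ vz n b0 zl s := by
  unfold vz
  split_ifs <;> norm_num

theorem vz_ne {n : ℕ} {b0 zl : Fin l} {s : ℕ → Nd l} (h : vz n b0 zl s ≠ 0) :
    Bs b0 s ∧ s 3 = Nd.leaf zl ∧ ∀ i, 1 ≤ i → i ≤ n → s (2 * i) = s (2 * i + 2) := by
  classical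
  by_contra hc
  apply h
  unfold vz
  rw [if_neg hc]

theorem vz_one {n : ℕ} {b0 zl : Fin l} {s : ℕ → Nd l} (h : Bs b0 s) (h3 : s 3 = Nd.leaf zl)
    (hg : ∀ i, 1 ≤ i → i ≤ n → s (2 * i) = s (2 * i + 2)) : vz n b0 zl s = 1 := by
  unfold vz
  rw [if_pos ⟨h, h3, hg⟩]

theorem vz_zero {n : ℕ} {b0 zl : Fin l} {s : ℕ → Nd l}
    (h : ¬ (Bs b0 s ∧ s 3 = Nd.leaf zl ∧ ∀ i, 1 ≤ i → i ≤ n → s (2 * i) = s (2 * i + 2))) :
    vz n b0 zl s = 0 := by
  unfold vz
  rw [if_neg h]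

theorem Pz_vz (n : ℕ) (b0 zl wl : Fin l) : Pz n b0 zl wl k0 (vz n b0 zl) := by
  refine ⟨?_, ?_, ?_, ?_⟩
  · intro s _
    have : Ug n k0 s = 1 := by
      unfold Ug
      refine Finset.prod_eq_one fun j _ => ?_
      unfold fac k0
      rw [if_neg]
      split_ifs <;> simp
    rw [this, one_mul]
    exact vz_nonneg n b0 zl s
  · intro s _ hf i hi
    have : i = 1 := by
      by_contra h
      simp [k0, h] at hi
    subst this
    exact (vz_ne hf).2.1
  · intro s _ hf i j hi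
    exfalso
    unfold k0 at hi
    split_ifs at hi
  · intro s _ hf i h1 hn _
    exact (vz_ne hf).2.2 i h1 hn

theorem Sp_vz (n : ℕ) (b0 zl wl : Fin l) (s : ℕ → Nd l) (h : Sp b0 zl wl k0 s) :
    0 < vz n b0 zl s := by
  rw [vz_one h.1.1 (h.2.2.1 1 (by simp [k0]))]
  · exact one_pos
  · intro i _ _
    rw [h.2.1 i, show 2 * i + 2 = 2 * (i + 1) by ring, h.2.1 (i + 1)]

theorem T_cons' {M : ℕ} {q : ℝ} {A : Type} [Ring A] [Algebra ℝ A] (S : TL M q A) (a : Let)
    (w : List Let) : T S (a :: w) = ev S a * T S w := by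
  simp [T]

theorem word_Pz {δ : ℝ} {μ : Nd l → ℝ} (hμ : Eg δ μ) (q : ℝ) (hq : q = δ ^ 2) (n : ℕ)
    (b0 zl wl : Fin l) (w : List Let) (κ : ℕ → St) (h : OKP w κ) (hr : ∀ a ∈ w, InR1 n a) :
    Pz n b0 zl wl κ (T (pTL (2 * n + 1) hμ q hq) w (vz n b0 zl)) ∧
      (zl ≠ b0 → ((wl ≠ b0 ∧ zl ≠ wl) ∨ ∀ j, κ j ≠ St.W) → ∀ s, Sp b0 zl wl κ s →
        0 < T (pTL (2 * n + 1) hμ q hq) w (vz n b0 zl) s) := by
  induction h with
  | nil =>
    have e : T (pTL (2 * n + 1) hμ q hq) [] (vz n b0 zl) = vz n b0 zl := by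
      simp [T]
    rw [e]
    exact ⟨Pz_vz n b0 zl wl, fun _ _ s hs => Sp_vz n b0 zl wl s hs⟩
  | C i b w κ hi h hb hW hbW ih =>
    obtain ⟨i1, i2⟩ := ih (fun a ha => hr a (List.mem_cons_of_mem _ ha))
    have e : T (pTL (2 * n + 1) hμ q hq) (Let.C i :: w) (vz n b0 zl) =
        δ • Eo μ (2 * i) (T (pTL (2 * n + 1) hμ q hq) w (vz n b0 zl)) := by
      rw [T_cons', Module.End.mul_apply]
      show (pTL (2 * n + 1) hμ q hq).e (2 * i) _ = _
      rw [pTL_even]
      rfl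
    rw [e]
    refine ⟨Pz_C hμ i1 hi hb hW hbW, fun h1 h2 => Sp_C hμ i1 (i2 h1 ?_) hi hb hW⟩
    rcases h2 with h2 | h2
    · exact Or.inl h2
    · right
      intro j hj
      by_cases hji : j = i
      · rw [hji] at hj
        obtain ⟨j', hj', hj''⟩ := hW hj
        exact h2 j' (by rw [Function.update_of_ne hj']; exact hj'')
      · exact h2 j (by rw [Function.update_of_ne hji]; exact hj)
  | J i b w κ hi h hb h1 h2 h3 ih =>
    obtain ⟨i1, i2⟩ := ih (fun a ha => hr a (List.mem_cons_of_mem _ ha))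
    have hin : i < n := (hr _ List.mem_cons_self).2
    have e : T (pTL (2 * n + 1) hμ q hq) (Let.J i :: w) (vz n b0 zl) =
        δ⁻¹ • Eo μ (2 * i + 1) (T (pTL (2 * n + 1) hμ q hq) w (vz n b0 zl)) := by
      rw [T_cons', Module.End.mul_apply]
      show (pTL (2 * n + 1) hμ q hq).e (2 * i + 1) _ = _
      rw [pTL_odd]
      rfl
    rw [e]
    refine ⟨Pz_J hμ i1 hi hin hb h1 h2 h3, fun k1 k2 => Sp_J hμ i1 (i2 k1 ?_) hi hin hb h1 h2⟩
    rcases k2 with k2 | k2
    · exact Or.inl k2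
    · right
      intro j hj
      apply k2 j
      by_cases hj2 : j = i + 1
      · rw [hj2, Function.update_self]
        rw [hj2] at hj
        rcases h2 with h2 | h2
        · rw [← h2, hj]
        · rw [h2] at hj; cases hj
      · rw [Function.update_of_ne hj2]
        by_cases hj1 : j = i
        · rw [hj1, Function.update_self]
          rw [hj1] at hj
          rcases h1 with h1 | h1
          · rw [← h1, hj]
          · rw [h1] at hj; cases hj
        · rw [Function.update_of_ne hj1, hj]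
  | X i w κ hi h h1 h2 h3 ih =>
    obtain ⟨i1, i2⟩ := ih (fun a ha => hr a (List.mem_cons_of_mem _ ha))
    have hin : i < n := hr _ List.mem_cons_self
    have e : T (pTL (2 * n + 1) hμ q hq) (Let.X i :: w) (vz n b0 zl) =
        T (pTL (2 * n + 1) hμ q hq) w (vz n b0 zl) -
        δ⁻¹ • Eo μ (2 * i + 1) (T (pTL (2 * n + 1) hμ q hq) w (vz n b0 zl)) := by
      rw [T_cons', Module.End.mul_apply]
      show (1 - (pTL (2 * n + 1) hμ q hq).e (2 * i + 1)) _ = _
      rw [pTL_odd, LinearMap.sub_apply]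
      rfl
    rw [e]
    exact ⟨Pz_X hμ i1 hi hin h1 h2 h3, fun k1 k2 => Sp_X hμ i1 (i2 k1 k2)
      (k2.imp (fun k => k.2) id) hi hin h1 h2 h3⟩
  | X0 w κ h h1 ih =>
    obtain ⟨i1, i2⟩ := ih (fun a ha => hr a (List.mem_cons_of_mem _ ha))
    have e : T (pTL (2 * n + 1) hμ q hq) (Let.X 0 :: w) (vz n b0 zl) =
        T (pTL (2 * n + 1) hμ q hq) w (vz n b0 zl) -
        δ⁻¹ • Eo μ (2 * 0 + 1) (T (pTL (2 * n + 1) hμ q hq) w (vz n b0 zl)) := by
      rw [T_cons', Module.End.mul_apply]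
      show (1 - (pTL (2 * n + 1) hμ q hq).e (2 * 0 + 1)) _ = _
      rw [pTL_odd, LinearMap.sub_apply]
      rfl
    rw [e]
    exact ⟨Pz_X0 hμ i1, fun k1 k2 => Sp_X0 hμ (i2 k1 k2) k1 (k2.imp (fun k => k.1) id) h1⟩

/-! ### the state -/

theorem vz_even {δ : ℝ} {μ : Nd l → ℝ} (hμ : Eg δ μ) (q : ℝ) (hq : q = δ ^ 2) (n : ℕ)
    (b0 zl : Fin l) (i : ℕ) (hi : 2 ≤ i) (hin : i ≤ n) :
    (pTL (2 * n + 1) hμ q hq).e (2 * i) (vz n b0 zl) = q • vz n b0 zl := by
  funext s
  rw [pTL_even, LinearMap.smul_apply, Pi.smul_apply, Pi.smul_apply, smul_eq_mul, smul_eq_mul]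
  by_cases hc : Vd s ∧ s (2 * i) = s (2 * i + 2)
  · rw [Eo_pos μ _ _ s hc.1 hc.2]
    have e : ∀ x ∈ nb (s (2 * i)), μ x / μ (s (2 * i)) *
        vz n b0 zl (Function.update s (2 * i + 1) x) = μ x * (vz n b0 zl s / μ (s (2 * i))) := by
      intro x hx
      have e1 : vz n b0 zl (Function.update s (2 * i + 1) x) = vz n b0 zl s := by
        have e2 : (Bs b0 (Function.update s (2 * i + 1) x) ∧
            Function.update s (2 * i + 1) x 3 = Nd.leaf zl ∧ ∀ j, 1 ≤ j → j ≤ n →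
            Function.update s (2 * i + 1) x (2 * j) =
              Function.update s (2 * i + 1) x (2 * j + 2)) ↔
            (Bs b0 s ∧ s 3 = Nd.leaf zl ∧ ∀ j, 1 ≤ j → j ≤ n → s (2 * j) = s (2 * j + 2)) := by
          have u : ∀ j, j ≠ 2 * i + 1 → Function.update s (2 * i + 1) x j = s j := fun j hj =>
            Function.update_of_ne hj _ _
          constructor
          · rintro ⟨⟨_, a2, a3⟩, a4, a5⟩
            rw [u 0 (by omega)] at a2
            rw [u 1 (by omega)] at a3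
            rw [u 3 (by omega)] at a4
            refine ⟨⟨hc.1, a2, a3⟩, a4, fun j h1 h2 => ?_⟩
            have := a5 j h1 h2
            rwa [u (2 * j) (by omega), u (2 * j + 2) (by omega)] at this
          · rintro ⟨a1, a4, a5⟩
            refine ⟨a1.upd (2 * i) hc.2 x hx (by omega), ?_, fun j h1 h2 => ?_⟩
            · rw [u 3 (by omega)]; exact a4
            · rw [u (2 * j) (by omega), u (2 * j + 2) (by omega)]
              exact a5 j h1 h2
        by_cases hh : Bs b0 s ∧ s 3 = Nd.leaf zl ∧ ∀ j, 1 ≤ j → j ≤ n → s (2 * j) = s (2 * j + 2)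
        · obtain ⟨g1, g2, g3⟩ := e2.2 hh
          rw [vz_one g1 g2 g3, vz_one hh.1 hh.2.1 hh.2.2]
        · rw [vz_zero hh, vz_zero (fun g => hh (e2.1 g))]
      rw [e1]
      ring
    rw [Finset.sum_congr rfl e, ← Finset.sum_mul, hμ.eig, hq]
    have := (hμ.pos (s (2 * i))).ne'
    field_simp
  · rw [Eo_neg μ _ _ s hc, vz_zero]
    · simp
    · rintro ⟨a1, a2, a3⟩
      exact hc ⟨a1.1, a3 i (by omega) hin⟩

theorem e1_val {δ : ℝ} {μ : Nd l → ℝ} (hμ : Eg δ μ) {b0 : Fin l} (f : (ℕ → Nd l) → ℝ)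
    {s : ℕ → Nd l} (hs : Bs b0 s) :
    (δ⁻¹ • Eo μ 1 f) s = if s 3 = Nd.leaf b0 then f s else 0 := by
  have h := X0_val hμ f hs
  have e0 : (f - δ⁻¹ • Eo μ 1 f) s = f s - (δ⁻¹ • Eo μ 1 f) s := rfl
  rw [e0] at h
  split_ifs at h ⊢ <;> linarith

theorem vz_e1 {δ : ℝ} {μ : Nd l → ℝ} (hμ : Eg δ μ) (q : ℝ) (hq : q = δ ^ 2) (n : ℕ)
    (b0 zl : Fin l) :
    (pTL (2 * n + 1) hμ q hq).e 1 (vz n b0 zl) =
      (if zl = b0 then (1 : ℝ) else 0) • vz n b0 zl := by
  funext s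
  have e0 : (pTL (2 * n + 1) hμ q hq).e 1 = δ⁻¹ • Eo μ 1 := pTL_odd (2 * n + 1) hμ q hq 0
  rw [e0, LinearMap.smul_apply, Pi.smul_apply (ite _ _ _), smul_eq_mul]
  by_cases hs : Bs b0 s
  · rw [e1_val hμ _ hs]
    by_cases hv : vz n b0 zl s = 0
    · rw [hv, mul_zero]
      split_ifs <;> rfl
    · have h3 := (vz_ne hv).2.1
      by_cases hz : zl = b0
      · rw [if_pos hz, one_mul, if_pos (by rw [h3, hz])]
      · rw [if_neg hz, zero_mul, if_neg]
        rw [h3]
        intro h4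
        injection h4 with h4
        exact hz h4
  · have h1 : vz n b0 zl s = 0 := vz_zero (fun h => hs h.1)
    rw [h1, mul_zero]
    show δ⁻¹ * Eo μ 1 (vz n b0 zl) s = 0
    by_contra h2
    have h3 : Eo μ 1 (vz n b0 zl) s ≠ 0 := fun h => h2 (by rw [h, mul_zero])
    obtain ⟨hv, hc, x, hx, hf⟩ := Eo_ne h3
    have h4 := (vz_ne hf).1
    apply hs
    refine ⟨hv, ?_, ?_⟩
    · have := h4.2.1
      rwa [Function.update_of_ne (by omega)] at this
    · have := h4.2.2
      rwa [Function.update_of_ne (by omega)] at this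

/-- the final path -/
def sst (b0 wl : Fin l) : ℕ → Nd l := fun j =>
  if j % 2 = 0 then Nd.ray 0 else if j = 3 then Nd.leaf wl else Nd.leaf b0

theorem sst_even (b0 wl : Fin l) (i : ℕ) : sst b0 wl (2 * i) = Nd.ray 0 := by
  unfold sst
  rw [if_pos (by omega)]

theorem sst_odd (b0 wl : Fin l) (i : ℕ) :
    sst b0 wl (2 * i + 1) = if i = 1 then Nd.leaf wl else Nd.leaf b0 := by
  unfold sst
  rw [if_neg (by omega)]
  exact if_congr (by omega) rfl rfl

theorem sst_Bs (b0 wl : Fin l) : Bs b0 (sst b0 wl) := by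
  refine ⟨?_, rfl, rfl⟩
  intro i
  rcases Nat.even_or_odd' i with ⟨j, rfl | rfl⟩
  · rw [sst_even, sst_odd, mem_nb_zero]
    split_ifs
    · exact Or.inr ⟨_, rfl⟩
    · exact Or.inr ⟨_, rfl⟩
  · rw [show 2 * j + 1 + 1 = 2 * (j + 1) by ring, sst_even, sst_odd]
    split_ifs <;> rw [mem_nb_leaf]

theorem vz_sst (n : ℕ) (b0 zl wl : Fin l) :
    vz n b0 zl (sst b0 wl) = if zl = wl then 1 else 0 := by
  split_ifs with h
  · refine vz_one (sst_Bs b0 wl) ?_ ?_
    · rw [h]; rfl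
    · intro i _ _
      rw [sst_even, show 2 * i + 2 = 2 * (i + 1) by ring, sst_even]
  · refine vz_zero ?_
    rintro ⟨_, h2, _⟩
    have h3 : sst b0 wl 3 = Nd.leaf wl := rfl
    rw [h3] at h2
    injection h2 with h2
    exact h h2.symm

theorem vz_e2 {δ : ℝ} {μ : Nd l → ℝ} (hμ : Eg δ μ) (q : ℝ) (hq : q = δ ^ 2) (n : ℕ)
    (b0 zl wl : Fin l) :
    (pTL (2 * n + 1) hμ q hq).e 2 (vz n b0 zl) (sst b0 wl) = 1 := by
  have e0 : (pTL (2 * n + 1) hμ q hq).e 2 = δ • Eo μ (2 * 1) := pTL_even (2 * n + 1) hμ q hq 1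
  have hδ := hμ.delta_pos
  rw [e0]
  show δ * Eo μ (2 * 1) (vz n b0 zl) (sst b0 wl) = 1
  have hs := sst_Bs b0 wl
  have s2 : sst b0 wl (2 * 1) = Nd.ray 0 := rfl
  have s4 : sst b0 wl (2 * 1 + 2) = Nd.ray 0 := rfl
  have hc : sst b0 wl (2 * 1) = sst b0 wl (2 * 1 + 2) := by rw [s2, s4]
  rw [Eo_pos μ _ _ _ hs.1 hc, s2, Finset.sum_eq_single (Nd.leaf zl)]
  · have hm : (Nd.leaf zl : Nd l) ∈ nb (sst b0 wl (2 * 1)) := by
      rw [s2, mem_nb_zero]; exact Or.inr ⟨zl, rfl⟩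
    rw [vz_one (hs.upd (2 * 1) hc _ hm (by omega)), hμ.leaf zl]
    · have := (hμ.pos (Nd.leaf zl)).ne'
      field_simp
    · exact Function.update_self (β := fun _ => Nd l) 3 (Nd.leaf zl) (sst b0 wl)
    · intro i _ _
      rw [Function.update_of_ne (by omega), Function.update_of_ne (by omega), sst_even,
        show 2 * i + 2 = 2 * (i + 1) by ring, sst_even]
  · intro x _ hx
    rw [vz_zero, mul_zero]
    rintro ⟨_, h2, _⟩
    apply hx
    rw [← h2]
    exact (Function.update_self (β := fun _ => Nd l) 3 x (sst b0 wl)).symm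
  · intro h
    exfalso
    apply h
    rw [mem_nb_zero]
    exact Or.inr ⟨zl, rfl⟩

/-- the columns `2, …, n` -/
def l2 (n : ℕ) : List ℕ := (List.range (n - 1)).map (fun i => i + 1)

theorem mem_l2 (n i : ℕ) : i ∈ l2 n ↔ 1 ≤ i ∧ i < n := by
  unfold l2
  rw [List.mem_map]
  constructor
  · rintro ⟨a, ha, rfl⟩
    have := List.mem_range.1 ha
    omega
  · rintro ⟨h1, h2⟩
    exact ⟨i - 1, List.mem_range.2 (by omega), by omega⟩

/-- detaching the columns `2, …, n` -/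
def aC (n : ℕ) : List Let := (l2 n).map (fun i => Let.C (i + 1))

theorem comm_e1 {M : ℕ} {q : ℝ} {A : Type} [Ring A] [Algebra ℝ A] (S : TL M q A) (L : List ℕ)
    (hL : ∀ i ∈ L, 1 ≤ i ∧ 2 * (i + 1) < M) :
    T S (L.map (fun i => Let.C (i + 1))) * S.e 1 =
      S.e 1 * T S (L.map (fun i => Let.C (i + 1))) := by
  induction L with
  | nil => simp [T]
  | cons i L ih =>
    have h1 := ih (fun i hi => hL i (List.mem_cons_of_mem _ hi))
    have h2 := hL i List.mem_cons_self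
    have h3 := S.comm 1 (2 * (i + 1)) (by omega) h2.2
    rw [U27_T_cons, mul_assoc, h1, ← mul_assoc, ← h3, mul_assoc]

theorem aC_vz {δ : ℝ} {μ : Nd l → ℝ} (hμ : Eg δ μ) (q : ℝ) (hq : q = δ ^ 2) (n : ℕ)
    (b0 zl : Fin l) (L : List ℕ) (hL : ∀ i ∈ L, 1 ≤ i ∧ i < n) :
    T (pTL (2 * n + 1) hμ q hq) (L.map (fun i => Let.C (i + 1))) (vz n b0 zl) =
      q ^ L.length • vz n b0 zl := by
  induction L with
  | nil => simp [T]
  | cons i L ih =>
    have h1 := ih (fun i hi => hL i (List.mem_cons_of_mem _ hi))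
    have h2 := hL i List.mem_cons_self
    rw [U27_T_cons, Module.End.mul_apply, h1, map_smul,
      vz_even hμ q hq n b0 zl (i + 1) (by omega) (by omega), smul_smul, List.length_cons, pow_succ]

/-- the pinned state in the path representation -/
noncomputable def pst {δ : ℝ} {μ : Nd l → ℝ} (hμ : Eg δ μ) (q : ℝ) (hq : q = δ ^ 2) (n : ℕ)
    (hn : 1 ≤ n) (b0 zl wl : Fin l) :
    StP (pTL (2 * n + 1) hμ q hq) (if zl = b0 then 1 else 0) (if wl = b0 then 1 else 0)
      (if zl = wl then 1 else 0) where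
  φ :=
    { toFun := fun x => T (pTL (2 * n + 1) hμ q hq) (aC n) (x (vz n b0 zl)) (sst b0 wl)
      map_add' := by
        intro x y
        simp only [LinearMap.add_apply, map_add, Pi.add_apply]
      map_smul' := by
        intro r x
        simp only [LinearMap.smul_apply, map_smul, Pi.smul_apply, RingHom.id_apply] }
  left := by
    intro j h4 hj he x
    obtain ⟨k, rfl⟩ : ∃ k, j = 2 * (k + 1) := by
      obtain ⟨r, hr⟩ := he
      exact ⟨r - 1, by omega⟩
    have hl : ∀ i ∈ l2 n, 2 * (i + 1) < 2 * n + 1 := by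
      intro i hi
      have := (mem_l2 n i).1 hi
      omega
    have e1 := U27_eig (pTL (2 * n + 1) hμ q hq) k hj (l2 n) hl ((mem_l2 n k).2 (by omega))
    have e2 := U27_commT (pTL (2 * n + 1) hμ q hq) k hj (l2 n) hl
    show T (pTL (2 * n + 1) hμ q hq) (aC n)
      (((pTL (2 * n + 1) hμ q hq).e (2 * (k + 1)) * x) (vz n b0 zl)) (sst b0 wl) =
      q * T (pTL (2 * n + 1) hμ q hq) (aC n) (x (vz n b0 zl)) (sst b0 wl)
    rw [Module.End.mul_apply, ← Module.End.mul_apply]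
    unfold aC
    rw [e2, e1]
    rfl
  right := by
    intro j h4 hj he x
    obtain ⟨k, rfl⟩ : ∃ k, j = 2 * k := by
      obtain ⟨r, hr⟩ := he
      exact ⟨r, by omega⟩
    show T (pTL (2 * n + 1) hμ q hq) (aC n)
      ((x * (pTL (2 * n + 1) hμ q hq).e (2 * k)) (vz n b0 zl)) (sst b0 wl) =
      q * T (pTL (2 * n + 1) hμ q hq) (aC n) (x (vz n b0 zl)) (sst b0 wl)
    rw [Module.End.mul_apply, vz_even hμ q hq n b0 zl k (by omega) (by omega), map_smul, map_smul]
    rfl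
  left1 := by
    intro x
    have hl : ∀ i ∈ l2 n, 1 ≤ i ∧ 2 * (i + 1) < 2 * n + 1 := by
      intro i hi
      have := (mem_l2 n i).1 hi
      omega
    have e2 := comm_e1 (pTL (2 * n + 1) hμ q hq) (l2 n) hl
    show T (pTL (2 * n + 1) hμ q hq) (aC n)
      (((pTL (2 * n + 1) hμ q hq).e 1 * x) (vz n b0 zl)) (sst b0 wl) =
      (if wl = b0 then 1 else 0) *
        T (pTL (2 * n + 1) hμ q hq) (aC n) (x (vz n b0 zl)) (sst b0 wl)
    rw [Module.End.mul_apply, ← Module.End.mul_apply]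
    unfold aC
    rw [e2, Module.End.mul_apply]
    have e0 : (pTL (2 * n + 1) hμ q hq).e 1 = δ⁻¹ • Eo μ 1 := pTL_odd (2 * n + 1) hμ q hq 0
    rw [e0, LinearMap.smul_apply, e1_val hμ _ (sst_Bs b0 wl)]
    have h3 : sst b0 wl 3 = Nd.leaf wl := rfl
    rw [h3]
    by_cases h : wl = b0
    · rw [if_pos h, if_pos (by rw [h]), one_mul]
    · rw [if_neg h, if_neg, zero_mul]
      intro h4
      injection h4 with h4
      exact h h4
  right1 := by
    intro x
    show T (pTL (2 * n + 1) hμ q hq) (aC n)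
      ((x * (pTL (2 * n + 1) hμ q hq).e 1) (vz n b0 zl)) (sst b0 wl) =
      (if zl = b0 then 1 else 0) *
        T (pTL (2 * n + 1) hμ q hq) (aC n) (x (vz n b0 zl)) (sst b0 wl)
    rw [Module.End.mul_apply, vz_e1 hμ q hq n b0 zl, map_smul, map_smul]
    rfl
  one := by
    have hl : ∀ i ∈ l2 n, 2 * (i + 1) < 2 * n + 1 := by
      intro i hi
      have := (mem_l2 n i).1 hi
      omega
    have e2 := U27_commT (pTL (2 * n + 1) hμ q hq) 0 (by omega) (l2 n) hl
    have e3 := aC_vz hμ q hq n b0 zl (l2 n) (fun i hi => (mem_l2 n i).1 hi)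
    show T (pTL (2 * n + 1) hμ q hq) (aC n)
      ((1 : Module.End ℝ ((ℕ → Nd l) → ℝ)) (vz n b0 zl)) (sst b0 wl) =
      (if zl = wl then 1 else 0) *
        T (pTL (2 * n + 1) hμ q hq) (aC n) ((pTL (2 * n + 1) hμ q hq).e 2 (vz n b0 zl))
          (sst b0 wl)
    have e4 : T (pTL (2 * n + 1) hμ q hq) (aC n) ((pTL (2 * n + 1) hμ q hq).e 2 (vz n b0 zl)) =
        (pTL (2 * n + 1) hμ q hq).e 2 (T (pTL (2 * n + 1) hμ q hq) (aC n) (vz n b0 zl)) := by
      rw [← Module.End.mul_apply, ← Module.End.mul_apply]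
      exact congrArg (fun g => g (vz n b0 zl)) e2
    rw [e4, Module.End.one_apply]
    unfold aC
    rw [e3, map_smul, Pi.smul_apply, Pi.smul_apply, vz_e2, vz_sst, smul_eq_mul, smul_eq_mul]
    ring
  rel := by
    by_cases h1 : wl = b0
    · by_cases h2 : zl = wl
      · have h3 : zl = b0 := h2.trans h1
        rw [if_pos h1, if_pos h2, if_pos h3]
      · have h3 : ¬ zl = b0 := fun h => h2 (h.trans h1.symm)
        rw [if_pos h1, if_neg h2, if_neg h3]
        norm_num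
    · rw [if_neg h1, zero_mul, mul_zero]

theorem pst_e2 {δ : ℝ} {μ : Nd l → ℝ} (hμ : Eg δ μ) (q : ℝ) (hq : q = δ ^ 2) (n : ℕ)
    (hn : 1 ≤ n) (b0 zl wl : Fin l) :
    (pst hμ q hq n hn b0 zl wl).φ ((pTL (2 * n + 1) hμ q hq).e 2) = q ^ (l2 n).length := by
  have hl : ∀ i ∈ l2 n, 2 * (i + 1) < 2 * n + 1 := by
    intro i hi
    have := (mem_l2 n i).1 hi
    omega
  have e2 := U27_commT (pTL (2 * n + 1) hμ q hq) 0 (by omega) (l2 n) hl
  have e3 := aC_vz hμ q hq n b0 zl (l2 n) (fun i hi => (mem_l2 n i).1 hi)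
  show T (pTL (2 * n + 1) hμ q hq) (aC n) ((pTL (2 * n + 1) hμ q hq).e 2 (vz n b0 zl))
          (sst b0 wl) = _
  have e4 : T (pTL (2 * n + 1) hμ q hq) (aC n) ((pTL (2 * n + 1) hμ q hq).e 2 (vz n b0 zl)) =
      (pTL (2 * n + 1) hμ q hq).e 2 (T (pTL (2 * n + 1) hμ q hq) (aC n) (vz n b0 zl)) := by
    rw [← Module.End.mul_apply, ← Module.End.mul_apply]
    exact congrArg (fun g => g (vz n b0 zl)) e2
  rw [e4]
  unfold aC
  rw [e3, map_smul, Pi.smul_apply, vz_e2, smul_eq_mul, mul_one]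

/-! ### statuses at the end -/

theorem ok_out {n : ℕ} (hn : 1 ≤ n) {w : List Let} {κ : ℕ → St} (h : OKP w κ)
    (hr : ∀ a ∈ w, InR1 n a) : ∀ i, (i = 0 ∨ n < i) → κ i = St.N := by
  induction h with
  | nil =>
    intro i hi
    show (if i = 1 then St.Z else St.N) = St.N
    rw [if_neg (by omega)]
  | C i b w κ hi h hb hW hbW ih =>
    have h1 := ih (fun a ha => hr a (List.mem_cons_of_mem _ ha))
    have h2 : 1 ≤ i ∧ i ≤ n := hr _ List.mem_cons_self
    intro j hj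
    rw [Function.update_of_ne (by omega)]
    exact h1 j hj
  | J i b w κ hi h hb h1 h2 h3 ih =>
    have k1 := ih (fun a ha => hr a (List.mem_cons_of_mem _ ha))
    have k2 : 1 ≤ i ∧ i < n := hr _ List.mem_cons_self
    intro j hj
    rw [Function.update_of_ne (by omega), Function.update_of_ne (by omega)]
    exact k1 j hj
  | X i w κ hi h h1 h2 h3 ih => exact ih (fun a ha => hr a (List.mem_cons_of_mem _ ha))
  | X0 w κ h h1 ih => exact ih (fun a ha => hr a (List.mem_cons_of_mem _ ha))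

theorem ok_aC {w : List Let} {κ : ℕ → St} (h : OKP w κ) (hW : ∀ j, 2 ≤ j → κ j ≠ St.W)
    (L : List ℕ) (hL : ∀ i ∈ L, 1 ≤ i) :
    ∃ κ' : ℕ → St, OKP (L.map (fun i => Let.C (i + 1)) ++ w) κ' ∧ κ' 1 = κ 1 ∧
      (∀ j, 2 ≤ j → κ' j ≠ St.W) ∧ (∀ i ∈ L, κ' (i + 1) = St.N) ∧
      (∀ j, κ j = St.N → κ' j = St.N) := by
  induction L with
  | nil => exact ⟨κ, h, rfl, hW, by simp, fun j hj => hj⟩
  | cons i L ih =>
    obtain ⟨κ', h1, h2, h3, h4, h5⟩ := ih (fun i hi => hL i (List.mem_cons_of_mem _ hi))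
    have hi := hL i List.mem_cons_self
    refine ⟨Function.update κ' (i + 1) St.N, ?_, ?_, ?_, ?_, ?_⟩
    · exact OKP.C (i + 1) St.N _ κ' (by omega) h1 (by decide)
        (fun hw => absurd hw (h3 (i + 1) (by omega))) (fun hw => by cases hw)
    · rw [Function.update_of_ne (by omega)]
      exact h2
    · intro j hj
      by_cases hji : j = i + 1
      · rw [hji, Function.update_self]; decide
      · rw [Function.update_of_ne hji]
        exact h3 j hj
    · intro j hj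
      by_cases hji : j = i
      · rw [hji, Function.update_self]
      · rw [Function.update_of_ne (by omega)]
        rcases List.mem_cons.1 hj with hj | hj
        · exact absurd hj hji
        · exact h4 j hj
    · intro j hj
      by_cases hji : j = i + 1
      · rw [hji, Function.update_self]
      · rw [Function.update_of_ne hji]
        exact h5 j hj

theorem aC_inr (n : ℕ) : ∀ a ∈ aC n, InR1 n a := by
  intro a ha
  obtain ⟨i, hi, rfl⟩ := List.mem_map.1 ha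
  have := (mem_l2 n i).1 hi
  show 1 ≤ i + 1 ∧ i + 1 ≤ n
  omega

/-- The values of the words are nonnegative, and positive when the pins are distinct. -/
theorem value_nonneg {δ : ℝ} {μ : Nd l → ℝ} (hμ : Eg δ μ) (q : ℝ) (hq : q = δ ^ 2) (n : ℕ)
    (hn : 1 ≤ n) (b0 zl wl : Fin l) (w : List Let) (κ : ℕ → St) (hok : OKP w κ)
    (hr : ∀ a ∈ w, InR1 n a) (hκ1 : κ 1 = St.W ∨ κ 1 = St.N) (hκ2 : ∀ j, 2 ≤ j → κ j ≠ St.W)
    (R : List (ℝ × ℤ × Ty))
    (hR : ∀ (q : ℝ), q ≠ 0 → ∀ (A : Type) [Ring A] [Algebra ℝ A]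
      (S : TL (2 * n + 1) q A) (cz cw czw : ℝ) (F : StP S cz cw czw),
      F.φ (T S w) = Rv R q cz cw czw * F.φ (S.e 2)) :
    0 ≤ Rv R q (if zl = b0 then 1 else 0) (if wl = b0 then 1 else 0) (if zl = wl then 1 else 0) ∧
      (zl ≠ b0 → ((wl ≠ b0 ∧ zl ≠ wl) ∨ ∀ j, κ j ≠ St.W) →
        0 < Rv R q (if zl = b0 then 1 else 0) (if wl = b0 then 1 else 0)
          (if zl = wl then 1 else 0)) := by
  have hδ := hμ.delta_pos
  have hq0 : 0 < q := by rw [hq]; positivity
  have h1 := hR q hq0.ne' _ (pTL (2 * n + 1) hμ q hq) _ _ _ (pst hμ q hq n hn b0 zl wl)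
  rw [pst_e2] at h1
  have h2 : (pst hμ q hq n hn b0 zl wl).φ (T (pTL (2 * n + 1) hμ q hq) w) =
      T (pTL (2 * n + 1) hμ q hq) (aC n ++ w) (vz n b0 zl) (sst b0 wl) := by
    rw [T_append, Module.End.mul_apply]
    rfl
  rw [h2] at h1
  obtain ⟨κ', k1, k2, k3, k4, k5⟩ := ok_aC hok hκ2 (l2 n) (fun i hi => ((mem_l2 n i).1 hi).1)
  have hr' : ∀ a ∈ aC n ++ w, InR1 n a := by
    intro a ha
    rcases List.mem_append.1 ha with ha | ha
    · exact aC_inr n a ha
    · exact hr a ha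
  obtain ⟨p1, p2⟩ := word_Pz hμ q hq n b0 zl wl (aC n ++ w) κ' k1 hr'
  have hout := ok_out hn k1 hr'
  have hN : ∀ j, j ≠ 1 → κ' j = St.N := by
    intro j hj
    by_cases h3 : j = 0 ∨ n < j
    · exact hout j h3
    · obtain ⟨i, rfl⟩ : ∃ i, j = i + 1 := ⟨j - 1, by omega⟩
      exact k4 i ((mem_l2 n i).2 (by omega))
  have hAd : Ad b0 wl κ' (sst b0 wl) := by
    refine ⟨sst_Bs b0 wl, fun j hj => ?_⟩
    have : j = 1 := by
      by_contra h3
      rw [hN j h3] at hj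
      cases hj
    rw [this]
    rfl
  have h1' : κ' 1 = St.W ∨ κ' 1 = St.N := by rw [k2]; exact hκ1
  have hSp : Sp b0 zl wl κ' (sst b0 wl) := by
    refine ⟨hAd, sst_even b0 wl, fun j hj => ?_, fun j hj => ?_⟩
    · exfalso
      by_cases h3 : j = 1
      · rw [h3] at hj
        rcases h1' with h | h <;> rw [h] at hj <;> cases hj
      · rw [hN j h3] at hj
        cases hj
    · exfalso
      by_cases h3 : j = 1
      · rw [h3] at hj
        rcases h1' with h | h <;> rw [h] at hj <;> rcases hj with hj | hj <;> cases hj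
      · rw [hN j h3] at hj
        rcases hj with hj | hj <;> cases hj
  have hpow : 0 < q ^ (l2 n).length := pow_pos hq0 _
  constructor
  · have h3 := p1.nn _ hAd
    rw [Ug_sp hSp, one_mul, h1] at h3
    exact (mul_nonneg_iff_of_pos_right hpow).1 h3
  · intro a1 a2
    have h3 := p2 a1 (a2.imp id (fun a3 j hj => ?_)) _ hSp
    · rw [h1] at h3
      exact (mul_pos_iff_of_pos_right hpow).1 h3
    · by_cases hj1 : j = 1
      · rw [hj1, k2] at hj
        exact a3 1 hj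
      · rw [hN j hj1] at hj
        cases hj

end Pool.Agent.H26.BL
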